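import Mathlib

/-! Weighted filtration of a modular group algebra and a Jennings type lemma. -/

namespace Pool.Agent.Lib.MP_6d9b00_al

/-- A central filtration (N-series) of a group. -/
structure NS {P : Type*} [Group P] (G : ℕ → Subgroup P) : Prop where
  anti : ∀ {i j : ℕ}, i ≤ j → G j ≤ G i
  one : G 1 = ⊤
  comm : ∀ {i j : ℕ} {x y : P}, x ∈ G i → y ∈ G j → x * y * x⁻¹ * y⁻¹ ∈ G (i + j)

/-- The modular group algebra. -/
abbrev GA (p : ℕ) (P : Type*) := MonoidAlgebra (ZMod p) P

variable {p : ℕ} {P : Type*} [Group P]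

/-- Group elements inside the group algebra. -/
noncomputable def e (p : ℕ) (g : P) : GA p P := MonoidAlgebra.of (ZMod p) P g

theorem e_mul (g h : P) : e p (g * h) = e p g * e p h := map_mul _ _ _
theorem e_one : e p (1 : P) = 1 := map_one _
theorem e_pow (g : P) (n : ℕ) : e p (g ^ n) = e p g ^ n := map_pow _ _ _

theorem NS.mem_one {G : ℕ → Subgroup P} (hG : NS G) (x : P) : x ∈ G 1 := by
  rw [hG.one]; trivial

theorem NS.mem_zero {G : ℕ → Subgroup P} (hG : NS G) (x : P) : x ∈ G 0 :=
  hG.anti (Nat.zero_le 1) (hG.mem_one x)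

/-- The weighted filtration, as a predicate. -/
inductive FP (p : ℕ) (G : ℕ → Subgroup P) (H : Subgroup P) : ℕ → GA p P → Prop
  | grp (h : P) : h ∈ H → FP p G H 0 (e p h)
  | zero (n : ℕ) : FP p G H n 0
  | add (n : ℕ) (u v : GA p P) : FP p G H n u → FP p G H n v → FP p G H n (u + v)
  | smul (n : ℕ) (c : ZMod p) (u : GA p P) : FP p G H n u → FP p G H n (c • u)
  | sub (n v : ℕ) (h : P) (u : GA p P) : h ∈ H → h ∈ G v → FP p G H n u →
      FP p G H (n + v) ((e p h - 1) * u)
  | mono (m n : ℕ) (u : GA p P) : m ≤ n → FP p G H n u → FP p G H m u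

/-- The weighted filtration, as submodules. -/
def F (p : ℕ) (G : ℕ → Subgroup P) (H : Subgroup P) (n : ℕ) : Submodule (ZMod p) (GA p P) where
  carrier := {u | FP p G H n u}
  add_mem' := fun hu hv => FP.add _ _ _ hu hv
  zero_mem' := FP.zero _
  smul_mem' := fun c u hu => FP.smul _ c u hu

variable {G : ℕ → Subgroup P} {H : Subgroup P}

theorem mem_F {n : ℕ} {u : GA p P} : u ∈ F p G H n ↔ FP p G H n u := Iff.rfl

theorem F_mono {m n : ℕ} (h : m ≤ n) {u : GA p P} (hu : u ∈ F p G H n) : u ∈ F p G H m :=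
  FP.mono _ _ _ h hu

theorem F_sub {n v : ℕ} {h : P} {u : GA p P} (h1 : h ∈ H) (h2 : h ∈ G v) (hu : u ∈ F p G H n) :
    (e p h - 1) * u ∈ F p G H (n + v) := FP.sub _ _ _ _ h1 h2 hu

theorem F_grp {h : P} (h1 : h ∈ H) : e p h ∈ F p G H 0 := FP.grp _ h1

theorem F_left (hG : NS G) {n : ℕ} {h : P} {u : GA p P} (h1 : h ∈ H) (hu : u ∈ F p G H n) :
    e p h * u ∈ F p G H n := by
  have : e p h * u = (e p h - 1) * u + u := by rw [sub_mul, one_mul, sub_add_cancel]
  rw [this]
  exact add_mem (F_sub h1 (hG.mem_zero h) hu) hu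

theorem F_mul (hG : NS G) {m n : ℕ} {u v : GA p P} (hu : u ∈ F p G H m) (hv : v ∈ F p G H n) :
    u * v ∈ F p G H (m + n) := by
  rw [mem_F] at hu
  induction hu with
  | grp h hh => rw [zero_add]; exact F_left hG hh hv
  | zero n => rw [zero_mul]; exact zero_mem _
  | add n u u' _ _ ih ih' => rw [add_mul]; exact add_mem ih ih'
  | smul n c u _ ih => rw [smul_mul_assoc]; exact Submodule.smul_mem _ _ ih
  | sub k v h u h1 h2 _ ih =>
    rw [mul_assoc]
    exact F_mono (by omega) (F_sub h1 h2 ih)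
  | mono m k u hmk _ ih => exact F_mono (by omega) ih

theorem F_top_zero (u : GA p P) : u ∈ F p G ⊤ 0 := by
  induction u using MonoidAlgebra.induction_on with
  | of m => exact F_grp (Subgroup.mem_top m)
  | add u v hu hv => exact add_mem hu hv
  | smul c u hu => exact Submodule.smul_mem _ _ hu

theorem F_sub_one {v : ℕ} {h : P} (h1 : h ∈ H) (h2 : h ∈ G v) : e p h - 1 ∈ F p G H v := by
  have := F_sub (p := p) h1 h2 (F_grp (G := G) H.one_mem)
  rwa [e_one, mul_one, zero_add] at this

theorem F_span {n : ℕ} {u : GA p P} (hu : u ∈ F p G H n) :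
    u ∈ Submodule.span (ZMod p) (e p '' (H : Set P)) := by
  rw [mem_F] at hu
  induction hu with
  | grp h hh => exact Submodule.subset_span ⟨h, hh, rfl⟩
  | zero n => exact zero_mem _
  | add n u u' _ _ ih ih' => exact add_mem ih ih'
  | smul n c u _ ih => exact Submodule.smul_mem _ _ ih
  | sub k v h u h1 h2 hu' ih =>
    rw [sub_mul, one_mul]
    refine sub_mem ?_ ih
    clear hu'
    induction ih using Submodule.span_induction with
    | mem y hy =>
      obtain ⟨g, hg, rfl⟩ := hy
      exact Submodule.subset_span ⟨h * g, H.mul_mem h1 hg, e_mul _ _⟩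
    | zero => rw [mul_zero]; exact zero_mem _
    | add y y' _ _ i1 i2 => rw [mul_add]; exact add_mem i1 i2
    | smul c y _ i1 => rw [mul_smul_comm]; exact Submodule.smul_mem _ _ i1
  | mono m k u hmk _ ih => exact ih

/-- The linear map determined by values on group elements. -/
noncomputable def lin {M : Type*} [AddCommMonoid M] [Module (ZMod p) M] (f : P → M) :
    GA p P →ₗ[ZMod p] M :=
  (MonoidAlgebra.basis P (ZMod p)).constr (ZMod p) f

theorem lin_e {M : Type*} [AddCommMonoid M] [Module (ZMod p) M] (f : P → M) (g : P) :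
    lin (p := p) f (e p g) = f g := by
  have : e p g = MonoidAlgebra.basis P (ZMod p) g := by
    rw [MonoidAlgebra.basis_apply]; rfl
  rw [this, lin, Module.Basis.constr_basis]

/-- The augmentation. -/
noncomputable def eps (p : ℕ) (P : Type*) [Group P] : GA p P →ₗ[ZMod p] ZMod p :=
  lin (fun _ => 1)

theorem eps_e (g : P) : eps p P (e p g) = 1 := lin_e _ _

theorem eps_left (g : P) (u : GA p P) : eps p P (e p g * u) = eps p P u := by
  induction u using MonoidAlgebra.induction_on with
  | of m =>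
    change eps p P (e p g * e p m) = eps p P (e p m)
    rw [← e_mul, eps_e, eps_e]
  | add u v hu hv => rw [mul_add, map_add, map_add, hu, hv]
  | smul c u hu => rw [mul_smul_comm, map_smul, map_smul, hu]

theorem eps_F {n : ℕ} {u : GA p P} (hu : u ∈ F p G H n) (hn : 1 ≤ n) : eps p P u = 0 := by
  rw [mem_F] at hu
  induction hu with
  | grp h hh => omega
  | zero n => exact map_zero _
  | add n u u' _ _ ih ih' => rw [map_add, ih hn, ih' hn, add_zero]
  | smul n c u _ ih => rw [map_smul, ih hn, smul_zero]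
  | sub k v h u h1 h2 _ ih => rw [sub_mul, one_mul, map_sub, eps_left, sub_self]
  | mono m k u hmk _ ih => exact ih (by omega)

/-- The filtration of the algebra of `H` described through a normal subgroup `L` and an
element `x` of weight `w`. -/
noncomputable def E (p : ℕ) (G : ℕ → Subgroup P) (L : Subgroup P) (x : P) (w : ℕ) :
    ℕ → ℕ → Submodule (ZMod p) (GA p P)
  | 0, n => F p G L n
  | k + 1, n => E p G L x w k n ⊔
      (F p G L (n - (k + 1) * w)).map (LinearMap.mulLeft (ZMod p) ((e p x - 1) ^ (k + 1)))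

variable {L : Subgroup P} {x : P} {w : ℕ}

theorem E_succ {k n : ℕ} {u : GA p P} (hu : u ∈ E p G L x w (k + 1) n) :
    ∃ u1 ∈ E p G L x w k n, ∃ u2 ∈ F p G L (n - (k + 1) * w),
      u = u1 + (e p x - 1) ^ (k + 1) * u2 := by
  obtain ⟨u1, h1, y, hy, rfl⟩ := Submodule.mem_sup.1 hu
  obtain ⟨u2, h2, rfl⟩ := Submodule.mem_map.1 hy
  exact ⟨u1, h1, u2, h2, rfl⟩

theorem E_up {k n : ℕ} {u : GA p P} (hu : u ∈ E p G L x w k n) : u ∈ E p G L x w (k + 1) n :=
  Submodule.mem_sup_left hu

theorem E_gen {k n : ℕ} {u : GA p P} (hu : u ∈ F p G L (n - k * w)) :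
    (e p x - 1) ^ k * u ∈ E p G L x w k n := by
  cases k with
  | zero => simpa [E] using hu
  | succ k => exact Submodule.mem_sup_right (Submodule.mem_map.2 ⟨u, hu, rfl⟩)

theorem E_of_F {k n : ℕ} {u : GA p P} (hu : u ∈ F p G L n) : u ∈ E p G L x w k n := by
  induction k with
  | zero => exact hu
  | succ k ih => exact E_up ih

theorem E_mono {k m n : ℕ} (h : m ≤ n) {u : GA p P} (hu : u ∈ E p G L x w k n) :
    u ∈ E p G L x w k m := by
  induction k generalizing u with
  | zero => exact F_mono h hu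
  | succ k ih =>
    obtain ⟨u1, h1, u2, h2, rfl⟩ := E_succ hu
    exact add_mem (E_up (ih h1)) (E_gen (F_mono (by omega) h2))

theorem E_x {k n : ℕ} {u : GA p P} (hu : u ∈ E p G L x w k n) :
    (e p x - 1) * u ∈ E p G L x w (k + 1) (n + w) := by
  induction k generalizing u with
  | zero =>
    have := E_gen (p := p) (G := G) (L := L) (x := x) (w := w) (k := 1) (n := n + w) (u := u)
      (F_mono (by omega) hu)
    rwa [pow_one] at this
  | succ k ih =>
    obtain ⟨u1, h1, u2, h2, rfl⟩ := E_succ hu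
    rw [mul_add, ← mul_assoc, ← pow_succ']
    refine add_mem (E_up (ih h1)) (E_gen (F_mono ?_ h2))
    rw [Nat.succ_mul (k + 1) w]; omega

theorem E_x' {k n : ℕ} {u : GA p P} (hu : u ∈ E p G L x w k n) :
    e p x * u ∈ E p G L x w (k + 1) n := by
  have : e p x * u = (e p x - 1) * u + u := by rw [sub_mul, one_mul, sub_add_cancel]
  rw [this]
  exact add_mem (E_mono (by omega) (E_x hu)) (E_up hu)

theorem E_sub (hG : NS G) (hx : x ∈ G w) (hL : ∀ h ∈ L, x⁻¹ * h * x ∈ L) (k : ℕ) :
    ∀ (h : P) (v n : ℕ) (u : GA p P), h ∈ L → h ∈ G v → u ∈ E p G L x w k n →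
      (e p h - 1) * u ∈ E p G L x w k (n + v) := by
  induction k with
  | zero => exact fun h v n u h1 h2 hu => F_sub h1 h2 hu
  | succ k ih =>
    intro h v n u h1 h2 hu
    obtain ⟨u1, hu1, u2, hu2, rfl⟩ := E_succ hu
    rw [mul_add]
    refine add_mem (E_up (ih h v n u1 h1 h2 hu1)) ?_
    have hu' : (e p x - 1) ^ k * u2 ∈ E p G L x w k (n - w) :=
      E_gen (F_mono (by rw [Nat.succ_mul k w]; omega) hu2)
    set u' := (e p x - 1) ^ k * u2 with hu'def
    have hc1 : h⁻¹ * x⁻¹ * h * x ∈ L := by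
      have := L.mul_mem (L.inv_mem h1) (hL h h1)
      simpa only [mul_assoc] using this
    have hc2 : h⁻¹ * x⁻¹ * h * x ∈ G (v + w) := by
      have := hG.comm ((G v).inv_mem h2) ((G w).inv_mem hx)
      simpa only [inv_inv] using this
    have key : (e p h - 1) * ((e p x - 1) ^ (k + 1) * u2) =
        (e p x - 1) * ((e p h - 1) * u') +
          e p x * (e p h * ((e p (h⁻¹ * x⁻¹ * h * x) - 1) * u')) := by
      have h3 : e p x * e p h * e p (h⁻¹ * x⁻¹ * h * x) = e p h * e p x := by
        rw [← e_mul, ← e_mul, ← e_mul]; congr 1; group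
      rw [pow_succ', mul_assoc, ← hu'def]
      simp only [← mul_assoc]
      rw [← add_mul]
      congr 1
      rw [mul_sub (e p x * e p h), h3]
      noncomm_ring
    rw [key]
    refine add_mem ?_ (E_x' ?_)
    · exact E_mono (by omega) (E_x (ih h v _ u' h1 h2 hu'))
    · have h4 : (e p (h⁻¹ * x⁻¹ * h * x) - 1) * u' ∈ E p G L x w k (n + v) :=
        E_mono (by omega) (ih _ _ _ u' hc1 hc2 hu')
      set y := (e p (h⁻¹ * x⁻¹ * h * x) - 1) * u'
      have : e p h * y = (e p h - 1) * y + y := by rw [sub_mul, one_mul, sub_add_cancel]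
      rw [this]
      exact add_mem (ih h 0 _ y h1 (hG.mem_zero h) h4) h4

end Pool.Agent.Lib.MP_6d9b00_al
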