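import Mathlib
import Pool.Agent.Lib.MP_6d9b00_al.Filt

/-! A Jennings type lemma: if `z - 1` lies in the `n`-th term of the weighted filtration of the
group algebra, then `z` lies in the `n`-th term of the filtration of the group. -/

namespace Pool.Agent.Lib.MP_6d9b00_al

variable {p : ℕ} [hp : Fact p.Prime] {P : Type*} [Group P] {G : ℕ → Subgroup P}
  {L : Subgroup P} {x : P} {w : ℕ}

instance : CharP (GA p P) p :=
  charP_of_injective_algebraMap (algebraMap (ZMod p) (GA p P)).injective p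

theorem E_red (hxp : x ^ p ∈ L) (hxw : x ^ p ∈ G (w * p)) {k n : ℕ} (hk : k + 1 = p)
    {u : GA p P} (hu : u ∈ E p G L x w (k + 1) n) : u ∈ E p G L x w k n := by
  obtain ⟨u1, h1, u2, h2, rfl⟩ := E_succ hu
  refine add_mem h1 (E_of_F ?_)
  have : (e p x - 1) ^ (k + 1) = e p (x ^ p) - 1 := by
    rw [hk, sub_pow_char_of_commute p (Commute.one_right _), one_pow, e_pow]
  rw [this]
  refine F_mono ?_ (F_sub hxp hxw h2)
  rw [hk, mul_comm p w]; omega

/-- Every element of the filtration of the algebra of `H` decomposes along powers of `x - 1`. -/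
theorem F_le_E (hG : NS G) {H : Subgroup P} (hx : x ∈ G w) (hHw : H ≤ G w) (hLH : L ≤ H)
    (hL : ∀ h ∈ L, x⁻¹ * h * x ∈ L) (hxp : x ^ p ∈ L) (hxw : x ^ p ∈ G (w * p))
    (hN : ∀ h ∈ H, h ∈ G (w + 1) → h ∈ L)
    (hdec : ∀ h ∈ H, ∃ j : ℕ, ∃ y ∈ L, h = x ^ j * y) {k : ℕ} (hk : k + 1 = p)
    {n : ℕ} {u : GA p P} (hu : u ∈ F p G H n) : u ∈ E p G L x w k n := by
  have hX : ∀ (j m : ℕ) (y : GA p P), y ∈ E p G L x w k m → e p (x ^ j) * y ∈ E p G L x w k m := by
    intro j m y hy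
    induction j with
    | zero => rwa [pow_zero, e_one, one_mul]
    | succ j ih =>
      rw [pow_succ', e_mul, mul_assoc]
      exact E_red hxp hxw hk (E_x' ih)
  have hX1 : ∀ (j m : ℕ) (y : GA p P), y ∈ E p G L x w k m →
      (e p (x ^ j) - 1) * y ∈ E p G L x w k (m + w) := by
    intro j m y hy
    induction j with
    | zero => rw [pow_zero, e_one, sub_self, zero_mul]; exact zero_mem _
    | succ j ih =>
      have : (e p (x ^ (j + 1)) - 1) * y = e p x * ((e p (x ^ j) - 1) * y) + (e p x - 1) * y := by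
        rw [pow_succ', e_mul]; noncomm_ring
      rw [this]
      exact add_mem (E_red hxp hxw hk (E_x' ih)) (E_red hxp hxw hk (E_x hy))
  rw [mem_F] at hu
  induction hu with
  | grp h hh =>
    obtain ⟨j, y, hy, rfl⟩ := hdec h hh
    rw [e_mul]
    exact hX j 0 _ (E_of_F (F_grp hy))
  | zero n => exact zero_mem _
  | add n u u' _ _ ih ih' => exact add_mem ih ih'
  | smul n c u _ ih => exact Submodule.smul_mem _ _ ih
  | sub m v h u h1 h2 _ ih =>
    by_cases hv : w + 1 ≤ v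
    · exact E_sub hG hx hL k h v m u (hN h h1 (hG.anti hv h2)) h2 ih
    · obtain ⟨j, y, hy, rfl⟩ := hdec h h1
      have : (e p (x ^ j * y) - 1) * u =
          e p (x ^ j) * ((e p y - 1) * u) + (e p (x ^ j) - 1) * u := by
        rw [e_mul]; noncomm_ring
      rw [this]
      refine E_mono (show m + v ≤ m + w by omega) (add_mem (hX _ _ _ ?_) (hX1 _ _ _ ih))
      exact E_sub hG hx hL k y w m u hy (hHw (hLH hy)) ih
  | mono m n u hmn _ ih => exact E_mono hmn ih

open Classical in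
/-- The exponent of `x` in the decomposition of a group element. -/
noncomputable def kf (p : ℕ) (L : Subgroup P) (x g : P) : ℕ :=
  if h : ∃ k, k < p ∧ (x ^ k)⁻¹ * g ∈ L then h.choose else 0

theorem kf_spec (hxL : x ∉ L) (hxp : x ^ p ∈ L) {j : ℕ} (hj : j < p) {y : P} (hy : y ∈ L) :
    kf p L x (x ^ j * y) = j := by
  have hex : ∃ k, k < p ∧ (x ^ k)⁻¹ * (x ^ j * y) ∈ L := ⟨j, hj, by simpa using hy⟩
  rw [kf, dif_pos hex]
  obtain ⟨h1, h2⟩ := hex.choose_spec
  set k := hex.choose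
  by_contra hne
  have h3 : x ^ ((j : ℤ) - k) ∈ L := by
    have := L.mul_mem h2 (L.inv_mem hy)
    convert this using 1
    rw [zpow_sub, zpow_natCast, zpow_natCast]
    have : Commute (x ^ j) (x ^ k)⁻¹ := ((Commute.refl x).pow_pow j k).inv_right
    rw [this.eq]; group
  have hcop : IsCoprime ((j : ℤ) - k) (p : ℤ) := by
    have hpz : Prime (p : ℤ) := Nat.prime_iff_prime_int.1 hp.out
    refine ((Irreducible.coprime_iff_not_dvd hpz.irreducible).2 ?_).symm
    intro hd
    have h0 : (j : ℤ) - k = 0 := Int.eq_zero_of_abs_lt_dvd hd (by rw [abs_lt]; omega)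
    omega
  obtain ⟨a, b, hab⟩ := hcop
  apply hxL
  have : x = (x ^ ((j : ℤ) - k)) ^ a * (x ^ p) ^ b := by
    rw [← zpow_natCast x p, ← zpow_mul, ← zpow_mul, ← zpow_add, mul_comm _ a, mul_comm _ b, hab,
      zpow_one]
  rw [this]
  exact L.mul_mem (L.zpow_mem h3 a) (L.zpow_mem hxp b)

/-- Projection to the algebra of `L`. -/
noncomputable def rho (p : ℕ) (L : Subgroup P) (x : P) : GA p P →ₗ[ZMod p] GA p P :=
  lin (fun g => e p ((x ^ kf p L x g)⁻¹ * g))

/-- The exponent functional. -/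
noncomputable def lam (p : ℕ) (L : Subgroup P) (x : P) : GA p P →ₗ[ZMod p] ZMod p :=
  lin (fun g => (kf p L x g : ZMod p))

theorem rho_lam_base (hxL : x ∉ L) (hxp : x ^ p ∈ L) {j : ℕ} (hj : j < p) {u : GA p P}
    (hu : u ∈ Submodule.span (ZMod p) (e p '' (L : Set P))) :
    rho p L x (e p x ^ j * u) = u ∧ lam p L x (e p x ^ j * u) = (j : ZMod p) * eps p P u := by
  induction hu using Submodule.span_induction with
  | mem y hy =>
    obtain ⟨g, hg, rfl⟩ := hy
    rw [← e_pow, ← e_mul, rho, lam, lin_e, lin_e, kf_spec hxL hxp hj hg, eps_e, mul_one]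
    exact ⟨by rw [inv_mul_cancel_left], rfl⟩
  | zero => simp
  | add y y' _ _ i1 i2 =>
    rw [mul_add, map_add, map_add, map_add, i1.1, i1.2, i2.1, i2.2, mul_add]; exact ⟨rfl, rfl⟩
  | smul c y _ i1 =>
    rw [mul_smul_comm, map_smul, map_smul, map_smul, i1.1, i1.2]
    exact ⟨rfl, by simp only [smul_eq_mul]; ring⟩

theorem rho_lam_pow (hxL : x ∉ L) (hxp : x ^ p ∈ L) {u : GA p P}
    (hu : u ∈ Submodule.span (ZMod p) (e p '' (L : Set P))) (k : ℕ) :
    ∀ j : ℕ, j + (k + 1) < p →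
      rho p L x (e p x ^ j * ((e p x - 1) ^ (k + 1) * u)) = 0 ∧
      lam p L x (e p x ^ j * ((e p x - 1) ^ (k + 1) * u)) = if k = 0 then eps p P u else 0 := by
  have hs : ∀ (j k : ℕ), e p x ^ j * ((e p x - 1) ^ (k + 1) * u) =
      e p x ^ (j + 1) * ((e p x - 1) ^ k * u) - e p x ^ j * ((e p x - 1) ^ k * u) := by
    intro j k
    rw [pow_succ', pow_succ]; noncomm_ring
  induction k with
  | zero =>
    intro j hj
    rw [hs, pow_zero, one_mul, map_sub, map_sub, (rho_lam_base hxL hxp (by omega) hu).1,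
      (rho_lam_base hxL hxp (by omega) hu).1, (rho_lam_base hxL hxp (by omega) hu).2,
      (rho_lam_base hxL hxp (by omega) hu).2]
    refine ⟨sub_self _, ?_⟩
    rw [if_pos rfl]; push_cast; ring
  | succ k ih =>
    intro j hj
    rw [hs, map_sub, map_sub, (ih _ (by omega)).1, (ih _ (by omega)).1, (ih _ (by omega)).2,
      (ih _ (by omega)).2]
    simp

theorem rho_lam_E (hxL : x ∉ L) (hxp : x ^ p ∈ L) {n : ℕ} (hwn : w < n) (k : ℕ) (hk : k < p) :
    ∀ u ∈ E p G L x w k n, rho p L x u ∈ F p G L n ∧ lam p L x u = 0 := by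
  induction k with
  | zero =>
    intro u hu
    have := rho_lam_base hxL hxp hk (F_span hu)
    rw [pow_zero, one_mul] at this
    rw [this.1, this.2]
    exact ⟨hu, by simp⟩
  | succ k ih =>
    intro u hu
    obtain ⟨u1, h1, u2, h2, rfl⟩ := E_succ hu
    have h3 := rho_lam_pow hxL hxp (F_span h2) k 0 (by omega)
    rw [pow_zero, one_mul] at h3
    rw [map_add, map_add, h3.1, h3.2, add_zero, (ih (by omega) u1 h1).2, zero_add]
    refine ⟨(ih (by omega) u1 h1).1, ?_⟩
    split_ifs with h0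
    · subst h0
      exact eps_F h2 (by omega)
    · rfl

theorem jennings_aux [Finite P] (hG : NS G) (hpow : ∀ i, ∀ g ∈ G i, g ^ p ∈ G (i * p)) (n : ℕ)
    (H : Subgroup P) : ∀ z ∈ H, e p z - 1 ∈ F p G H n → z ∈ G n := by
  induction H using WellFoundedLT.induction with
  | ind H ih =>
  intro z hz hF
  by_cases hHn : H ≤ G n
  · exact hHn hz
  classical
  have hex : ∃ m, ¬ H ≤ G m := ⟨n, hHn⟩
  have hm0 : ¬ Nat.find hex = 0 := by
    intro h0
    have := Nat.find_spec hex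
    rw [h0] at this
    exact this (fun y _ => hG.mem_zero y)
  obtain ⟨w, hw⟩ := Nat.exists_eq_succ_of_ne_zero hm0
  have hw1 : ¬ H ≤ G (w + 1) := by
    have := Nat.find_spec hex
    rwa [hw] at this
  have hHw : H ≤ G w := by
    by_contra hc
    have := Nat.find_min' hex hc
    omega
  have hwn : w < n := by
    have := Nat.find_min' hex hHn
    omega
  have hw0 : 1 ≤ w := by
    by_contra hc
    have : w = 0 := by omega
    subst this
    exact hw1 (fun y _ => hG.mem_one y)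
  have hp2 := hp.out.two_le
  obtain ⟨L, hNL, hLmax⟩ := Finite.exists_le_maximal (p := fun L : Subgroup P => L < H)
    (a := H ⊓ G (w + 1)) (lt_of_le_of_ne inf_le_left (fun h => hw1 (h ▸ inf_le_right)))
  have hLH : L < H := hLmax.prop
  obtain ⟨x, hxH, hxL⟩ := SetLike.exists_of_lt hLH
  have hN : ∀ h ∈ H, h ∈ G (w + 1) → h ∈ L := fun h h1 h2 => hNL ⟨h1, h2⟩
  have hconj : ∀ g ∈ H, ∀ h ∈ L, g⁻¹ * h * g ∈ L := by
    intro g hg h hh
    have h1 : h⁻¹ * g⁻¹ * h * g ∈ L := by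
      refine hN _ (H.mul_mem (H.mul_mem (H.mul_mem (H.inv_mem (hLH.le hh)) (H.inv_mem hg))
        (hLH.le hh)) hg) (hG.anti (show w + 1 ≤ w + w by omega) ?_)
      have := hG.comm ((G w).inv_mem (hHw (hLH.le hh))) ((G w).inv_mem (hHw hg))
      simpa only [inv_inv] using this
    have := L.mul_mem hh h1
    simpa only [mul_assoc, mul_inv_cancel_left] using this
  have hxw : x ^ p ∈ G (w * p) := hpow w x (hHw hxH)
  have hxp : x ^ p ∈ L := hN _ (H.pow_mem hxH p) (hG.anti (by nlinarith) hxw)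
  let M : Subgroup P :=
    { carrier := {g | ∃ k : ℤ, (x ^ k)⁻¹ * g ∈ L}
      one_mem' := ⟨0, by simp⟩
      mul_mem' := by
        rintro g g' ⟨k, hk⟩ ⟨l, hl⟩
        refine ⟨k + l, ?_⟩
        have := L.mul_mem (hconj (x ^ l) (H.zpow_mem hxH l) _ hk) hl
        convert this using 1
        rw [zpow_add]; group
      inv_mem' := by
        rintro g ⟨k, hk⟩
        refine ⟨-k, ?_⟩
        have := hconj (x ^ k)⁻¹ (H.inv_mem (H.zpow_mem hxH k)) _ (L.inv_mem hk)
        convert this using 1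
        group }
  have hMH : M ≤ H := by
    rintro g ⟨k, hk⟩
    have := H.mul_mem (H.zpow_mem hxH k) (hLH.le hk)
    simpa using this
  have hHM : H ≤ M := by
    by_contra hc
    have h1 : M < H := lt_of_le_of_ne hMH (fun h => hc h.ge)
    have h2 : L ≤ M := fun g hg => ⟨0, by simpa using hg⟩
    exact hxL (hLmax.le_of_ge h1 h2 ⟨1, by simp⟩)
  have hdec : ∀ h ∈ H, ∃ j : ℕ, j < p ∧ ∃ y ∈ L, h = x ^ j * y := by
    intro h hh
    obtain ⟨k, hk⟩ := hHM hh
    have hp0 : (0 : ℤ) < p := by omega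
    have h1 := Int.emod_nonneg k hp0.ne'
    have h2 := Int.emod_lt_of_pos k hp0
    refine ⟨(k % p).toNat, by omega, (x ^ p) ^ (k / p) * ((x ^ k)⁻¹ * h),
      L.mul_mem (L.zpow_mem hxp _) hk, ?_⟩
    rw [← zpow_natCast x, Int.toNat_of_nonneg h1, ← zpow_natCast x p, ← zpow_mul, ← mul_assoc,
      ← zpow_add, Int.emod_add_mul_ediv, mul_inv_cancel_left]
  have hE := F_le_E hG (hHw hxH) hHw hLH.le (hconj x hxH) hxp hxw hN
    (fun h hh => (hdec h hh).imp fun j hj => hj.2) (k := p - 1) (by omega) hF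
  obtain ⟨h1, h2⟩ := rho_lam_E hxL hxp hwn (p - 1) (by omega) _ hE
  obtain ⟨j, hj, y, hy, rfl⟩ := hdec z hz
  have hs : e p y ∈ Submodule.span (ZMod p) (e p '' (L : Set P)) :=
    Submodule.subset_span ⟨y, hy, rfl⟩
  have hs1 : (1 : GA p P) ∈ Submodule.span (ZMod p) (e p '' (L : Set P)) :=
    Submodule.subset_span ⟨1, L.one_mem, e_one⟩
  have b1 := rho_lam_base hxL hxp hj hs
  have b0 := rho_lam_base hxL hxp (j := 0) (by omega) hs1
  rw [pow_zero, one_mul] at b0
  rw [e_mul, e_pow, map_sub, b1.1, b0.1] at h1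
  rw [e_mul, e_pow, map_sub, b1.2, b0.2, eps_e] at h2
  have hj0 : j = 0 := by
    have h3 : (j : ZMod p) = 0 := by simpa using h2
    rw [ZMod.natCast_eq_zero_iff] at h3
    exact Nat.eq_zero_of_dvd_of_lt h3 hj
  subst hj0
  rw [pow_zero, one_mul]
  exact ih L hLH y hy h1

theorem jennings [Finite P] (hG : NS G) (hpow : ∀ i, ∀ g ∈ G i, g ^ p ∈ G (i * p)) {n : ℕ}
    {z : P} (hz : e p z - 1 ∈ F p G ⊤ n) : z ∈ G n :=
  jennings_aux hG hpow n ⊤ z (Subgroup.mem_top z) hz

end Pool.Agent.Lib.MP_6d9b00_al
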