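import Mathlib
import Pool.Agent.Lib.MP_6d9b00_al.Jennings

/-! Polynomial functions with values in the filtered group algebra. -/

namespace Pool.Agent.Lib.MP_6d9b00_al

set_option linter.unusedSectionVars false

open Finset

variable {p : ℕ} [hp : Fact p.Prime] {P : Type*} [Group P] {G : ℕ → Subgroup P}

/-- Parameter space. -/
abbrev X3 (p : ℕ) := ZMod p × ZMod p × ZMod p

/-- Polynomial functions of `(s, i, j)` of degree at least `r` in `s`, whose coefficients lie
in the expected terms of the filtration. -/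
noncomputable def Pl (p : ℕ) (G : ℕ → Subgroup P) (w r n : ℕ) :
    Submodule (ZMod p) (X3 p → GA p P) :=
  Submodule.span (ZMod p) {f | ∃ (m u v : ℕ) (y : GA p P), r ≤ m ∧
    y ∈ F p G ⊤ (n + m * w + u + v) ∧ f = fun x => (x.1 ^ m * x.2.1 ^ u * x.2.2 ^ v) • y}

variable {w : ℕ}

theorem Pl_gen {r n m u v : ℕ} {y : GA p P} (h : r ≤ m) (hy : y ∈ F p G ⊤ (n + m * w + u + v)) :
    (fun x : X3 p => (x.1 ^ m * x.2.1 ^ u * x.2.2 ^ v) • y) ∈ Pl p G w r n :=
  Submodule.subset_span ⟨m, u, v, y, h, hy, rfl⟩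

theorem Pl_mono {r r' n n' : ℕ} (h1 : r' ≤ r) (h2 : n' ≤ n) {f : X3 p → GA p P}
    (hf : f ∈ Pl p G w r n) : f ∈ Pl p G w r' n' := by
  refine Submodule.span_mono ?_ hf
  rintro f ⟨m, u, v, y, h, hy, rfl⟩
  exact ⟨m, u, v, y, by omega, F_mono (by omega) hy, rfl⟩

theorem Pl_mul (hG : NS G) {r r' n n' : ℕ} {f g : X3 p → GA p P} (hf : f ∈ Pl p G w r n)
    (hg : g ∈ Pl p G w r' n') : f * g ∈ Pl p G w (r + r') (n + n') := by
  induction hf using Submodule.span_induction with
  | zero => rw [zero_mul]; exact zero_mem _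
  | add y y' _ _ i1 i2 => rw [add_mul]; exact add_mem i1 i2
  | smul c y _ i1 => rw [smul_mul_assoc]; exact Submodule.smul_mem _ _ i1
  | mem f hf =>
    induction hg using Submodule.span_induction with
    | zero => rw [mul_zero]; exact zero_mem _
    | add y y' _ _ i1 i2 => rw [mul_add]; exact add_mem i1 i2
    | smul c y _ i1 => rw [mul_smul_comm]; exact Submodule.smul_mem _ _ i1
    | mem g hg =>
      obtain ⟨m, u, v, y, h, hy, rfl⟩ := hf
      obtain ⟨m', u', v', y', h', hy', rfl⟩ := hg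
      have := Pl_gen (p := p) (G := G) (w := w) (r := r + r') (n := n + n') (m := m + m')
        (u := u + u') (v := v + v') (y := y * y') (by omega)
        (F_mono (by rw [add_mul]; omega) (F_mul hG hy hy'))
      convert this using 1
      funext x
      simp only [Pi.mul_apply, smul_mul_smul_comm]
      congr 1
      ring

theorem Pl_const {n : ℕ} {y : GA p P} (hy : y ∈ F p G ⊤ n) : (fun _ : X3 p => y) ∈ Pl p G w 0 n := by
  have := Pl_gen (p := p) (G := G) (w := w) (r := 0) (n := n) (m := 0) (u := 0) (v := 0) (y := y)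
    le_rfl (by simpa using hy)
  simpa using this

theorem Pl_pow (hG : NS G) {f : X3 p → GA p P} (hf : f ∈ Pl p G w 0 0) (k : ℕ) :
    f ^ k ∈ Pl p G w 0 0 := by
  induction k with
  | zero => rw [pow_zero]; exact Pl_const (y := 1) (F_top_zero 1)
  | succ k ih => rw [pow_succ]; exact Pl_mono (by omega) (by omega) (Pl_mul hG ih hf)

/-- The part of `(x + y) ^ n` that is linear in `y`. -/
def linPart {R : Type*} [Ring R] (x y : R) : ℕ → R
  | 0 => 0
  | n + 1 => x * linPart x y n + y * x ^ n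

theorem Pl_binom (hG : NS G) {x y g : X3 p → GA p P} (hx : x ∈ Pl p G w 0 0)
    (hy : y ∈ Pl p G w 1 0) (hg : g ∈ Pl p G w 2 0) (n : ℕ) :
    linPart x y n ∈ Pl p G w 1 0 ∧ (x + y + g) ^ n - x ^ n - linPart x y n ∈ Pl p G w 2 0 := by
  induction n with
  | zero => simp [linPart]
  | succ n ih =>
    obtain ⟨i1, i2⟩ := ih
    refine ⟨add_mem (Pl_mono (by omega) (by omega) (Pl_mul hG hx i1))
      (Pl_mono (by omega) (by omega) (Pl_mul hG hy (Pl_pow hG hx n))), ?_⟩
    have hs : x + y + g ∈ Pl p G w 0 0 :=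
      add_mem (add_mem hx (Pl_mono (by omega) le_rfl hy)) (Pl_mono (by omega) le_rfl hg)
    set T := (x + y + g) ^ n - x ^ n - linPart x y n with hT
    have h1 : (x + y + g) ^ n = x ^ n + linPart x y n + T := by rw [hT]; abel
    have : (x + y + g) ^ (n + 1) - x ^ (n + 1) - linPart x y (n + 1) =
        x * T + y * linPart x y n + y * T + g * (x + y + g) ^ n := by
      rw [pow_succ', pow_succ', linPart, add_mul (x + y) g, add_mul x y]
      nth_rewrite 1 [h1]
      nth_rewrite 1 [h1]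
      noncomm_ring
    rw [this]
    exact add_mem (add_mem (add_mem (Pl_mono (by omega) (by omega) (Pl_mul hG hx i2))
      (Pl_mono (by omega) (by omega) (Pl_mul hG hy i1)))
      (Pl_mono (by omega) (by omega) (Pl_mul hG hy i2)))
      (Pl_mono (by omega) (by omega) (Pl_mul hG hg (Pl_pow hG hs n)))

theorem sum_pow_zero {i : ℕ} (hi : i < p - 1) : ∑ s : ZMod p, s ^ i = 0 :=
  FiniteField.sum_pow_lt_card_sub_one (ZMod p) i (by rwa [ZMod.card])

theorem sum_pow_last : ∑ s : ZMod p, s ^ (p - 2) * s = -1 := by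
  have hp2 := hp.out.two_le
  have h1 : ∀ s : ZMod p, s ^ (p - 2) * s = 1 - if s = 0 then 1 else 0 := by
    intro s
    split_ifs with h
    · simp [h]
    · rw [← pow_succ, show p - 2 + 1 = p - 1 by omega, ZMod.pow_card_sub_one_eq_one h, sub_zero]
  simp [h1, sum_sub_distrib]

theorem Pl_avg {f : X3 p → GA p P} (hf : f ∈ Pl p G w 2 0) :
    (fun x : X3 p => ∑ s : ZMod p, s ^ (p - 2) • f (s, x.2)) ∈ Pl p G w 0 (p * w) := by
  have hp2 := hp.out.two_le
  induction hf using Submodule.span_induction with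
  | zero =>
    simp only [Pi.zero_apply, smul_zero, sum_const_zero]
    exact zero_mem (Pl p G w 0 (p * w))
  | add y y' _ _ i1 i2 =>
    convert add_mem i1 i2 using 1
    funext x
    simp [sum_add_distrib]
  | smul c y _ i1 =>
    convert Submodule.smul_mem _ c i1 using 1
    funext x
    simp only [Pi.smul_apply, smul_sum, smul_comm c]
  | mem f hf =>
    obtain ⟨m, u, v, y, h, hy, rfl⟩ := hf
    have h1 : (fun x : X3 p => ∑ s : ZMod p, s ^ (p - 2) • (s ^ m * x.2.1 ^ u * x.2.2 ^ v) • y) =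
        (∑ s : ZMod p, s ^ (p - 2 + m)) •
          fun x : X3 p => (x.1 ^ 0 * x.2.1 ^ u * x.2.2 ^ v) • y := by
      funext x
      simp only [Pi.smul_apply, smul_smul, sum_smul, sum_mul]
      refine sum_congr rfl fun s _ => ?_
      congr 1
      ring
    rw [h1]
    by_cases hm : m < p
    · have : ∑ s : ZMod p, s ^ (p - 2 + m) = 0 := by
        rw [← sum_pow_zero (p := p) (i := m - 1) (by omega)]
        refine sum_congr rfl fun s _ => ?_
        rw [show p - 2 + m = (m - 2) + p by omega, pow_add, ZMod.pow_card, ← pow_succ]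
        congr 1; omega
      rw [this, zero_smul]
      exact zero_mem _
    · refine Submodule.smul_mem _ _ (Pl_gen le_rfl (F_mono ?_ hy))
      have : p * w ≤ m * w := Nat.mul_le_mul_right w (by omega)
      omega

theorem Pl_sum {r n : ℕ} {f : X3 p → GA p P} (hf : f ∈ Pl p G w r n) (s : ZMod p) :
    ∑ i : ZMod p, ∑ j : ZMod p, f (s, i, j) ∈ F p G ⊤ (n + 2 * (p - 1)) := by
  induction hf using Submodule.span_induction with
  | zero => simp
  | add y y' _ _ i1 i2 =>
    simp only [Pi.add_apply, sum_add_distrib]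
    exact add_mem i1 i2
  | smul c y _ i1 =>
    simp only [Pi.smul_apply, ← smul_sum]
    exact Submodule.smul_mem _ c i1
  | mem f hf =>
    obtain ⟨m, u, v, y, h, hy, rfl⟩ := hf
    have h1 : ∑ i : ZMod p, ∑ j : ZMod p, (s ^ m * i ^ u * j ^ v) • y =
        (s ^ m * (∑ i : ZMod p, i ^ u) * (∑ j : ZMod p, j ^ v)) • y := by
      rw [mul_assoc, sum_mul_sum, mul_sum, sum_smul]
      refine sum_congr rfl fun i _ => ?_
      rw [mul_sum, sum_smul]
      refine sum_congr rfl fun j _ => ?_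
      rw [mul_assoc]
    rw [h1]
    by_cases hu : u < p - 1
    · rw [sum_pow_zero hu]; simp
    by_cases hv : v < p - 1
    · rw [sum_pow_zero hv]; simp
    exact Submodule.smul_mem _ _ (F_mono (by omega) hy)

theorem Pl_subst {r n : ℕ} {f : X3 p → GA p P} (hf : f ∈ Pl p G w r n) :
    (fun x : X3 p => f (x.1, x.2.1, 0)) ∈ Pl p G w r n := by
  induction hf using Submodule.span_induction with
  | zero => exact zero_mem _
  | add y y' _ _ i1 i2 => exact add_mem i1 i2
  | smul c y _ i1 => exact Submodule.smul_mem _ c i1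
  | mem f hf =>
    obtain ⟨m, u, v, y, h, hy, rfl⟩ := hf
    rcases v with _ | v
    · simpa using Pl_gen (v := 0) h hy
    · simp only [ne_eq, Nat.add_eq_zero_iff, one_ne_zero, and_false, not_false_eq_true, zero_pow,
        mul_zero, zero_smul]
      exact zero_mem (Pl p G w r n)

theorem choose_poly {m : ℕ} (hm : m < p) : ∃ c : ℕ → ZMod p, (∀ k, m < k → c k = 0) ∧
    ∀ n : ℕ, (n.choose m : ZMod p) = ∑ k ∈ range p, (n : ZMod p) ^ k * c k := by
  have hf : (m.factorial : ZMod p) ≠ 0 := by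
    rw [Ne, ZMod.natCast_eq_zero_iff, hp.out.dvd_factorial]; omega
  have hd : (descPochhammer (ZMod p) m).natDegree = m := descPochhammer_natDegree (ZMod p) m
  refine ⟨fun k => (descPochhammer (ZMod p) m).coeff k * (m.factorial : ZMod p)⁻¹, ?_, ?_⟩
  · intro k hk
    simp only
    rw [Polynomial.coeff_eq_zero_of_natDegree_lt (by omega), zero_mul]
  · intro n
    have h1 := descPochhammer_eval_eq_descFactorial (ZMod p) n m
    rw [Polynomial.eval_eq_sum_range' (n := p) (by omega), Nat.descFactorial_eq_factorial_mul_choose,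
      Nat.cast_mul] at h1
    have : (n.choose m : ZMod p) = ((m.factorial : ZMod p) * n.choose m) * (m.factorial : ZMod p)⁻¹ := by
      field_simp
    rw [this, ← h1, sum_mul]
    refine sum_congr rfl fun k _ => ?_
    ring

theorem F_pow (hG : NS G) {v : ℕ} {y : GA p P} (hy : y ∈ F p G ⊤ v) (k : ℕ) :
    y ^ k ∈ F p G ⊤ (k * v) := by
  induction k with
  | zero => rw [zero_mul]; exact F_top_zero _
  | succ k ih => rw [pow_succ, Nat.succ_mul]; exact F_mul hG ih hy

theorem exp_poly (hG : NS G) {v : ℕ} {g : P} (hg : g ∈ G v) :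
    ∃ θ : ℕ → GA p P, (∀ k, θ k ∈ F p G ⊤ (k * v)) ∧
      ∀ s : ZMod p, e p (g ^ s.val) = ∑ k ∈ range p, s ^ k • θ k := by
  have hy : e p g - 1 ∈ F p G ⊤ v := F_sub_one (Subgroup.mem_top g) hg
  have hc : ∀ m : ℕ, ∃ c : ℕ → ZMod p, m < p → ((∀ k, m < k → c k = 0) ∧
      ∀ n : ℕ, (n.choose m : ZMod p) = ∑ k ∈ range p, (n : ZMod p) ^ k * c k) := by
    intro m
    by_cases hm : m < p
    · obtain ⟨c, hc⟩ := choose_poly hm
      exact ⟨c, fun _ => hc⟩
    · exact ⟨0, fun h => absurd h hm⟩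
  choose c hc using hc
  refine ⟨fun k => ∑ m ∈ range p, c m k • (e p g - 1) ^ m, ?_, ?_⟩
  · intro k
    refine Submodule.sum_mem _ fun m hm => ?_
    by_cases hmk : m < k
    · rw [(hc m (mem_range.1 hm)).1 k hmk, zero_smul]; exact zero_mem _
    · exact Submodule.smul_mem _ _
        (F_mono (Nat.mul_le_mul_right v (by omega)) (F_pow hG hy m))
  · intro s
    have h1 : e p (g ^ s.val) = ∑ m ∈ range p, ((s.val.choose m : ℕ) : ZMod p) • (e p g - 1) ^ m := by
      have h2 : e p g = (e p g - 1) + 1 := by abel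
      rw [e_pow]
      nth_rewrite 1 [h2]
      rw [(Commute.one_right (e p g - 1)).add_pow]
      have h3 : range (s.val + 1) ⊆ range p := range_subset_range.2 (ZMod.val_lt s)
      rw [← sum_subset h3]
      · refine sum_congr rfl fun m _ => ?_
        rw [one_pow, mul_one, Nat.cast_smul_eq_nsmul, nsmul_eq_mul']
      · intro m _ hm
        rw [Nat.choose_eq_zero_of_lt (by simpa using hm)]
        simp
    rw [h1]
    simp only [smul_sum]
    rw [sum_comm]
    refine sum_congr rfl fun m hm => ?_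
    rw [(hc m (mem_range.1 hm)).2, sum_smul]
    refine sum_congr rfl fun k _ => ?_
    rw [ZMod.natCast_zmod_val, mul_smul]

theorem Pl_expi (hG : NS G) (a : P) : (fun x : X3 p => e p (a ^ x.2.1.val)) ∈ Pl p G w 0 0 := by
  obtain ⟨θ, h1, h2⟩ := exp_poly (p := p) hG (hG.mem_one a)
  have : (fun x : X3 p => e p (a ^ x.2.1.val)) =
      ∑ k ∈ range p, fun x : X3 p => (x.1 ^ 0 * x.2.1 ^ k * x.2.2 ^ 0) • θ k := by
    funext x
    simp [h2]
  rw [this]
  exact Submodule.sum_mem _ fun k _ => Pl_gen le_rfl (by simpa using h1 k)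

theorem Pl_expj (hG : NS G) (a : P) : (fun x : X3 p => e p (a ^ x.2.2.val)) ∈ Pl p G w 0 0 := by
  obtain ⟨θ, h1, h2⟩ := exp_poly (p := p) hG (hG.mem_one a)
  have : (fun x : X3 p => e p (a ^ x.2.2.val)) =
      ∑ k ∈ range p, fun x : X3 p => (x.1 ^ 0 * x.2.1 ^ 0 * x.2.2 ^ k) • θ k := by
    funext x
    simp [h2]
  rw [this]
  exact Submodule.sum_mem _ fun k _ => Pl_gen le_rfl (by simpa using h1 k)

theorem Pl_exps (hG : NS G) {t : P} (ht : t ∈ G w) : ∃ θ ∈ F p G ⊤ w, ∃ g ∈ Pl p G w 2 0,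
    ∀ x : X3 p, e p (t ^ x.1.val) = 1 + x.1 • θ + g x := by
  obtain ⟨θ, h1, h2⟩ := exp_poly (p := p) hG ht
  have hp2 := hp.out.two_le
  obtain ⟨q, hq⟩ : ∃ q, p = q + 2 := ⟨p - 2, by omega⟩
  have h3 : ∀ s : ZMod p, ∑ k ∈ range p, s ^ k • θ k =
      θ 0 + s • θ 1 + ∑ k ∈ range q, s ^ (k + 2) • θ (k + 2) := by
    intro s
    have : range p = range (q + 1 + 1) := by rw [← hq]
    rw [this, sum_range_succ', sum_range_succ']
    simp only [pow_zero, one_smul, zero_add, pow_one]
    abel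
  have h0 : θ 0 = 1 := by
    have := h2 0
    rw [h3] at this
    simpa [e_one] using this.symm
  refine ⟨θ 1, by simpa using h1 1,
    ∑ k ∈ range q, fun x : X3 p => (x.1 ^ (k + 2) * x.2.1 ^ 0 * x.2.2 ^ 0) • θ (k + 2),
    Submodule.sum_mem _ fun k _ => Pl_gen (by omega) (by simpa using h1 (k + 2)), ?_⟩
  intro x
  rw [h2, h3, h0]
  simp

end Pool.Agent.Lib.MP_6d9b00_al
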