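import Mathlib

/-! A small verified checker for nilpotent quotient certificates of three generator Lie algebras
of characteristic five satisfying the multilinear Engel identity. -/

namespace Pool.Agent.Lib.MP_6d9b00_al.NQ

abbrev Vec := List (ℕ × ℕ)

def force {α : Type} (n : ℕ) (k : ℕ → α) : α :=
  Nat.rec (k 0) (fun m _ => k (Nat.succ m)) n

theorem force_eq {α : Type} (n : ℕ) (k : ℕ → α) : force n k = k n := by
  cases n <;> rfl

noncomputable def forceVec {α : Type} (v : Vec) : (Vec → α) → α :=
  List.rec (fun k => k []) (fun x _ ih k => force x.1 fun a => force x.2 fun b =>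
    ih fun t => k ((a, b) :: t)) v

theorem forceVec_eq {α : Type} (v : Vec) (k : Vec → α) : forceVec v k = k v := by
  induction v generalizing k with
  | nil => rfl
  | cons x t ih =>
    change force x.1 (fun a => force x.2 fun b => forceVec t fun t => k ((a, b) :: t)) = _
    rw [force_eq, force_eq, ih]

noncomputable def ins (k a : ℕ) (v : Vec) : Vec :=
  List.rec [(k, a)] (fun x t ih => cond (Nat.blt k x.1) ((k, a) :: x :: t)
    (cond (Nat.beq k x.1) (force ((a + x.2) % 5) fun s => cond (Nat.beq s 0) t ((k, s) :: t))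
      (x :: ih))) v

noncomputable def axpy (a : ℕ) (u v : Vec) : Vec :=
  List.rec v (fun x _ acc => force ((a * x.2) % 5) fun s => ins x.1 s acc) u

noncomputable def bind (u : Vec) (f : ℕ → Vec) : Vec :=
  List.rec [] (fun x _ acc => axpy x.2 (f x.1) acc) u

inductive Tr where
  | leaf (l : List (ℕ × ℕ × Vec))
  | node (l r : Tr)

noncomputable def findL (i j : ℕ) (d : Vec) (l : List (ℕ × ℕ × Vec)) : Vec :=
  List.rec d (fun x _ ih => cond (Nat.beq i x.1) (cond (Nat.beq j x.2.1) x.2.2 ih) ih) l

noncomputable def find (i j : ℕ) (d : Vec) (t : Tr) : ℕ → Vec :=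
  Tr.rec (fun l _ => findL i j d l)
    (fun _ _ ihl ihr h => cond (Nat.beq (h % 2) 0) (force (h / 2) ihl) (force (h / 2) ihr)) t

noncomputable def put {α : Type} (x : ℕ × ℕ × Vec) (t : Tr) : ℕ → (Tr → α) → α :=
  Tr.rec (fun l _ k => k (Tr.leaf (x :: l)))
    (fun l r ihl ihr h k => cond (Nat.beq (h % 2) 0)
      (force (h / 2) fun h' => ihl h' fun l' => k (Tr.node l' r))
      (force (h / 2) fun h' => ihr h' fun r' => k (Tr.node l r'))) t

def hash (i j : ℕ) : ℕ := (i * 40503 + j * 10007) % 1021

def dflt (i j : ℕ) : Vec :=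
  cond (Nat.blt 0 i && Nat.blt 0 j && Nat.blt j 4) [(4 * i + j, 1)] [(4 * Nat.pair i j, 1)]

noncomputable def look (t : Tr) (i j : ℕ) : Vec := force (hash i j) (find i j (dflt i j) t)

noncomputable def store {α : Type} (t : Tr) (i j : ℕ) (v : Vec) (k : Tr → α) : α :=
  forceVec v fun v' => force (hash i j) fun h => put (i, j, v') t h k

noncomputable def brv (t : Tr) (x : Vec) (y : ℕ) : Vec := bind x fun k => look t k y

noncomputable def e1 (t : Tr) (x : Vec) (a : ℕ) : Vec := brv t x a
noncomputable def e2 (t : Tr) (x : Vec) (a b : ℕ) : Vec :=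
  axpy 1 (forceVec (brv t x a) fun y => e1 t y b) (forceVec (brv t x b) fun y => e1 t y a)
noncomputable def e3 (t : Tr) (x : Vec) (a b c : ℕ) : Vec :=
  axpy 1 (forceVec (brv t x a) fun y => e2 t y b c) (axpy 1 (forceVec (brv t x b) fun y => e2 t y a c)
    (forceVec (brv t x c) fun y => e2 t y a b))
noncomputable def e4 (t : Tr) (x : Vec) (a b c d : ℕ) : Vec :=
  axpy 1 (forceVec (brv t x a) fun y => e3 t y b c d)
    (axpy 1 (forceVec (brv t x b) fun y => e3 t y a c d)
      (axpy 1 (forceVec (brv t x c) fun y => e3 t y a b d)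
        (forceVec (brv t x d) fun y => e3 t y a b c)))

/-- `mono d k` tests whether `k` is the code of a left normed monomial of degree `d + 1`. -/
noncomputable def mono (d : ℕ) : ℕ → Bool :=
  Nat.rec (fun k => Nat.blt k 4)
    (fun _ ih k => Nat.ble 4 k && Nat.blt 0 (k % 4) && force (k / 4) ih) d

def isw (k : ℕ) : Bool := Nat.ble 4 k && Nat.blt 0 (k % 4)

inductive Step where
  | J (i j : ℕ)
  | R (i j : ℕ)
  | C (n : ℕ)
  | A (n i j : ℕ)
  | E (n k0 k1 k2 k3 k4 d0 d1 d2 d3 d4 : ℕ)
  | L (u : ℕ) (c : Vec)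

noncomputable def step {α : Type} (s : Step) (t : Tr) (k : Tr → α) : α :=
  match s with
  | .J i j => cond (isw j) (store t i j (axpy 4 (bind (look t i (j % 4)) fun m => look t m (j / 4))
      (bind (look t i (j / 4)) fun m => look t m (j % 4))) k) (k t)
  | .R i j => store t i j (bind (look t i j) fun m =>
      cond (isw m) (look t (m / 4) (m % 4)) [(m, 1)]) k
  | .C n => store t 0 n [(11, 1)] k
  | .A n i j => store t 0 n (axpy 1 (look t i j) (look t j i)) k
  | .E n k0 k1 k2 k3 k4 d0 d1 d2 d3 d4 =>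
      cond (mono d0 k0 && mono d1 k1 && mono d2 k2 && mono d3 k3 && mono d4 k4 &&
        Nat.ble (d0 + d1 + d2 + d3 + d4) 8 && (Nat.ble (d0 + d1 + d2 + d3 + d4) 7 || Nat.ble 1 d0))
        (store t 0 n (e4 t [(k0, 1)] k1 k2 k3 k4) k) (k t)
  | .L u c => cond (isw u) (store t (u / 4) (u % 4)
      (axpy 1 (bind c fun m => look t 0 m) [(u, 1)]) k) (k t)

noncomputable def run {α : Type} (l : List Step) : Tr → (Tr → α) → α :=
  List.rec (fun t k => k t) (fun s _ ih t k => step s t fun t' => ih t' k) l

noncomputable def mk (d : ℕ) : Tr := Nat.rec (Tr.leaf []) (fun _ t => Tr.node t t) d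

noncomputable def memB (k : ℕ) (l : List ℕ) : Bool :=
  List.rec false (fun x _ ih => cond (Nat.beq k x) true ih) l

noncomputable def supp (v : Vec) (l : List ℕ) : Bool :=
  List.rec true (fun x _ ih => cond (memB x.1 l) ih false) v

noncomputable def closed (t : Tr) (l l' : List ℕ) : Bool :=
  List.rec true (fun k _ ih => cond (supp (look t k 1) l' && supp (look t k 2) l' &&
    supp (look t k 3) l') ih false) l

/-- The lists of spanning monomials are closed under multiplication by generators, and the last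
one generates nothing. -/
noncomputable def chain (t : Tr) (ls : List (List ℕ)) : List ℕ → Bool :=
  List.rec (fun l => closed t l []) (fun l' _ ih l => closed t l l' && ih l') ls

section sound

variable {R : Type*} [Ring R] [Algebra (ZMod 5) R]

/-- Ring commutator. -/
def br (x y : R) : R := x * y - y * x

/-- The element named by a code. -/
def c (g : ℕ → R) (n : ℕ) : R :=
  if h : n < 4 then g n
  else if n % 4 = 0 then br (c g (Nat.unpair (n / 4)).1) (c g (Nat.unpair (n / 4)).2)
  else br (c g (n / 4)) (g (n % 4))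
termination_by n
decreasing_by
  · have := Nat.unpair_left_le (n / 4); omega
  · have := Nat.unpair_right_le (n / 4); omega
  · omega

variable {g : ℕ → R}

omit [Algebra (ZMod 5) R] in
theorem c_lt {n : ℕ} (h : n < 4) : c g n = g n := by rw [c, dif_pos h]

omit [Algebra (ZMod 5) R] in
theorem c_w {n : ℕ} (h1 : 4 ≤ n) (h2 : 0 < n % 4) : c g n = br (c g (n / 4)) (c g (n % 4)) := by
  rw [c, dif_neg (by omega), if_neg (by omega), c_lt (Nat.mod_lt _ (by omega))]

omit [Algebra (ZMod 5) R] in
theorem c_pair (h0 : g 0 = 0) (i j : ℕ) : c g (4 * Nat.pair i j) = br (c g i) (c g j) := by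
  by_cases h : Nat.pair i j = 0
  · have h1 := Nat.left_le_pair i j
    have hi : i = 0 := by omega
    rw [h, hi, c_lt (by omega), h0]
    simp [br]
  · rw [c, dif_neg (by omega), if_pos (by omega), Nat.mul_div_cancel_left _ (by omega),
      Nat.unpair_pair]

/-- The value of a sparse vector. -/
def ev (g : ℕ → R) (v : Vec) : R := (v.map fun x => (x.2 : ZMod 5) • c g x.1).sum

theorem ev_nil : ev g [] = 0 := rfl
theorem ev_cons (x : ℕ × ℕ) (v : Vec) : ev g (x :: v) = (x.2 : ZMod 5) • c g x.1 + ev g v := by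
  simp [ev]
theorem ev_one (k : ℕ) : ev g [(k, 1)] = c g k := by simp [ev]

theorem ev_ins (k a : ℕ) (v : Vec) : ev g (ins k a v) = (a : ZMod 5) • c g k + ev g v := by
  induction v with
  | nil => exact ev_cons _ _
  | cons x t ih =>
    change ev g (cond (Nat.blt k x.1) ((k, a) :: x :: t)
      (cond (Nat.beq k x.1) (force ((a + x.2) % 5) fun s => cond (Nat.beq s 0) t ((k, s) :: t))
        (x :: ins k a t))) = _
    cases h1 : Nat.blt k x.1
    · cases h2 : Nat.beq k x.1
      · simp only [cond_false, ev_cons, ih]; abel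
      · have hk : k = x.1 := Nat.eq_of_beq_eq_true h2
        simp only [cond_false, cond_true, force_eq, ev_cons]
        have h4 : (((a + x.2) % 5 : ℕ) : ZMod 5) = a + x.2 := by
          rw [ZMod.natCast_mod]; push_cast; rfl
        cases h3 : Nat.beq ((a + x.2) % 5) 0
        · simp only [cond_false, ev_cons, h4, add_smul, hk]; abel
        · rw [Nat.eq_of_beq_eq_true h3] at h4
          simp only [cond_true, ← hk, ← add_assoc, ← add_smul, ← h4]
          simp
    · simp only [cond_true, ev_cons]

theorem ev_axpy (a : ℕ) (u v : Vec) : ev g (axpy a u v) = (a : ZMod 5) • ev g u + ev g v := by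
  induction u with
  | nil => simp [axpy, ev_nil]
  | cons x t ih =>
    change ev g (force ((a * x.2) % 5) fun s => ins x.1 s (axpy a t v)) = _
    rw [force_eq, ev_ins, ih, ev_cons, ZMod.natCast_mod, smul_add, smul_smul]
    push_cast
    abel

theorem ev_bind (u : Vec) (f : ℕ → Vec) (φ : R →ₗ[ZMod 5] R) (h : ∀ k, ev g (f k) = φ (c g k)) :
    ev g (bind u f) = φ (ev g u) := by
  induction u with
  | nil => simp [bind, ev_nil]
  | cons x t ih =>
    change ev g (axpy x.2 (f x.1) (bind t f)) = _
    rw [ev_axpy, ih, ev_cons, h, map_add, map_smul]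

/-- Bracket with a fixed element on the right. -/
def brR (y : R) : R →ₗ[ZMod 5] R :=
  LinearMap.mulRight (ZMod 5) y - LinearMap.mulLeft (ZMod 5) y

theorem brR_apply (x y : R) : brR y x = br x y := rfl

/-- All stored facts are true. -/
def Inv (g : ℕ → R) : Tr → Prop
  | .leaf l => ∀ x ∈ l, ev g x.2.2 = br (c g x.1) (c g x.2.1)
  | .node l r => Inv g l ∧ Inv g r

theorem find_ok {i j : ℕ} {d : Vec} (hd : ev g d = br (c g i) (c g j)) {t : Tr} (ht : Inv g t)
    (h : ℕ) : ev g (find i j d t h) = br (c g i) (c g j) := by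
  induction t generalizing h with
  | leaf l =>
    change ev g (findL i j d l) = _
    induction l with
    | nil => exact hd
    | cons x l ih =>
      have ih' := ih (fun y hy => ht y (List.mem_cons_of_mem _ hy))
      change ev g (cond (Nat.beq i x.1) (cond (Nat.beq j x.2.1) x.2.2 (findL i j d l))
        (findL i j d l)) = _
      cases h1 : Nat.beq i x.1
      · exact ih'
      · cases h2 : Nat.beq j x.2.1
        · exact ih'
        · rw [Nat.eq_of_beq_eq_true h1, Nat.eq_of_beq_eq_true h2]
          exact ht x List.mem_cons_self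
  | node l r ihl ihr =>
    change ev g (cond (Nat.beq (h % 2) 0) (force (h / 2) (find i j d l))
      (force (h / 2) (find i j d r))) = _
    rw [force_eq, force_eq]
    cases Nat.beq (h % 2) 0
    · exact ihr ht.2 _
    · exact ihl ht.1 _

theorem look_ok (h0 : g 0 = 0) {t : Tr} (ht : Inv g t) (i j : ℕ) :
    ev g (look t i j) = br (c g i) (c g j) := by
  rw [look, force_eq]
  refine find_ok ?_ ht _
  rw [dflt]
  cases h : (Nat.blt 0 i && Nat.blt 0 j && Nat.blt j 4)
  · rw [cond_false, ev_one, c_pair h0]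
  · simp only [Bool.and_eq_true, Nat.blt_eq] at h
    rw [cond_true, ev_one, c_w (by omega) (by omega), show (4 * i + j) / 4 = i by omega,
      show (4 * i + j) % 4 = j by omega]

theorem put_ok {α : Type} {x : ℕ × ℕ × Vec} (hx : ev g x.2.2 = br (c g x.1) (c g x.2.1)) {t : Tr}
    (ht : Inv g t) (h : ℕ) (k : Tr → α) : ∃ t', Inv g t' ∧ put x t h k = k t' := by
  induction t generalizing h k with
  | leaf l =>
    refine ⟨Tr.leaf (x :: l), ?_, rfl⟩
    intro y hy
    rcases List.mem_cons.1 hy with rfl | hy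
    · exact hx
    · exact ht y hy
  | node l r ihl ihr =>
    change ∃ t', Inv g t' ∧ cond (Nat.beq (h % 2) 0)
      (force (h / 2) fun h' => put x l h' fun l' => k (Tr.node l' r))
      (force (h / 2) fun h' => put x r h' fun r' => k (Tr.node l r')) = k t'
    rw [force_eq, force_eq]
    cases Nat.beq (h % 2) 0
    · obtain ⟨t', h1, h2⟩ := ihr ht.2 (h / 2) fun r' => k (Tr.node l r')
      exact ⟨Tr.node l t', ⟨ht.1, h1⟩, h2⟩
    · obtain ⟨t', h1, h2⟩ := ihl ht.1 (h / 2) fun l' => k (Tr.node l' r)
      exact ⟨Tr.node t' r, ⟨h1, ht.2⟩, h2⟩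

theorem store_ok {α : Type} {t : Tr} (ht : Inv g t) {i j : ℕ} {v : Vec}
    (hv : ev g v = br (c g i) (c g j)) (k : Tr → α) : ∃ t', Inv g t' ∧ store t i j v k = k t' := by
  rw [store, forceVec_eq, force_eq]
  exact put_ok (x := (i, j, v)) hv ht _ k

/-- Symmetrised iterated brackets. -/
def E2 (x a b : R) : R := br (br x a) b + br (br x b) a
def E3 (x a b c : R) : R := E2 (br x a) b c + (E2 (br x b) a c + E2 (br x c) a b)
def E4 (x a b c d : R) : R :=
  E3 (br x a) b c d + (E3 (br x b) a c d + (E3 (br x c) a b d + E3 (br x d) a b c))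

theorem brv_ok (h0 : g 0 = 0) {t : Tr} (ht : Inv g t) (x : Vec) (y : ℕ) :
    ev g (brv t x y) = br (ev g x) (c g y) :=
  ev_bind x _ (brR (c g y)) fun k => look_ok h0 ht k y

theorem e4_ok (h0 : g 0 = 0) {t : Tr} (ht : Inv g t) (x : Vec) (a b c' d : ℕ) :
    ev g (e4 t x a b c' d) = E4 (ev g x) (c g a) (c g b) (c g c') (c g d) := by
  simp only [e4, e3, e2, e1, E4, E3, E2, forceVec_eq, ev_axpy, brv_ok h0 ht, Nat.cast_one, one_smul]

/-- The hypotheses on the generators. -/
structure Hyp (g : ℕ → R) : Prop where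
  zero : g 0 = 0
  comm : br (g 2) (g 3) = 0
  engel : ∀ k0 k1 k2 k3 k4 d0 d1 d2 d3 d4 : ℕ, mono d0 k0 = true → mono d1 k1 = true →
    mono d2 k2 = true → mono d3 k3 = true → mono d4 k4 = true → d0 + d1 + d2 + d3 + d4 ≤ 8 →
    (d0 + d1 + d2 + d3 + d4 ≤ 7 ∨ 1 ≤ d0) → E4 (c g k0) (c g k1) (c g k2) (c g k3) (c g k4) = 0

omit [Algebra (ZMod 5) R] in
theorem isw_ok {k : ℕ} (h : isw k = true) : c g k = br (c g (k / 4)) (c g (k % 4)) := by
  simp only [isw, Bool.and_eq_true, Nat.ble_eq, Nat.blt_eq] at h
  exact c_w h.1 h.2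

theorem step_ok {α : Type} (H : Hyp g) (s : Step) {t : Tr} (ht : Inv g t) (k : Tr → α) :
    ∃ t', Inv g t' ∧ step s t k = k t' := by
  have h0 := H.zero
  have hz : ∀ n, br (c g 0) (c g n) = 0 := by
    intro n; rw [c_lt (by omega), h0]; simp [br]
  have h4 : ((4 : ℕ) : ZMod 5) = -1 := by decide
  cases s with
  | J i j =>
    simp only [step]
    cases h : isw j
    · exact ⟨t, ht, rfl⟩
    · refine store_ok ht ?_ k
      rw [ev_axpy, ev_bind _ _ (brR (c g (j / 4))) (fun m => look_ok h0 ht m _),
        ev_bind _ _ (brR (c g (j % 4))) (fun m => look_ok h0 ht m _), look_ok h0 ht, look_ok h0 ht,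
        h4, isw_ok h, neg_smul, one_smul, brR_apply, brR_apply]
      simp only [br]
      noncomm_ring
  | R i j =>
    refine store_ok ht ?_ k
    rw [ev_bind _ _ LinearMap.id, LinearMap.id_apply, look_ok h0 ht]
    intro m
    cases h : isw m
    · exact ev_one m
    · rw [cond_true, look_ok h0 ht, LinearMap.id_apply, ← isw_ok h]
  | C n =>
    refine store_ok ht ?_ k
    rw [ev_one, hz, c_w (by omega) (by omega), c_lt (by omega), c_lt (by omega)]
    exact H.comm
  | A n i j =>
    refine store_ok ht ?_ k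
    rw [ev_axpy, look_ok h0 ht, look_ok h0 ht, hz]
    simp [br]
  | E n k0 k1 k2 k3 k4 d0 d1 d2 d3 d4 =>
    simp only [step]
    cases h : (mono d0 k0 && mono d1 k1 && mono d2 k2 && mono d3 k3 && mono d4 k4 &&
        Nat.ble (d0 + d1 + d2 + d3 + d4) 8 && (Nat.ble (d0 + d1 + d2 + d3 + d4) 7 || Nat.ble 1 d0))
    · exact ⟨t, ht, rfl⟩
    · simp only [Bool.and_eq_true, Bool.or_eq_true, Nat.ble_eq] at h
      refine store_ok ht ?_ k
      rw [e4_ok h0 ht, ev_one, hz]
      exact H.engel _ _ _ _ _ _ _ _ _ _ h.1.1.1.1.1.1 h.1.1.1.1.1.2 h.1.1.1.1.2 h.1.1.1.2 h.1.1.2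
        h.1.2 h.2
  | L u v =>
    simp only [step]
    cases h : isw u
    · exact ⟨t, ht, rfl⟩
    · refine store_ok ht ?_ k
      rw [ev_axpy, ev_bind _ _ 0 (fun m => by rw [look_ok h0 ht, hz]; rfl), ev_one, ← isw_ok h]
      simp

theorem run_ok {α : Type} (H : Hyp g) (l : List Step) {t : Tr} (ht : Inv g t) (k : Tr → α) :
    ∃ t', Inv g t' ∧ run l t k = k t' := by
  induction l generalizing t with
  | nil => exact ⟨t, ht, rfl⟩
  | cons s l ih =>
    obtain ⟨t1, h1, h2⟩ := step_ok H s ht fun t' => run l t' k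
    obtain ⟨t2, h3, h4⟩ := ih h1
    exact ⟨t2, h3, h2.trans h4⟩

theorem mk_ok (d : ℕ) : Inv g (mk d) := by
  induction d with
  | zero => intro x hx; cases hx
  | succ d ih => exact ⟨ih, ih⟩

/-- The span of the monomials in a list. -/
def Sp (g : ℕ → R) (l : List ℕ) : Submodule (ZMod 5) R := Submodule.span (ZMod 5) (c g '' {k | k ∈ l})

theorem memB_ok {k : ℕ} {l : List ℕ} (h : memB k l = true) : k ∈ l := by
  induction l with
  | nil => cases h
  | cons x l ih =>
    change cond (Nat.beq k x) true (memB k l) = true at h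
    cases h1 : Nat.beq k x
    · rw [h1] at h; exact List.mem_cons_of_mem _ (ih h)
    · rw [Nat.eq_of_beq_eq_true h1]; exact List.mem_cons_self

theorem supp_ok {v : Vec} {l : List ℕ} (h : supp v l = true) : ev g v ∈ Sp g l := by
  induction v with
  | nil => exact zero_mem _
  | cons x v ih =>
    change cond (memB x.1 l) (supp v l) false = true at h
    cases h1 : memB x.1 l
    · rw [h1] at h; cases h
    · rw [h1] at h
      rw [ev_cons]
      exact add_mem (Submodule.smul_mem _ _ (Submodule.subset_span ⟨x.1, memB_ok h1, rfl⟩)) (ih h)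

theorem closed_ok (h0 : g 0 = 0) {t : Tr} (ht : Inv g t) {l l' : List ℕ} (h : closed t l l' = true)
    {x y : R} (hx : x ∈ Sp g l) (hy : y ∈ Sp g [1, 2, 3]) : br x y ∈ Sp g l' := by
  have h1 : ∀ k ∈ l, ∀ r ∈ [1, 2, 3], br (c g k) (c g r) ∈ Sp g l' := by
    clear hx
    induction l with
    | nil => intro k hk; cases hk
    | cons a l ih =>
      change cond (supp (look t a 1) l' && supp (look t a 2) l' && supp (look t a 3) l')
        (closed t l l') false = true at h
      cases h1 : (supp (look t a 1) l' && supp (look t a 2) l' && supp (look t a 3) l')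
      · rw [h1] at h; cases h
      · rw [h1] at h
        intro k hk
        rcases List.mem_cons.1 hk with rfl | hk
        · simp only [Bool.and_eq_true] at h1
          intro r hr
          rw [← look_ok h0 ht]
          simp only [List.mem_cons, List.not_mem_nil, or_false] at hr
          rcases hr with rfl | rfl | rfl
          · exact supp_ok h1.1.1
          · exact supp_ok h1.1.2
          · exact supp_ok h1.2
        · exact ih h k hk
  induction hx using Submodule.span_induction with
  | mem x hx =>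
    obtain ⟨k, hk, rfl⟩ := hx
    induction hy using Submodule.span_induction with
    | mem y hy =>
      obtain ⟨r, hr, rfl⟩ := hy
      exact h1 k hk r hr
    | zero => simp [br]
    | add y y' _ _ i1 i2 =>
      have : br (c g k) (y + y') = br (c g k) y + br (c g k) y' := by simp only [br]; noncomm_ring
      rw [this]; exact add_mem i1 i2
    | smul a y _ i1 =>
      have : br (c g k) (a • y) = a • br (c g k) y := by simp [br, smul_sub]
      rw [this]; exact Submodule.smul_mem _ _ i1
  | zero => simp [br]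
  | add x x' _ _ i1 i2 => rw [← brR_apply, map_add]; exact add_mem i1 i2
  | smul a x _ i1 => rw [← brR_apply, map_smul]; exact Submodule.smul_mem _ _ i1

/-- If sets `V n` are generated by bracketing with the span of the generators, they are killed
after as many steps as the certificate says. -/
theorem chain_ok (h0 : g 0 = 0) {t : Tr} (ht : Inv g t) (V : ℕ → Set R)
    (hV : ∀ (n : ℕ) (M M' : Submodule (ZMod 5) R), 1 ≤ n → V n ⊆ M →
      (∀ x ∈ M, ∀ y ∈ Sp g [1, 2, 3], br x y ∈ M') → V (n + 1) ⊆ M')
    (ls : List (List ℕ)) : ∀ (l : List ℕ) (n : ℕ), 1 ≤ n → chain t ls l = true → V n ⊆ Sp g l →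
      V (n + ls.length + 1) ⊆ {0} := by
  induction ls with
  | nil =>
    intro l n h1 h hn
    have := hV n _ _ h1 hn fun x hx y hy => closed_ok h0 ht h hx hy
    simpa [Sp] using this
  | cons l' ls ih =>
    intro l n h1 h hn
    change (closed t l l' && chain t ls l') = true at h
    rw [Bool.and_eq_true] at h
    have := ih l' (n + 1) (by omega) h.2
      (hV n _ _ h1 hn fun x hx y hy => closed_ok h0 ht h.1 hx hy)
    rwa [List.length_cons, show n + (ls.length + 1) + 1 = n + 1 + ls.length + 1 by omega]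

end sound

end Pool.Agent.Lib.MP_6d9b00_al.NQ
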