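import Mathlib
import Pool.Agent.Lib.MP_6d9b00_al.Calc

/-! The `p`-th power of an element of `T` lies deep in the filtration of the group algebra. -/

namespace Pool.Agent.Lib.MP_6d9b00_al

set_option linter.unusedSectionVars false

open Finset

variable {p : ℕ} [hp : Fact p.Prime] {P : Type*} [Group P] {G : ℕ → Subgroup P} {w : ℕ}

/-- Conjugation in the group algebra. -/
noncomputable def cj (p : ℕ) (g : P) : GA p P →ₗ[ZMod p] GA p P :=
  (LinearMap.mulRight (ZMod p) (e p g⁻¹)).comp (LinearMap.mulLeft (ZMod p) (e p g))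

theorem cj_apply (g : P) (u : GA p P) : cj p g u = e p g * u * e p g⁻¹ := rfl

theorem cj_one (u : GA p P) : cj p (1 : P) u = u := by
  rw [cj_apply, inv_one, e_one, one_mul, mul_one]

theorem cj_mul (g h : P) (u : GA p P) : cj p (g * h) u = cj p g (cj p h u) := by
  simp only [cj_apply, mul_inv_rev, e_mul, mul_assoc]

theorem cj_sub_mem (hG : NS G) (g : P) {k : ℕ} {u : GA p P} (hu : u ∈ F p G ⊤ k) :
    cj p g u - u ∈ F p G ⊤ (k + 1) := by
  have : cj p g u - u = (e p g - 1) * u * e p g⁻¹ + u * (e p g⁻¹ - 1) := by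
    rw [cj_apply]; noncomm_ring
  rw [this]
  exact add_mem (F_mono (by omega)
    (F_mul hG (F_sub (Subgroup.mem_top g) (hG.mem_one g) hu) (F_top_zero _)))
    (F_mul hG hu (F_sub_one (Subgroup.mem_top _) (hG.mem_one _)))

theorem sum_const_zero' {M : Type*} [AddCommGroup M] [Module (ZMod p) M] (u : M) :
    ∑ _i : ZMod p, u = 0 := by
  rw [sum_const, card_univ, ZMod.card, ← Nat.cast_smul_eq_nsmul (ZMod p), ZMod.natCast_self,
    zero_smul]

theorem sum_range_const_zero {M : Type*} [AddCommGroup M] [Module (ZMod p) M] (u : M) :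
    ∑ _i ∈ range p, u = 0 := by
  rw [sum_const, card_range, ← Nat.cast_smul_eq_nsmul (ZMod p), ZMod.natCast_self, zero_smul]

theorem sum_cj_mem (hG : NS G) (c : ZMod p → P) {k : ℕ} {u : GA p P} (hu : u ∈ F p G ⊤ k) :
    ∑ j : ZMod p, cj p (c j) u ∈ F p G ⊤ (k + 1) := by
  have : ∑ j : ZMod p, cj p (c j) u = ∑ j : ZMod p, (cj p (c j) u - u) := by
    rw [sum_sub_distrib, sum_const_zero', sub_zero]
  rw [this]
  exact Submodule.sum_mem _ fun j _ => cj_sub_mem hG _ hu

theorem linPart_eval (φ : P) (θ : GA p P) (s : ZMod p) (n : ℕ) :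
    linPart (e p φ) ((s • θ) * e p φ) n = s • ((∑ k ∈ range n, cj p (φ ^ k) θ) * e p (φ ^ n)) := by
  induction n with
  | zero => simp [linPart]
  | succ n ih =>
    rw [linPart, ih, sum_range_succ', pow_zero, cj_one, add_mul, smul_add, mul_smul_comm,
      smul_mul_assoc, smul_mul_assoc]
    congr 2
    · rw [← mul_assoc, mul_sum, sum_mul, sum_mul]
      refine sum_congr rfl fun k _ => ?_
      simp only [cj_apply, mul_assoc, ← e_mul]
      simp only [← mul_assoc, ← e_mul]
      congr 2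
      · rw [pow_succ']
      · group
    · rw [mul_assoc, ← e_pow, ← e_mul, ← pow_succ']

theorem linPart_apply {ι R : Type*} [Ring R] (x y : ι → R) (i : ι) (n : ℕ) :
    linPart x y n i = linPart (x i) (y i) n := by
  induction n with
  | zero => rfl
  | succ n ih => simp only [linPart, Pi.add_apply, Pi.mul_apply, Pi.pow_apply, ih]

theorem pow_val_mul {g : P} (hg : g ^ p = 1) (k : ℕ) (i : ZMod p) :
    (g ^ i.val) ^ k = g ^ ((k : ZMod p) * i).val := by
  rw [ZMod.val_mul, ZMod.val_natCast, Nat.mod_mul_mod, ← pow_eq_pow_mod _ hg, ← pow_mul, mul_comm]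

theorem sum_norm {a b : P} (hab : Commute a b) (hb : b ^ p = 1) (θ : GA p P) :
    ∑ i : ZMod p, ∑ j : ZMod p, ∑ k ∈ range p, cj p ((a ^ i.val * b ^ j.val) ^ k) θ =
      ∑ i : ZMod p, ∑ j : ZMod p, ∑ k ∈ range p, cj p (b ^ j.val * (a ^ i.val) ^ k) θ := by
  have h1 : ∀ f : ZMod p → ZMod p → ℕ → GA p P,
      ∑ i : ZMod p, ∑ j : ZMod p, ∑ k ∈ range p, f i j k =
        ∑ k ∈ range p, ∑ i : ZMod p, ∑ j : ZMod p, f i j k := by
    intro f
    rw [sum_comm (s := range p)]
    exact sum_congr rfl fun i _ => sum_comm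
  rw [h1, h1]
  refine sum_congr rfl fun k hk => ?_
  rcases Nat.eq_zero_or_pos k with rfl | hk0
  · simp only [pow_zero, mul_one]
    rw [sum_const_zero', sum_const_zero']
  · refine sum_congr rfl fun i _ => ?_
    have hk1 : (k : ZMod p) ≠ 0 := by
      rw [Ne, ZMod.natCast_eq_zero_iff]
      exact Nat.not_dvd_of_pos_of_lt hk0 (mem_range.1 hk)
    refine Fintype.sum_equiv (Equiv.mulLeft₀ (k : ZMod p) hk1) _ _ fun j => ?_
    rw [(hab.pow_pow _ _).mul_pow, pow_val_mul hb, Equiv.mulLeft₀_apply,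
      (((hab.pow_pow _ _).pow_left k)).eq]

theorem pow_sub_mem (hG : NS G) {z : P} {k : ℕ} (hz : e p z - 1 ∈ F p G ⊤ k) (n : ℕ) :
    e p (z ^ n) - 1 - (n : ZMod p) • (e p z - 1) ∈ F p G ⊤ (k + 1) := by
  induction n with
  | zero => simp [e_one]
  | succ n ih =>
    have : e p (z ^ (n + 1)) - 1 - ((n + 1 : ℕ) : ZMod p) • (e p z - 1) =
        (e p (z ^ n) - 1 - (n : ZMod p) • (e p z - 1)) + (e p (z ^ n) - 1) * (e p z - 1) := by
      rw [pow_succ, e_mul, Nat.cast_succ, add_smul, one_smul]; noncomm_ring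
    rw [this]
    exact add_mem ih (F_sub (Subgroup.mem_top _) (hG.mem_one _) hz)

theorem power_mem (hG : NS G) {t a b : P} (ht : t ∈ G w) (hab : Commute a b) (ha : a ^ p = 1)
    (hb : b ^ p = 1)
    (hT : ∀ s i j : ℕ, ¬ (p ∣ i ∧ p ∣ j) → (t ^ s * a ^ i * b ^ j) ^ p = 1) :
    e p (t ^ p) - 1 ∈ F p G ⊤ (p * w + 2 * (p - 1)) := by
  obtain ⟨θ, hθ, g, hg, hexp⟩ := Pl_exps (p := p) hG ht
  let φ : X3 p → P := fun x => a ^ x.2.1.val * b ^ x.2.2.val
  let Φ : X3 p → GA p P := fun x => e p (φ x)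
  have hΦ : Φ ∈ Pl p G w 0 0 := by
    have := Pl_mul hG (Pl_expi (p := p) (w := w) hG a) (Pl_expj (p := p) (w := w) hG b)
    convert this using 1
    funext x
    simp only [Φ, φ, e_mul, Pi.mul_apply]
  have hS : (fun x : X3 p => x.1 • θ) ∈ Pl p G w 1 0 := by
    simpa using Pl_gen (p := p) (G := G) (w := w) (r := 1) (n := 0) (m := 1) (u := 0) (v := 0)
      (y := θ) le_rfl (by simpa using hθ)
  have hbin := (Pl_binom hG hΦ (Pl_mono (by omega) (by omega) (Pl_mul hG hS hΦ))
    (Pl_mono (by omega) (by omega) (Pl_mul hG hg hΦ)) p).2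
  have hω := Pl_avg hbin
  set ζ : GA p P := ∑ s : ZMod p, s ^ (p - 2) • (e p ((t ^ p) ^ s.val) - 1) with hζ
  have hφp : ∀ x, φ x ^ p = 1 := by
    intro x
    simp only [φ]
    rw [(hab.pow_pow _ _).mul_pow, ← pow_mul, ← pow_mul, mul_comm _ p, mul_comm _ p, pow_mul,
      pow_mul, ha, hb, one_pow, one_pow, mul_one]
  let ω : X3 p → GA p P := fun x => (if x.2 = 0 then ζ else 0) + ∑ k ∈ range p, cj p (φ x ^ k) θ
  have hω' : ω ∈ Pl p G w 0 (p * w) := by
    convert hω using 1
    funext x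
    have h1 : ∀ s : ZMod p, ((Φ + (fun x : X3 p => x.1 • θ) * Φ + g * Φ) ^ p - Φ ^ p -
        linPart Φ ((fun x : X3 p => x.1 • θ) * Φ) p) (s, x.2) =
        (if x.2 = 0 then e p ((t ^ p) ^ s.val) - 1 else 0) -
          s • ∑ k ∈ range p, cj p (φ x ^ k) θ := by
      intro s
      have h2 : (Φ + (fun x : X3 p => x.1 • θ) * Φ + g * Φ) (s, x.2) = e p (t ^ s.val * φ x) := by
        rw [e_mul, hexp (s, x.2)]
        simp only [Pi.add_apply, Pi.mul_apply, Φ, φ]
        noncomm_ring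
      rw [Pi.sub_apply, Pi.sub_apply, Pi.pow_apply, Pi.pow_apply, h2, linPart_apply]
      have h3 : Φ (s, x.2) = e p (φ x) := rfl
      rw [Pi.mul_apply, h3, linPart_eval, ← e_pow, ← e_pow, hφp, e_one, mul_one]
      congr 1
      split_ifs with h0
      · have : φ x = 1 := by simp [φ, h0]
        rw [this, mul_one, ← pow_mul, ← pow_mul, mul_comm]
      · simp only [φ]
        rw [← mul_assoc, hT, e_one, sub_self]
        rintro ⟨h4, h5⟩
        apply h0
        have h6 := Nat.eq_zero_of_dvd_of_lt h4 (ZMod.val_lt _)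
        have h7 := Nat.eq_zero_of_dvd_of_lt h5 (ZMod.val_lt _)
        rw [ZMod.val_eq_zero] at h6 h7
        exact Prod.ext h6 h7
    simp only [h1, smul_sub, sum_sub_distrib, smul_smul, ← sum_smul, sum_pow_last, ω, neg_smul,
      one_smul, sub_neg_eq_add]
    congr 1
    split_ifs <;> simp [hζ, smul_sub]
  have hω2 := Pl_mul hG (Pl_mul hG (Pl_expj (p := p) (w := w) hG b) (Pl_subst hω'))
    (Pl_expj (p := p) (w := w) hG b⁻¹)
  have hsum := Pl_sum (sub_mem hω' (Pl_mono (by omega) (by omega) hω2)) 0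
  have hkey : ζ - ∑ j : ZMod p, cj p (b ^ j.val) ζ ∈ F p G ⊤ (p * w + 2 * (p - 1)) := by
    convert hsum using 1
    have h1 : ∀ i j : ZMod p, (ω - ((fun x : X3 p => e p (b ^ x.2.2.val)) *
        fun x : X3 p => ω (x.1, x.2.1, 0)) * fun x : X3 p => e p (b⁻¹ ^ x.2.2.val)) (0, i, j) =
        ((if (i, j) = 0 then ζ else 0) - if i = 0 then cj p (b ^ j.val) ζ else 0) +
        (∑ k ∈ range p, cj p ((a ^ i.val * b ^ j.val) ^ k) θ -
          ∑ k ∈ range p, cj p (b ^ j.val * (a ^ i.val) ^ k) θ) := by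
      intro i j
      simp only [Pi.sub_apply, Pi.mul_apply, inv_pow]
      rw [← cj_apply]
      simp only [ω, φ, map_add, map_sum, cj_mul, ZMod.val_zero, pow_zero, mul_one,
        Prod.mk_eq_zero, and_true]
      rw [apply_ite (cj p (b ^ j.val)), map_zero]
      abel
    simp only [h1, sum_add_distrib, sum_sub_distrib]
    rw [sum_norm hab hb, sub_self, add_zero]
    congr 1
    · rw [← Fintype.sum_prod_type' (f := fun i j : ZMod p => if (i, j) = 0 then ζ else 0)]
      simp
    · rw [sum_comm]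
      simp
  have hit : ∀ k, k ≤ p * w + 2 * (p - 1) → e p (t ^ p) - 1 ∈ F p G ⊤ k := by
    have hz : ∀ k, k ≤ p * w + 2 * (p - 1) → ζ ∈ F p G ⊤ k := by
      intro k
      induction k with
      | zero => exact fun _ => F_top_zero _
      | succ k ih =>
        intro hk
        have := add_mem (F_mono hk hkey) (sum_cj_mem hG (fun j => b ^ j.val) (ih (by omega)))
        rwa [sub_add_cancel] at this
    intro k
    induction k with
    | zero => exact fun _ => F_top_zero _
    | succ k ih =>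
      intro hk
      have h1 : e p (t ^ p) - 1 = ∑ s : ZMod p, s ^ (p - 2) •
          (e p ((t ^ p) ^ s.val) - 1 - ((s.val : ℕ) : ZMod p) • (e p (t ^ p) - 1)) - ζ := by
        simp only [hζ, ← sum_sub_distrib, ← smul_sub, sub_sub_cancel_left, ZMod.natCast_zmod_val,
          smul_neg, smul_smul, sum_neg_distrib, ← sum_smul, sum_pow_last, neg_smul, one_smul,
          neg_neg]
      rw [h1]
      exact sub_mem (Submodule.sum_mem _ fun s _ => Submodule.smul_mem _ _
        (pow_sub_mem hG (ih (by omega)) _)) (hz _ hk)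
  exact hit _ le_rfl

end Pool.Agent.Lib.MP_6d9b00_al
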