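import Mathlib
import Pool.Agent.Lib.MP_6d9b00_al.Power

/-! The `p`-th power map on central filtrations. -/

namespace Pool.Agent.Lib.MP_6d9b00_al

open scoped commutatorElement

universe u

variable {p : ℕ} [hp : Fact p.Prime]

theorem NS.map {P Q : Type*} [Group P] [Group Q] {G : ℕ → Subgroup P} (hG : NS G) (f : P →* Q)
    (hf : Function.Surjective f) : NS (fun n => (G n).map f) where
  anti := fun h => Subgroup.map_mono (hG.anti h)
  one := by rw [hG.one]; exact Subgroup.map_top_of_surjective f hf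
  comm := by
    rintro i j _ _ ⟨x, hx, rfl⟩ ⟨y, hy, rfl⟩
    exact ⟨_, hG.comm hx hy, by simp⟩

theorem series_aux (n : ℕ) : ∀ (P : Type u) [Group P] [Finite P], Nat.card P = n → IsPGroup p P →
    ∀ (T : Subgroup P) (a b : P), Commute a b → a ^ p = 1 → b ^ p = 1 →
    (∀ g, g ∈ T ∨ g ^ p = 1) →
    (∀ t ∈ T, ∀ i j : ℕ, ¬ (p ∣ i ∧ p ∣ j) → (t * a ^ i * b ^ j) ^ p = 1) →
    ∀ G : ℕ → Subgroup P, NS G → (∃ N, G N = ⊥) →
    ∀ w, ∀ t ∈ G w, t ^ p ∈ G (p * w + 2 * (p - 1)) := by
  induction n using Nat.strong_induction_on with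
  | _ n ih =>
  intro P _ _ hn hP T a b hab ha hb hT1 hT2 G hG hN
  rcases subsingleton_or_nontrivial P with hs | hs
  · intro w t _
    rw [Subsingleton.elim (t ^ p) 1]
    exact Subgroup.one_mem _
  have hp2 := hp.out.two_le
  obtain ⟨z, hz1, hzc, hzp⟩ : ∃ z : P, z ≠ 1 ∧ z ∈ Subgroup.center P ∧ z ^ p = 1 := by
    have := hP.center_nontrivial
    have hc := (hP.to_subgroup (Subgroup.center P)).card_eq_or_dvd
    rcases hc with hc | hc
    · exact absurd hc (Finite.one_lt_card).ne'
    · obtain ⟨z, hz⟩ := exists_prime_orderOf_dvd_card' p hc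
      refine ⟨z, ?_, z.2, ?_⟩
      · intro h
        have : z = 1 := Subtype.ext h
        rw [this, orderOf_one] at hz
        omega
      · have := pow_orderOf_eq_one z
        rw [hz] at this
        exact congrArg Subtype.val this
  let K : Subgroup P := Subgroup.zpowers z
  have hKc : K ≤ Subgroup.center P := (Subgroup.zpowers_le).2 hzc
  have hKn : K.Normal := ⟨fun x hx g => by
    have := Subgroup.mem_center_iff.1 (hKc hx) g
    rw [this, mul_inv_cancel_right]; exact hx⟩
  have hKp : ∀ k ∈ K, k ^ p = 1 := by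
    rintro _ ⟨m, rfl⟩
    simp only
    rw [← zpow_natCast, ← zpow_mul, mul_comm, zpow_mul, zpow_natCast, hzp, one_zpow]
  have hcard : Nat.card (P ⧸ K) < n := by
    rw [← hn, Subgroup.card_eq_card_quotient_mul_card_subgroup K]
    have : Nontrivial K := (Subgroup.nontrivial_iff_exists_ne_one K).2 ⟨z, Subgroup.mem_zpowers z, hz1⟩
    have h1 : 1 < Nat.card K := Finite.one_lt_card
    have h2 : 0 < Nat.card (P ⧸ K) := Nat.card_pos
    nlinarith
  have hsurj := QuotientGroup.mk'_surjective K
  have IH := ih _ hcard (P ⧸ K) rfl (hP.to_quotient K) (T.map (QuotientGroup.mk' K))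
    (QuotientGroup.mk' K a) (QuotientGroup.mk' K b) (hab.map _) (by rw [← map_pow, ha, map_one])
    (by rw [← map_pow, hb, map_one])
    (by
      intro g
      obtain ⟨g, rfl⟩ := hsurj g
      rcases hT1 g with h | h
      · exact Or.inl ⟨g, h, rfl⟩
      · exact Or.inr (by rw [← map_pow, h, map_one]))
    (by
      rintro _ ⟨t, ht, rfl⟩ i j hij
      rw [← map_pow, ← map_pow, ← map_mul, ← map_mul, ← map_pow, hT2 t ht i j hij, map_one])
    _ (hG.map _ hsurj) (hN.imp fun N h => by simp only [h, Subgroup.map_bot])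
  have IH' : ∀ w, ∀ t ∈ G w, t ^ p ∈ G (p * w + 2 * (p - 1)) ⊔ K := by
    intro w t ht
    obtain ⟨g, hg, h⟩ := IH w _ ⟨t, ht, rfl⟩
    rw [← map_pow, QuotientGroup.mk'_apply, QuotientGroup.mk'_apply, QuotientGroup.eq] at h
    have := Subgroup.mul_mem_sup hg h
    rwa [mul_inv_cancel_left] at this
  obtain ⟨N, hN⟩ := hN
  have step : ∀ w, (∀ v, w < v → ∀ t ∈ G v, t ^ p ∈ G (p * v + 2 * (p - 1))) →
      ∀ t ∈ G w, t ^ p ∈ G (p * w + 2 * (p - 1)) := by
    intro w hw t ht
    rcases hT1 t with htT | ht1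
    swap
    · rw [ht1]; exact Subgroup.one_mem _
    let K' : ℕ → Subgroup P := fun i => if i ≤ p * w then K else ⊥
    have hK'K : ∀ i, K' i ≤ K := by
      intro i
      simp only [K']
      split_ifs
      · exact le_rfl
      · exact bot_le
    have hK'n : ∀ i, (K' i).Normal := by
      intro i
      simp only [K']
      split_ifs <;> infer_instance
    let G' : ℕ → Subgroup P := fun i => G i ⊔ K' i
    have hdec : ∀ i, ∀ x ∈ G' i, ∃ g ∈ G i, ∃ k ∈ K' i, g * k = x := by
      intro i x hx
      have := hK'n i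
      exact Subgroup.mem_sup_of_normal_right.1 hx
    have hG' : NS G' := by
      refine ⟨fun {i j} h => sup_le_sup (hG.anti h) ?_, ?_, ?_⟩
      · simp only [K']
        split_ifs with h1 h2 h2
        · exact le_rfl
        · omega
        · exact bot_le
        · exact le_rfl
      · simp only [G', hG.one, top_sup_eq]
      · intro i j x y hx hy
        obtain ⟨g, hg, k, hk, rfl⟩ := hdec i x hx
        obtain ⟨g', hg', k', hk', rfl⟩ := hdec j y hy
        have c1 := Subgroup.mem_center_iff.1 (hKc (hK'K _ hk))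
        have c2 := Subgroup.mem_center_iff.1 (hKc (hK'K _ hk'))
        have : g * k * (g' * k') * (g * k)⁻¹ * (g' * k')⁻¹ = g * g' * g⁻¹ * g'⁻¹ := by
          have e1 : g * k * (g' * k') * (g * k)⁻¹ = g * (g' * k') * g⁻¹ := by
            rw [mul_assoc g k, ← c1]; group
          rw [e1, mul_inv_rev, ← mul_assoc g g' k', mul_assoc (g * g') k' g⁻¹, ← c2]
          group
        rw [this]
        exact Subgroup.mem_sup_left (hG.comm hg hg')
    have hpow : ∀ i, ∀ g ∈ G' i, g ^ p ∈ G' (i * p) := by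
      intro i x hx
      obtain ⟨g, hg, k, hk, rfl⟩ := hdec i x hx
      have c1 : Commute g k := Subgroup.mem_center_iff.1 (hKc (hK'K _ hk)) g
      rw [c1.mul_pow, hKp k (hK'K _ hk), mul_one]
      by_cases hi : i ≤ w
      · have h1 : K' (i * p) = K := if_pos (by nlinarith)
        simp only [G', h1]
        exact sup_le_sup_right (hG.anti (by rw [mul_comm]; omega)) _ (IH' i g hg)
      · exact Subgroup.mem_sup_left (hG.anti (by rw [mul_comm]; omega) (hw i (by omega) g hg))
    have h1 := jennings hG' hpow (power_mem hG' (Subgroup.mem_sup_left ht) hab ha hb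
      (fun s i j hij => hT2 _ (T.pow_mem htT s) i j hij))
    have h2 : K' (p * w + 2 * (p - 1)) = ⊥ := if_neg (by omega)
    simpa only [G', h2, sup_bot_eq] using h1
  have all : ∀ d w, N ≤ w + d → ∀ t ∈ G w, t ^ p ∈ G (p * w + 2 * (p - 1)) := by
    intro d
    induction d with
    | zero =>
      intro w hw t ht
      have : t ∈ G N := hG.anti hw ht
      rw [hN, Subgroup.mem_bot] at this
      rw [this, one_pow]; exact Subgroup.one_mem _
    | succ d ihd => exact fun w hw => step w fun v hv => ihd v (by omega)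
  exact fun w => all N w (by omega)

section lcs

variable {P : Type*} [Group P]

theorem three_subgroups {A B C N : Subgroup P} [N.Normal] (h1 : ⁅⁅B, C⁆, A⁆ ≤ N)
    (h2 : ⁅⁅C, A⁆, B⁆ ≤ N) : ⁅⁅A, B⁆, C⁆ ≤ N := by
  have key : ∀ H : Subgroup P, H ≤ N ↔ H.map (QuotientGroup.mk' N) = ⊥ := by
    intro H
    rw [Subgroup.map_eq_bot_iff, QuotientGroup.ker_mk']
  rw [key] at h1 h2 ⊢
  simp only [Subgroup.map_commutator] at h1 h2 ⊢
  exact Subgroup.commutator_commutator_eq_bot_of_rotate h1 h2

instance lcs_normal (S : Subgroup P) [S.Normal] (n : ℕ) : (S.lowerCentralSeries n).Normal := by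
  induction n with
  | zero => simpa
  | succ n ih => rw [Subgroup.lowerCentralSeries_succ]; infer_instance

theorem lcs_comm (S : Subgroup P) [S.Normal] (j : ℕ) : ∀ i,
    ⁅S.lowerCentralSeries i, S.lowerCentralSeries j⁆ ≤ S.lowerCentralSeries (i + j + 1) := by
  induction j with
  | zero => exact fun i => le_rfl
  | succ j ih =>
    intro i
    rw [Subgroup.lowerCentralSeries_succ S j, Subgroup.commutator_comm]
    refine three_subgroups ?_ ?_
    · rw [Subgroup.commutator_comm S, ← Subgroup.lowerCentralSeries_succ]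
      have := ih (i + 1)
      rwa [show i + 1 + j + 1 = i + (j + 1) + 1 by omega] at this
    · exact Subgroup.commutator_mono (ih i) le_rfl

/-- The lower central series of a normal subgroup, indexed from one, with the whole group in
position zero. -/
def gam (S : Subgroup P) : ℕ → Subgroup P
  | 0 => ⊤
  | n + 1 => S.lowerCentralSeries n

instance gam_normal (S : Subgroup P) [S.Normal] (n : ℕ) : (gam S n).Normal := by
  cases n <;> simp only [gam] <;> infer_instance

theorem gam_anti (S : Subgroup P) {i j : ℕ} (h : i ≤ j) : gam S j ≤ gam S i := by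
  rcases i with _ | i
  · exact le_top
  · obtain ⟨j, rfl⟩ : ∃ k, j = k + 1 := ⟨j - 1, by omega⟩
    exact S.lowerCentralSeries_antitone (by omega)

theorem gam_comm (S : Subgroup P) [S.Normal] (i j : ℕ) : ⁅gam S i, gam S j⁆ ≤ gam S (i + j) := by
  rcases i with _ | i
  · rw [zero_add]; exact Subgroup.commutator_le_right _ _
  rcases j with _ | j
  · exact Subgroup.commutator_le_left _ _
  · have := lcs_comm S j i
    rwa [show i + 1 + (j + 1) = (i + j + 1) + 1 by omega]

theorem NS_gam : NS (gam (⊤ : Subgroup P)) where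
  anti := gam_anti _
  one := rfl
  comm := fun hx hy => gam_comm _ _ _ (Subgroup.commutator_mem_commutator hx hy)

theorem comm_iSup_left {ι : Sort*} {A : ι → Subgroup P} {B N : Subgroup P} [hN : N.Normal]
    (h : ∀ i, ⁅A i, B⁆ ≤ N) : ⁅⨆ i, A i, B⁆ ≤ N := by
  rw [Subgroup.commutator_le]
  intro x hx y hy
  induction hx using Subgroup.iSup_induction' with
  | hp i x hx => exact h i (Subgroup.commutator_mem_commutator hx hy)
  | h1 => simp
  | hmul x x' _ _ i1 i2 =>
    rw [commutatorElement_mul_left_eq_conj_mul]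
    exact N.mul_mem (hN.conj_mem _ i2 _) i1

/-- The mixed filtration giving weight `c` to the lower central series of `S`. -/
def mix (S : Subgroup P) (c n : ℕ) : Subgroup P := ⨆ m : ℕ, gam S m ⊓ gam ⊤ (n - m * c)

instance mix_normal (S : Subgroup P) [S.Normal] (c n : ℕ) : (mix S c n).Normal := by
  unfold mix
  infer_instance

theorem NS_mix (S : Subgroup P) [S.Normal] (c : ℕ) : NS (mix S c) where
  anti := fun h => iSup_mono fun m => inf_le_inf_left _ (gam_anti _ (by omega))
  one := by
    refine top_le_iff.1 (le_iSup_of_le 0 ?_)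
    simp [gam]
  comm := by
    intro i j x y hx hy
    have : ⁅mix S c i, mix S c j⁆ ≤ mix S c (i + j) := by
      refine comm_iSup_left fun m => ?_
      rw [Subgroup.commutator_comm]
      refine comm_iSup_left fun m' => ?_
      refine le_iSup_of_le (m' + m) (le_inf ?_ ?_)
      · exact (Subgroup.commutator_mono inf_le_left inf_le_left).trans (gam_comm _ _ _)
      · exact ((Subgroup.commutator_mono inf_le_right inf_le_right).trans (gam_comm _ _ _)).trans
          (gam_anti _ (by rw [add_mul]; omega))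
    exact this (Subgroup.commutator_mem_commutator hx hy)

theorem mix_le (S : Subgroup P) {c : ℕ} (hc : gam (⊤ : Subgroup P) c = ⊥) {n m : ℕ}
    (h : m * c ≤ n) : mix S c n ≤ gam S m := by
  refine iSup_le fun k => ?_
  by_cases hk : m ≤ k
  · exact inf_le_left.trans (gam_anti _ hk)
  · refine inf_le_right.trans ((gam_anti _ ?_).trans (hc.le.trans bot_le))
    have : (k + 1) * c ≤ m * c := Nat.mul_le_mul_right c (by omega)
    rw [Nat.succ_mul] at this
    omega

end lcs

theorem pow_mem_gam {P : Type u} [Group P] [Finite P] (hP : IsPGroup p P) (T : Subgroup P)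
    [T.Normal] {a b : P} (hab : Commute a b) (ha : a ^ p = 1) (hb : b ^ p = 1)
    (hT1 : ∀ g, g ∈ T ∨ g ^ p = 1)
    (hT2 : ∀ t ∈ T, ∀ i j : ℕ, ¬ (p ∣ i ∧ p ∣ j) → (t * a ^ i * b ^ j) ^ p = 1)
    {t : P} (ht : t ∈ T) :
    t ^ p ∈ T.lowerCentralSeries (p - 1) ∧
      t ^ p ∈ (⊤ : Subgroup P).lowerCentralSeries (3 * p - 3) := by
  have hp2 := hp.out.two_le
  have := hP.isNilpotent
  obtain ⟨c, hc⟩ := (Subgroup.nilpotent_iff_lowerCentralSeries (G := P)).1 inferInstance
  have hc' : gam (⊤ : Subgroup P) (c + 1) = ⊥ := hc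
  constructor
  · have h1 := series_aux _ P rfl hP T a b hab ha hb hT1 hT2 _ (NS_mix T (c + 1))
      ⟨(c + 1) * (c + 1), le_bot_iff.1 ((mix_le T hc' le_rfl).trans
        ((Subgroup.lowerCentralSeries_mono c le_top).trans hc.le))⟩ (c + 1) t
      (Subgroup.mem_iSup_of_mem 1 (Subgroup.mem_inf.2 ⟨by simpa [gam] using ht, by simp [gam]⟩))
    have h2 := mix_le T hc' (m := p) (n := p * (c + 1) + 2 * (p - 1)) (by omega) h1
    rwa [show p = (p - 1) + 1 by omega] at h2 ⊢
  · have h1 := series_aux _ P rfl hP T a b hab ha hb hT1 hT2 _ NS_gam ⟨c + 1, hc'⟩ 1 t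
      (Subgroup.mem_top t)
    rwa [show p * 1 + 2 * (p - 1) = (3 * p - 3) + 1 by omega] at h1

end Pool.Agent.Lib.MP_6d9b00_al
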