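import Mathlib
import Pool.Agent.Lib.MP_6d9b00_al.Series
import Pool.Agent.Lib.MP_6d9b00_al.NQ

/-! The associated graded ring of the filtered group algebra, realised by endomorphisms. -/

namespace Pool.Agent.Lib.MP_6d9b00_al

set_option linter.unusedSectionVars false

open NQ

variable {p : ℕ} {P : Type*} [Group P] {G : ℕ → Subgroup P}

/-- Sequences compatible with the filtration. -/
def M0 (p : ℕ) (G : ℕ → Subgroup P) : Submodule (ZMod p) (ℕ → GA p P) where
  carrier := {m | ∀ n, m n ∈ F p G ⊤ n}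
  add_mem' := fun ha hb n => add_mem (ha n) (hb n)
  zero_mem' := fun _ => zero_mem _
  smul_mem' := fun c _ h n => Submodule.smul_mem _ c (h n)

/-- Sequences one step deeper in the filtration. -/
def M1 (p : ℕ) (G : ℕ → Subgroup P) : Submodule (ZMod p) (M0 p G) where
  carrier := {m | ∀ n, m.1 n ∈ F p G ⊤ (n + 1)}
  add_mem' := fun ha hb n => add_mem (ha n) (hb n)
  zero_mem' := fun _ => zero_mem _
  smul_mem' := fun c _ h n => Submodule.smul_mem _ c (h n)

/-- The ring containing the associated graded ring. -/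
abbrev RR (p : ℕ) (G : ℕ → Subgroup P) := Module.End (ZMod p) (M0 p G ⧸ M1 p G)

/-- Multiplication by a homogeneous element. -/
noncomputable def sh (hG : NS G) (k : ℕ) (y : GA p P) (hy : y ∈ F p G ⊤ k) :
    M0 p G →ₗ[ZMod p] M0 p G where
  toFun m := ⟨fun n => if k ≤ n then y * m.1 (n - k) else 0, fun n => by
    simp only
    split_ifs with h
    · exact F_mono (by omega) (F_mul hG hy (m.2 (n - k)))
    · exact zero_mem _⟩
  map_add' m m' := by
    ext1; funext n
    simp only [Submodule.coe_add, Pi.add_apply]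
    split_ifs <;> simp [mul_add]
  map_smul' c m := by
    ext1; funext n
    simp only [Submodule.coe_smul, Pi.smul_apply, RingHom.id_apply]
    split_ifs <;> simp

theorem sh_apply (hG : NS G) (k : ℕ) (y : GA p P) (hy : y ∈ F p G ⊤ k) (m : M0 p G) (n : ℕ) :
    (sh hG k y hy m).1 n = if k ≤ n then y * m.1 (n - k) else 0 := rfl

theorem sh_le (hG : NS G) (k : ℕ) (y : GA p P) (hy : y ∈ F p G ⊤ k) :
    M1 p G ≤ (M1 p G).comap (sh hG k y hy) := by
  intro m hm n
  rw [sh_apply]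
  split_ifs with h
  · exact F_mono (by omega) (F_mul hG hy (hm (n - k)))
  · exact zero_mem _

/-- `Hom k y Y` says that `y` has filtration `k` and `Y` is its class in degree `k`. -/
def Hom (hG : NS G) (k : ℕ) (y : GA p P) (Y : RR p G) : Prop :=
  ∃ hy : y ∈ F p G ⊤ k, Y = Submodule.mapQ _ _ (sh hG k y hy) (sh_le hG k y hy)

variable {hG : NS G}

theorem Hom.mem {k : ℕ} {y : GA p P} {Y : RR p G} (h : Hom hG k y Y) : y ∈ F p G ⊤ k := h.1

theorem Hom.unique {k : ℕ} {y : GA p P} {Y Y' : RR p G} (h : Hom hG k y Y) (h' : Hom hG k y Y') :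
    Y = Y' := by
  obtain ⟨_, rfl⟩ := h
  obtain ⟨_, rfl⟩ := h'
  rfl

theorem Hom.cast {k l : ℕ} {y : GA p P} {Y : RR p G} (h : Hom hG k y Y) (hkl : k = l) :
    Hom hG l y Y := hkl ▸ h

theorem Hom.intro {k : ℕ} {y : GA p P} {Y : RR p G} (hy : y ∈ F p G ⊤ k)
    (h : ∀ m, Y (Submodule.Quotient.mk m) = Submodule.Quotient.mk (sh hG k y hy m)) :
    Hom hG k y Y := by
  refine ⟨hy, ?_⟩
  ext m
  simp [h]

theorem Hom.apply {k : ℕ} {y : GA p P} {Y : RR p G} (h : Hom hG k y Y) (m : M0 p G) :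
    Y (Submodule.Quotient.mk m) = Submodule.Quotient.mk (sh hG k y h.mem m) := by
  obtain ⟨_, rfl⟩ := h
  rfl

theorem Hom.add {k : ℕ} {y y' : GA p P} {Y Y' : RR p G} (h : Hom hG k y Y) (h' : Hom hG k y' Y') :
    Hom hG k (y + y') (Y + Y') := by
  refine Hom.intro (add_mem h.mem h'.mem) fun m => ?_
  rw [LinearMap.add_apply, h.apply, h'.apply, ← Submodule.Quotient.mk_add]
  congr 1
  ext1; funext n
  simp only [Submodule.coe_add, Pi.add_apply, sh_apply]
  split_ifs <;> simp [add_mul]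

theorem Hom.sub {k : ℕ} {y y' : GA p P} {Y Y' : RR p G} (h : Hom hG k y Y) (h' : Hom hG k y' Y') :
    Hom hG k (y - y') (Y - Y') := by
  refine Hom.intro (sub_mem h.mem h'.mem) fun m => ?_
  rw [LinearMap.sub_apply, h.apply, h'.apply, ← Submodule.Quotient.mk_sub]
  congr 1
  ext1; funext n
  simp only [Submodule.coe_sub, Pi.sub_apply, sh_apply]
  split_ifs <;> simp [sub_mul]

theorem Hom.mul {k l : ℕ} {y y' : GA p P} {Y Y' : RR p G} (h : Hom hG k y Y)
    (h' : Hom hG l y' Y') : Hom hG (k + l) (y * y') (Y * Y') := by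
  refine Hom.intro (F_mul hG h.mem h'.mem) fun m => ?_
  rw [Module.End.mul_apply, h'.apply, h.apply]
  congr 1
  ext1; funext n
  simp only [sh_apply]
  by_cases h1 : k + l ≤ n
  · rw [if_pos (by omega), if_pos (by omega), if_pos h1, mul_assoc, Nat.sub_sub]
  · rw [if_neg h1]
    split_ifs with h2 h3
    · omega
    · exact mul_zero _
    · rfl

theorem Hom.zero {k : ℕ} {y : GA p P} (hy : y ∈ F p G ⊤ (k + 1)) : Hom hG k y 0 := by
  refine Hom.intro (F_mono (by omega) hy) fun m => ?_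
  rw [LinearMap.zero_apply, eq_comm, Submodule.Quotient.mk_eq_zero]
  intro n
  rw [sh_apply]
  split_ifs with h
  · exact F_mono (by omega) (F_mul hG hy (m.2 (n - k)))
  · exact zero_mem _

theorem Hom.of_zero {k : ℕ} {y : GA p P} (h : Hom hG k y 0) : y ∈ F p G ⊤ (k + 1) := by
  let m : M0 p G := ⟨fun n => if n = 0 then 1 else 0, fun n => by
    simp only
    split_ifs with h
    · subst h; exact F_top_zero _
    · exact zero_mem _⟩
  have := h.apply m
  rw [LinearMap.zero_apply, eq_comm, Submodule.Quotient.mk_eq_zero] at this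
  have h1 := this k
  rw [sh_apply, if_pos le_rfl] at h1
  simpa [m] using h1

theorem Hom.congr {k : ℕ} {y y' : GA p P} {Y : RR p G} (h : Hom hG k y Y)
    (h' : y' - y ∈ F p G ⊤ (k + 1)) : Hom hG k y' Y := by
  have := h.add (Hom.zero (hG := hG) h')
  rwa [add_zero, add_sub_cancel] at this

theorem Hom.br {k l : ℕ} {y y' : GA p P} {Y Y' : RR p G} (h : Hom hG k y Y)
    (h' : Hom hG l y' Y') : Hom hG (k + l) (br y y') (br Y Y') :=
  (h.mul h').sub ((h'.mul h).cast (add_comm _ _))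

theorem Hom.E2 {i j k : ℕ} {x a b : GA p P} {X A B : RR p G} (hx : Hom hG i x X)
    (ha : Hom hG j a A) (hb : Hom hG k b B) : Hom hG (i + j + k) (E2 x a b) (E2 X A B) :=
  ((hx.br ha).br hb).add (((hx.br hb).br ha).cast (by omega))

theorem Hom.E3 {i j k l : ℕ} {x a b c : GA p P} {X A B C : RR p G} (hx : Hom hG i x X)
    (ha : Hom hG j a A) (hb : Hom hG k b B) (hc : Hom hG l c C) :
    Hom hG (i + j + k + l) (E3 x a b c) (E3 X A B C) :=
  ((hx.br ha).E2 hb hc).add ((((hx.br hb).E2 ha hc).cast (by omega)).add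
    (((hx.br hc).E2 ha hb).cast (by omega)))

theorem Hom.E4 {i j k l m : ℕ} {x a b c d : GA p P} {X A B C D : RR p G} (hx : Hom hG i x X)
    (ha : Hom hG j a A) (hb : Hom hG k b B) (hc : Hom hG l c C) (hd : Hom hG m d D) :
    Hom hG (i + j + k + l + m) (E4 x a b c d) (E4 X A B C D) :=
  ((hx.br ha).E3 hb hc hd).add ((((hx.br hb).E3 ha hc hd).cast (by omega)).add
    ((((hx.br hc).E3 ha hb hd).cast (by omega)).add (((hx.br hd).E3 ha hb hc).cast (by omega))))

/-- The class of a group element. -/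
def Lg (p : ℕ) (hG : NS G) (k : ℕ) (x : P) (Y : RR p G) : Prop := x ∈ G k ∧ Hom hG k (e p x - 1) Y

theorem Lg.exists {k : ℕ} {x : P} (hx : x ∈ G k) : ∃ Y, Lg p hG k x Y :=
  ⟨_, hx, F_sub_one (Subgroup.mem_top x) hx, rfl⟩

theorem Lg.one (k : ℕ) : Lg p hG k 1 0 :=
  ⟨Subgroup.one_mem _, Hom.zero (by rw [e_one, sub_self]; exact zero_mem _)⟩

theorem Lg.mul {k : ℕ} {x y : P} {X Y : RR p G} (hx : Lg p hG k x X) (hy : Lg p hG k y Y) :
    Lg p hG k (x * y) (X + Y) := by
  refine ⟨Subgroup.mul_mem _ hx.1 hy.1, (hx.2.add hy.2).congr ?_⟩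
  have : e p (x * y) - 1 - (e p x - 1 + (e p y - 1)) = (e p x - 1) * (e p y - 1) := by
    rw [e_mul]; noncomm_ring
  rw [this]
  exact F_sub (Subgroup.mem_top _) (hG.mem_one x) hy.2.mem

theorem Lg.inv {k : ℕ} {x : P} {X : RR p G} (hx : Lg p hG k x X) : Lg p hG k x⁻¹ (-X) := by
  obtain ⟨Y, hY⟩ := Lg.exists (p := p) (hG := hG) (Subgroup.inv_mem _ hx.1)
  have h1 := hx.mul hY
  rw [mul_inv_cancel] at h1
  have h2 := h1.2.unique (Lg.one k).2
  rwa [eq_neg_of_add_eq_zero_right h2] at hY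

theorem Lg.comm {k l : ℕ} {x y : P} {X Y : RR p G} (hx : Lg p hG k x X) (hy : Lg p hG l y Y) :
    Lg p hG (k + l) (x * y * x⁻¹ * y⁻¹) (br X Y) := by
  have hb := hx.2.br hy.2
  refine ⟨hG.comm hx.1 hy.1, hb.congr ?_⟩
  have h1 : e p (x * y * x⁻¹ * y⁻¹) = e p x * e p y * e p (x⁻¹ * y⁻¹) := by
    rw [← e_mul, ← e_mul, mul_assoc (x * y)]
  have h2 : e p y * e p x * e p (x⁻¹ * y⁻¹) = 1 := by
    rw [← e_mul, ← e_mul, ← e_one]; congr 1; group
  have : e p (x * y * x⁻¹ * y⁻¹) - 1 - br (e p x - 1) (e p y - 1) =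
      br (e p x - 1) (e p y - 1) * (e p (x⁻¹ * y⁻¹) - 1) := by
    rw [h1]
    nth_rewrite 1 [← h2]
    simp only [br]
    noncomm_ring
  rw [this]
  exact F_mul hG hb.mem (F_sub_one (Subgroup.mem_top _) (hG.mem_one _))

end Pool.Agent.Lib.MP_6d9b00_al
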