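import Mathlib
import Pool.Agent.Lib.MP_6d9b00_al.Gr

/-! The multilinear Engel identity in characteristic five. -/

namespace Pool.Agent.Lib.MP_6d9b00_al

set_option linter.unusedSectionVars false

open NQ Finset

section abstr

variable {R : Type*} [Ring R] {C : ℕ → ℕ → AddSubgroup R}

/-- A multiplicative doubly indexed filtration. -/
structure BiF (C : ℕ → ℕ → AddSubgroup R) : Prop where
  one : (1 : R) ∈ C 0 0
  mul : ∀ {a b a' b' a'' b'' : ℕ} {x y : R}, x ∈ C a b → y ∈ C a' b' → a'' ≤ a + a' →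
    b'' ≤ b + b' → x * y ∈ C a'' b''

theorem BiF.mono (h : BiF C) {a b a' b' : ℕ} {x : R} (hx : x ∈ C a b) (h1 : a' ≤ a) (h2 : b' ≤ b) :
    x ∈ C a' b' := by
  simpa using h.mul hx h.one (a'' := a') (b'' := b') (by omega) (by omega)

theorem BiF.pow (h : BiF C) {x : R} {b : ℕ} (hx : x ∈ C 0 b) (n : ℕ) : x ^ n ∈ C 0 (n * b) := by
  induction n with
  | zero => simpa using h.one
  | succ n ih => rw [pow_succ]; exact h.mul ih hx le_rfl (by rw [Nat.succ_mul])

theorem BiF.binom (h : BiF C) {x y : R} {a : ℕ} (hx : x ∈ C 0 0) (hy : y ∈ C a 0) (n : ℕ) :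
    linPart x y n ∈ C a 0 ∧ (x + y) ^ n - x ^ n - linPart x y n ∈ C (2 * a) 0 := by
  induction n with
  | zero => simp [linPart]
  | succ n ih =>
    obtain ⟨i1, i2⟩ := ih
    refine ⟨add_mem (h.mul hx i1 (by omega) (by omega))
      (h.mul hy (h.pow hx n) (by omega) (by omega)), ?_⟩
    set T := (x + y) ^ n - x ^ n - linPart x y n with hT
    have h1 : (x + y) ^ n = x ^ n + linPart x y n + T := by rw [hT]; abel
    have : (x + y) ^ (n + 1) - x ^ (n + 1) - linPart x y (n + 1) =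
        x * T + y * linPart x y n + y * T := by
      rw [pow_succ', pow_succ', linPart, h1]
      noncomm_ring
    rw [this]
    exact add_mem (add_mem (h.mul hx i2 (by omega) (by omega)) (h.mul hy i1 (by omega) (by omega)))
      (h.mul hy i2 (by omega) (by omega))

theorem BiF.pow_sub (h : BiF C) {x x' : R} (hx : x ∈ C 0 1) (hx' : x' ∈ C 0 1)
    (hd : x - x' ∈ C 0 2) (n : ℕ) : x ^ n - x' ^ n ∈ C 0 (n + 1) := by
  induction n with
  | zero => simp
  | succ n ih =>
    have : x ^ (n + 1) - x' ^ (n + 1) = x * (x ^ n - x' ^ n) + (x - x') * x' ^ n := by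
      rw [pow_succ', pow_succ']; noncomm_ring
    rw [this]
    exact add_mem (h.mul hx ih (by omega) (by omega)) (h.mul hd (h.pow hx' n) (by omega) (by omega))

theorem BiF.lin_sub (h : BiF C) {x x' y y' : R} {a : ℕ} (hx : x ∈ C 0 1) (hx' : x' ∈ C 0 1)
    (hd : x - x' ∈ C 0 2) (hy' : y' ∈ C a 0) (hyd : y - y' ∈ C a 1) (n : ℕ) :
    linPart x' y' n ∈ C a (n - 1) ∧ linPart x y n - linPart x' y' n ∈ C a n := by
  induction n with
  | zero => simp [linPart]
  | succ n ih =>
    obtain ⟨i1, i2⟩ := ih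
    rcases n with _ | n
    · simpa [linPart] using ⟨hy', hyd⟩
    refine ⟨add_mem (h.mul hx' i1 (by omega) (by omega))
      (h.mul hy' (h.pow hx' _) (by omega) (by omega)), ?_⟩
    have : linPart x y (n + 1 + 1) - linPart x' y' (n + 1 + 1) =
        x * (linPart x y (n + 1) - linPart x' y' (n + 1)) + (x - x') * linPart x' y' (n + 1) +
        (y - y') * x ^ (n + 1) + y' * (x ^ (n + 1) - x' ^ (n + 1)) := by
      rw [linPart, linPart.eq_2 x' y' (n + 1)]; noncomm_ring
    rw [this]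
    exact add_mem (add_mem (add_mem (h.mul hx i2 (by omega) (by omega))
      (h.mul hd i1 (by omega) (by omega))) (h.mul hyd (h.pow hx _) (by omega) (by omega)))
      (h.mul hy' (h.pow_sub hx hx' hd _) (by omega) (by omega))

end abstr

variable {P : Type*} [Group P] {G : ℕ → Subgroup P}

/-- Functions of a subset supported above a fixed subset. -/
noncomputable def ind (U : Finset (Fin 4)) (y : GA 5 P) : Finset (Fin 4) → GA 5 P :=
  fun S => if U ⊆ S then y else 0

theorem ind_mul (U U' : Finset (Fin 4)) (y y' : GA 5 P) :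
    ind U y * ind U' y' = ind (U ∪ U') (y * y') := by
  funext S
  simp only [ind, Pi.mul_apply, union_subset_iff]
  by_cases h : U ⊆ S <;> by_cases h' : U' ⊆ S <;> simp [h, h']

theorem ind_br (U U' : Finset (Fin 4)) (y y' : GA 5 P) :
    br (ind U y) (ind U' y') = ind (U ∪ U') (br y y') := by
  rw [br, ind_mul, ind_mul, union_comm U' U]
  funext S
  simp only [ind, Pi.sub_apply, br]
  split_ifs <;> simp

/-- The filtration on functions of a subset. -/
noncomputable def Cl (G : ℕ → Subgroup P) (w : Fin 4 → ℕ) (n k : ℕ) :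
    AddSubgroup (Finset (Fin 4) → GA 5 P) :=
  AddSubgroup.closure {f | ∃ U y, y ∈ F 5 G ⊤ (n + ∑ i ∈ U, w i + (k - U.card)) ∧ f = ind U y}

theorem Cl_gen {w : Fin 4 → ℕ} {n k : ℕ} {U : Finset (Fin 4)} {y : GA 5 P}
    (hy : y ∈ F 5 G ⊤ (n + ∑ i ∈ U, w i + (k - U.card))) : ind U y ∈ Cl G w n k :=
  AddSubgroup.subset_closure ⟨U, y, hy, rfl⟩

theorem Cl_BiF (hG : NS G) {w : Fin 4 → ℕ} (hw : ∀ i, 1 ≤ w i) : BiF (Cl G w) where
  one := by
    have : (1 : Finset (Fin 4) → GA 5 P) = ind ∅ 1 := by funext S; simp [ind]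
    rw [this]
    exact Cl_gen (F_top_zero _)
  mul := by
    intro a b a' b' a'' b'' f g hf hg ha hb
    induction hf using AddSubgroup.closure_induction with
    | zero => rw [zero_mul]; exact zero_mem _
    | add y y' _ _ i1 i2 => rw [add_mul]; exact add_mem i1 i2
    | neg y _ i1 => rw [neg_mul]; exact neg_mem i1
    | mem f hf =>
      induction hg using AddSubgroup.closure_induction with
      | zero => rw [mul_zero]; exact zero_mem _
      | add y y' _ _ i1 i2 => rw [mul_add]; exact add_mem i1 i2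
      | neg y _ i1 => rw [mul_neg]; exact neg_mem i1
      | mem g hg =>
        obtain ⟨U, y, hy, rfl⟩ := hf
        obtain ⟨U', y', hy', rfl⟩ := hg
        rw [ind_mul]
        refine Cl_gen (F_mono ?_ (F_mul hG hy hy'))
        have h1 := sum_union_inter (s₁ := U) (s₂ := U') (f := w)
        have h2 := card_union_add_card_inter U U'
        have h3 : (U ∩ U').card ≤ ∑ i ∈ U ∩ U', w i := by
          rw [card_eq_sum_ones]; exact sum_le_sum fun i _ => hw i
        omega

/-- The fourfold difference operator. -/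
noncomputable def Dif : (Finset (Fin 4) → GA 5 P) →+ GA 5 P where
  toFun f := ∑ S : Finset (Fin 4), ((-1 : ℤ) ^ S.card) • f S
  map_zero' := by simp
  map_add' f g := by simp [sum_add_distrib]

theorem Dif_apply (f : Finset (Fin 4) → GA 5 P) :
    Dif f = ∑ S : Finset (Fin 4), ((-1 : ℤ) ^ S.card) • f S := rfl

theorem Dif_ind (U : Finset (Fin 4)) (y : GA 5 P) : Dif (ind U y) = if U = univ then y else 0 := by
  have h : ∀ U : Finset (Fin 4), ∑ S : Finset (Fin 4), (if U ⊆ S then (-1 : ℤ) ^ S.card else 0) =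
      if U = univ then 1 else 0 := by decide
  have : Dif (ind U y) = (∑ S : Finset (Fin 4), if U ⊆ S then (-1 : ℤ) ^ S.card else 0) • y := by
    rw [sum_smul, Dif_apply]
    refine sum_congr rfl fun S _ => ?_
    simp only [ind]
    split_ifs <;> simp
  rw [this, h]
  split_ifs <;> simp

theorem Dif_Cl {w : Fin 4 → ℕ} {n k : ℕ} {f : Finset (Fin 4) → GA 5 P} (hf : f ∈ Cl G w n k) :
    Dif f ∈ F 5 G ⊤ (n + ∑ i, w i + (k - 4)) := by
  induction hf using AddSubgroup.closure_induction with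
  | zero => rw [map_zero]; exact zero_mem _
  | add y y' _ _ i1 i2 => rw [map_add]; exact add_mem i1 i2
  | neg y _ i1 => rw [map_neg]; exact neg_mem i1
  | mem f hf =>
    obtain ⟨U, y, hy, rfl⟩ := hf
    rw [Dif_ind]
    split_ifs with h
    · subst h; simpa using hy
    · exact zero_mem _

theorem Dif_mem {n : ℕ} {f : Finset (Fin 4) → GA 5 P} (hf : ∀ S, f S ∈ F 5 G ⊤ n) :
    Dif f ∈ F 5 G ⊤ n := by
  rw [Dif_apply]
  exact Submodule.sum_mem _ fun S _ => zsmul_mem (hf S) _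

theorem br_sum_right {R ι : Type*} [Ring R] (s : Finset ι) (x : R) (f : ι → R) :
    br x (∑ i ∈ s, f i) = ∑ i ∈ s, br x (f i) := by
  simp [br, mul_sum, sum_mul, sum_sub_distrib]

theorem br_sum_left {R ι : Type*} [Ring R] (s : Finset ι) (x : R) (f : ι → R) :
    br (∑ i ∈ s, f i) x = ∑ i ∈ s, br (f i) x := by
  simp [br, mul_sum, sum_mul, sum_sub_distrib]

theorem linPart_five {R : Type*} [Ring R] (h5 : (5 : R) = 0) (x y : R) :
    linPart x y 5 = br (br (br (br y x) x) x) x := by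
  have : linPart x y 5 = br (br (br (br y x) x) x) x +
      5 * (x * y * x * x * x - x * x * y * x * x + x * x * x * y * x) := by
    simp only [linPart, br, pow_succ, pow_zero]
    noncomm_ring
  rw [this, h5, zero_mul, add_zero]

theorem Dif_lin (y : GA 5 P) (u : Fin 4 → GA 5 P) :
    Dif (linPart (∑ i, ind {i} (u i)) (ind ∅ y) 5) = E4 y (u 0) (u 1) (u 2) (u 3) := by
  have : Fact (Nat.Prime 5) := ⟨by norm_num⟩
  have h5 : (5 : Finset (Fin 4) → GA 5 P) = 0 := by
    funext S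
    exact (CharP.cast_eq_zero (GA 5 P) 5)
  rw [linPart_five h5]
  simp only [br_sum_right, br_sum_left, ind_br, map_sum, Dif_ind]
  simp +decide only [Fin.sum_univ_four, if_true, if_false, E4, E3, E2]
  abel

theorem engel (hG : NS G) {x0 : P} {x : Fin 4 → P} {w0 : ℕ} {w : Fin 4 → ℕ} (hw0 : 1 ≤ w0)
    (hw : ∀ i, 1 ≤ w i) (hx0 : x0 ∈ G w0) (hx : ∀ i, x i ∈ G (w i))
    (hpw : ∀ y : P, e 5 ((x0 * y) ^ 5) - e 5 (y ^ 5) ∈ F 5 G ⊤ (w0 + ∑ i, w i + 1)) :
    E4 (e 5 x0 - 1) (e 5 (x 0) - 1) (e 5 (x 1) - 1) (e 5 (x 2) - 1) (e 5 (x 3) - 1) ∈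
      F 5 G ⊤ (w0 + ∑ i, w i + 1) := by
  have : Fact (Nat.Prime 5) := ⟨by norm_num⟩
  have hB := Cl_BiF hG hw
  let v : Fin 4 → Finset (Fin 4) → GA 5 P := fun i => ind {i} (e 5 (x i) - 1)
  have hv : ∀ i, v i ∈ Cl G w 0 1 := fun i =>
    Cl_gen (by simpa using F_sub_one (Subgroup.mem_top _) (hx i))
  let z : Fin 4 → Finset (Fin 4) → P := fun i S => if {i} ⊆ S then x i else 1
  have hz : ∀ i S, e 5 (z i S) = 1 + v i S := by
    intro i S
    simp only [z, v, ind]
    split_ifs <;> simp [e_one]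
  let A : Finset (Fin 4) → GA 5 P := (1 + v 0) * (1 + v 1) * (1 + v 2) * (1 + v 3)
  have hA : ∀ S, A S = e 5 (z 0 S * z 1 S * z 2 S * z 3 S) := by
    intro S
    simp only [A, e_mul, hz, Pi.mul_apply, Pi.add_apply, Pi.one_apply]
  have hl : ∑ i, v i ∈ Cl G w 0 1 := sum_mem fun i _ => hv i
  have hstep : ∀ a l u : Finset (Fin 4) → GA 5 P, a - 1 - l ∈ Cl G w 0 2 → l ∈ Cl G w 0 1 →
      u ∈ Cl G w 0 1 → a * (1 + u) - 1 - (l + u) ∈ Cl G w 0 2 := by
    intro a l u h1 h2 h3
    have : a * (1 + u) - 1 - (l + u) = (a - 1 - l) + (a - 1 - l) * u + l * u := by noncomm_ring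
    rw [this]
    exact add_mem (add_mem h1 (hB.mul h1 h3 (by omega) (by omega))) (hB.mul h2 h3 (by omega) (by omega))
  have hd : A - 1 - ∑ i, v i ∈ Cl G w 0 2 := by
    rw [Fin.sum_univ_four]
    refine hstep _ _ _ (hstep _ _ _ (hstep _ _ _ (by simp) (hv 0) (hv 1)) (add_mem (hv 0) (hv 1))
      (hv 2)) (add_mem (add_mem (hv 0) (hv 1)) (hv 2)) (hv 3)
  have hX : A - 1 ∈ Cl G w 0 1 := by
    have := add_mem (hB.mono hd le_rfl (by omega : 1 ≤ 2)) hl
    rwa [sub_add_cancel] at this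
  let Y' : Finset (Fin 4) → GA 5 P := ind ∅ (e 5 x0 - 1)
  have hY' : Y' ∈ Cl G w w0 0 := Cl_gen (by simpa using F_sub_one (Subgroup.mem_top _) hx0)
  have hYd : Y' * A - Y' ∈ Cl G w w0 1 := by
    have := hB.mul hY' hX (a'' := w0) (b'' := 1) (by omega) (by omega)
    rwa [mul_sub, mul_one] at this
  have hY : Y' * A ∈ Cl G w w0 0 := by
    have := add_mem (hB.mono hYd le_rfl (Nat.zero_le 1)) hY'
    rwa [sub_add_cancel] at this
  have h1 := Dif_Cl (hB.binom (hB.mono hX le_rfl (Nat.zero_le 1)) hY 5).2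
  have h2 := Dif_Cl (hB.lin_sub hX hl hd hY' hYd 5).2
  have h3 : Dif ((A - 1 + Y' * A) ^ 5 - (A - 1) ^ 5) ∈ F 5 G ⊤ (w0 + ∑ i, w i + 1) := by
    refine Dif_mem fun S => ?_
    have e1 : (A - 1 + Y' * A) S = e 5 (x0 * (z 0 S * z 1 S * z 2 S * z 3 S)) - 1 := by
      rw [e_mul, ← hA]
      simp only [Pi.add_apply, Pi.sub_apply, Pi.mul_apply, Pi.one_apply, Y', ind, empty_subset,
        if_true]
      noncomm_ring
    rw [Pi.sub_apply, Pi.pow_apply, Pi.pow_apply, e1, Pi.sub_apply, hA, Pi.one_apply,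
      sub_pow_char_of_commute 5 (Commute.one_right _),
      sub_pow_char_of_commute 5 (Commute.one_right _), sub_sub_sub_cancel_right, ← e_pow, ← e_pow]
    exact hpw _
  have h4 := sub_mem (sub_mem h3 (F_mono (by omega) h1)) (F_mono (by omega) h2)
  rw [← map_sub, ← map_sub, sub_sub_cancel, sub_sub_cancel] at h4
  rwa [Dif_lin] at h4

end Pool.Agent.Lib.MP_6d9b00_al
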