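import Mathlib
import Pool.Agent.Lib.MP_6d9b00_al.Engel
import Pool.Agent.Lib.MP_6d9b00_al.NQCert

/-! The case `p = 5`. -/

namespace Pool.Agent.Lib.MP_6d9b00_al

open NQ

open scoped commutatorElement

universe u

section pair

variable {P : Type*} [Group P] {G : ℕ → Subgroup P}

theorem NS.conj (hG : NS G) {i : ℕ} {x : P} (hx : x ∈ G i) (g : P) : g * x * g⁻¹ ∈ G i := by
  have := (G i).mul_mem (by simpa using hG.comm (hG.mem_zero g) hx) hx
  simpa using this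

theorem NS.normal (hG : NS G) (i : ℕ) : (G i).Normal := ⟨fun _ hx g => hG.conj hx g⟩

/-- Pairs in the `n`-th term that agree modulo the next term. -/
def pairS (hG : NS G) (n : ℕ) : Subgroup (P × P) where
  carrier := {z | z.1 ∈ G n ∧ z.1⁻¹ * z.2 ∈ G (n + 1)}
  one_mem' := ⟨Subgroup.one_mem _, by simp⟩
  mul_mem' := by
    rintro ⟨x, y⟩ ⟨x', y'⟩ ⟨h1, h2⟩ ⟨h3, h4⟩
    refine ⟨Subgroup.mul_mem _ h1 h3, ?_⟩
    have := Subgroup.mul_mem _ (hG.conj h2 x'⁻¹) h4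
    convert this using 1
    simp only [Prod.fst_mul, Prod.snd_mul]
    group
  inv_mem' := by
    rintro ⟨x, y⟩ ⟨h1, h2⟩
    refine ⟨Subgroup.inv_mem _ h1, ?_⟩
    have := hG.conj (Subgroup.inv_mem _ h2) x
    convert this using 1
    simp only [Prod.fst_inv, Prod.snd_inv]
    group

theorem NS_pair (hG : NS G) : NS (fun n => (pairS hG n).subgroupOf (pairS hG 1)) where
  anti := fun h z hz => ⟨hG.anti h hz.1, hG.anti (by omega) hz.2⟩
  one := Subgroup.subgroupOf_self _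
  comm := by
    rintro i j ⟨⟨x, y⟩, _⟩ ⟨⟨x', y'⟩, _⟩ ⟨h1, h2⟩ ⟨h3, h4⟩
    refine ⟨hG.comm h1 h3, ?_⟩
    change (x * x' * x⁻¹ * x'⁻¹)⁻¹ * (y * y' * y⁻¹ * y'⁻¹) ∈ G (i + j + 1)
    change x⁻¹ * y ∈ G (i + 1) at h2
    change x'⁻¹ * y' ∈ G (j + 1) at h4
    change x ∈ G i at h1
    change x' ∈ G j at h3
    have := hG.normal (i + j + 1)
    have hy' : y' ∈ G j := by
      have := (G j).mul_mem h3 (hG.anti (Nat.le_succ j) h4)
      simpa using this
    obtain ⟨u, rfl⟩ : ∃ u, y = x * u := ⟨x⁻¹ * y, by group⟩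
    obtain ⟨u', rfl⟩ : ∃ u', y' = x' * u' := ⟨x'⁻¹ * y', by group⟩
    rw [inv_mul_cancel_left] at h2 h4
    have c1 := hG.comm h2 hy'
    have c2 := hG.comm h4 h1
    rw [show i + 1 + j = i + j + 1 by omega] at c1
    rw [show j + 1 + i = i + j + 1 by omega] at c2
    rw [← QuotientGroup.eq_one_iff] at c1 c2
    rw [← QuotientGroup.eq]
    simp only [QuotientGroup.mk_mul, QuotientGroup.mk_inv] at c1 c2 ⊢
    generalize (QuotientGroup.mk x : P ⧸ G (i + j + 1)) = X at *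
    generalize (QuotientGroup.mk x' : P ⧸ G (i + j + 1)) = X' at *
    generalize (QuotientGroup.mk u : P ⧸ G (i + j + 1)) = U at *
    generalize (QuotientGroup.mk u' : P ⧸ G (i + j + 1)) = U' at *
    have d1 : U * (X' * U') * U⁻¹ = X' * U' := mul_inv_eq_one.1 c1
    have d2 : U' * X⁻¹ * U'⁻¹ = X⁻¹ := by
      have := mul_inv_eq_one.1 c2
      calc U' * X⁻¹ * U'⁻¹ = (U' * X * U'⁻¹)⁻¹ := by group
        _ = X⁻¹ := by rw [this]
    calc X * X' * X⁻¹ * X'⁻¹ = X * X' * (U' * X⁻¹ * U'⁻¹) * X'⁻¹ := by rw [d2]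
      _ = X * (X' * U') * X⁻¹ * (X' * U')⁻¹ := by group
      _ = X * (U * (X' * U') * U⁻¹) * X⁻¹ * (X' * U')⁻¹ := by rw [d1]
      _ = _ := by group

end pair

theorem pow_congr {p : ℕ} [hp : Fact p.Prime] {P : Type u} [Group P] [Finite P]
    (hP : IsPGroup p P) (T : Subgroup P) {a b : P} (hab : Commute a b) (ha : a ^ p = 1)
    (hb : b ^ p = 1) (hT1 : ∀ g, g ∉ T → g ^ p = 1)
    (hT2 : ∀ t ∈ T, ∀ i j : ℕ, ¬ (p ∣ i ∧ p ∣ j) → (t * a ^ i * b ^ j) ^ p = 1)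
    {G : ℕ → Subgroup P} (hG : NS G) {N : ℕ} (hN : G N = ⊥) (h2 : G 2 ≤ T) {x y : P}
    (hxy : x⁻¹ * y ∈ G 2) : (x ^ p)⁻¹ * y ^ p ∈ G (p * 1 + 2 * (p - 1) + 1) := by
  have hd : ∀ g : P, (g, g) ∈ pairS hG 1 := fun g => ⟨hG.mem_one _, by simp⟩
  have hP2 : IsPGroup p (P × P) := by
    intro g
    obtain ⟨k, hk⟩ := hP g.1
    obtain ⟨l, hl⟩ := hP g.2
    refine ⟨k + l, Prod.ext ?_ ?_⟩
    · simp [pow_add, pow_mul, hk]
    · simp [pow_add, mul_comm (p ^ k), pow_mul, hl]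
  have := series_aux _ (pairS hG 1) rfl (hP2.to_subgroup _) ((T.prod T).subgroupOf _)
    ⟨(a, a), hd a⟩ ⟨(b, b), hd b⟩ (Subtype.ext (Prod.ext hab.eq hab.eq))
    (Subtype.ext (Prod.ext ha ha)) (Subtype.ext (Prod.ext hb hb))
    (by
      rintro ⟨⟨u, v⟩, h1, h3⟩
      have h4 : u⁻¹ * v ∈ T := h2 h3
      by_cases hu : u ∈ T
      · left
        exact ⟨hu, by simpa using T.mul_mem hu h4⟩
      · right
        refine Subtype.ext (Prod.ext (hT1 u hu) (hT1 v fun hv => hu ?_))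
        simpa using T.mul_mem hv (T.inv_mem h4))
    (by
      rintro ⟨⟨u, v⟩, h1⟩ ⟨hu, hv⟩ i j hij
      exact Subtype.ext (Prod.ext (hT2 u hu i j hij) (hT2 v hv i j hij)))
    _ (NS_pair hG) ⟨N, by
      rw [eq_bot_iff]
      rintro ⟨⟨u, v⟩, h1⟩ ⟨hu, hv⟩
      have h3 : u = 1 := by simpa [hN] using hu
      have h4 : u⁻¹ * v = 1 := by simpa [hN] using hG.anti (Nat.le_succ N) hv
      rw [h3, inv_one, one_mul] at h4
      exact Subtype.ext (Prod.ext h3 h4)⟩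
    1 ⟨(x, y), hG.mem_one _, hxy⟩ ⟨hG.mem_one _, hxy⟩
  exact this.2

theorem five_gen {P : Type u} [Group P] [Finite P] (hP : IsPGroup 5 P) (T : Subgroup P)
    {t a b : P} (hgen : Subgroup.closure {t, a, b} = ⊤) (hab : Commute a b) (ha : a ^ 5 = 1)
    (hb : b ^ 5 = 1) (hT0 : ∀ x y : P, x * y * x⁻¹ * y⁻¹ ∈ T) (hT1 : ∀ g, g ∉ T → g ^ 5 = 1)
    (hT2 : ∀ t ∈ T, ∀ i j : ℕ, ¬ (5 ∣ i ∧ 5 ∣ j) → (t * a ^ i * b ^ j) ^ 5 = 1) : t ^ 5 = 1 := by
  have : Fact (Nat.Prime 5) := ⟨by norm_num⟩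
  have := hP.isNilpotent
  obtain ⟨N, hN⟩ := (Subgroup.nilpotent_iff_lowerCentralSeries (G := P)).1 inferInstance
  let G : ℕ → Subgroup P := gam ⊤
  have hG : NS G := NS_gam
  have hN' : G (N + 1) = ⊥ := hN
  have S1 := series_aux _ P rfl hP T a b hab ha hb (fun g => (em (g ∈ T)).imp id (hT1 g)) hT2 G hG
    ⟨N + 1, hN'⟩
  have hpow : ∀ i, ∀ g ∈ G i, g ^ 5 ∈ G (i * 5) := fun i g hg => hG.anti (by omega) (S1 i g hg)
  have h2 : G 2 ≤ T := Subgroup.commutator_le.2 fun x _ y _ => hT0 x y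
  have S2 : ∀ x y : P, x⁻¹ * y ∈ G 2 → (x ^ 5)⁻¹ * y ^ 5 ∈ G 14 := fun x y hxy =>
    pow_congr hP T hab ha hb hT1 hT2 hG hN' h2 hxy
  obtain ⟨Yt, hYt⟩ := Lg.exists (p := 5) (hG := hG) (hG.mem_one t)
  obtain ⟨Ya, hYa⟩ := Lg.exists (p := 5) (hG := hG) (hG.mem_one a)
  obtain ⟨Yb, hYb⟩ := Lg.exists (p := 5) (hG := hG) (hG.mem_one b)
  let g : ℕ → RR 5 G := fun r => if r = 1 then Yt else if r = 2 then Ya else if r = 3 then Yb else 0
  have hg : ∀ r, ∃ x, Lg 5 hG 1 x (g r) := by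
    intro r
    simp only [g]
    split_ifs
    exacts [⟨_, hYt⟩, ⟨_, hYa⟩, ⟨_, hYb⟩, ⟨_, Lg.one 1⟩]
  have hmono : ∀ d k, mono d k = true → ∃ x, Lg 5 hG (d + 1) x (c g k) := by
    intro d
    induction d with
    | zero =>
      intro k hk
      rw [c_lt (Nat.blt_eq.mp hk)]
      exact hg k
    | succ d ih =>
      intro k hk
      change (Nat.ble 4 k && Nat.blt 0 (k % 4) && force (k / 4) (mono d)) = true at hk
      simp only [force_eq, Bool.and_eq_true, Nat.ble_eq, Nat.blt_eq] at hk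
      obtain ⟨x, hx⟩ := ih _ hk.2
      obtain ⟨y, hy⟩ := hg (k % 4)
      rw [c_w hk.1.1 hk.1.2, c_lt (Nat.mod_lt k (by omega))]
      exact ⟨_, hx.comm hy⟩
  have H : Hyp g := by
    refine ⟨rfl, ?_, ?_⟩
    · have h1 := hYa.comm hYb
      rw [hab.eq, mul_inv_cancel_right, mul_inv_cancel] at h1
      exact h1.2.unique (Lg.one _).2
    · intro k0 k1 k2 k3 k4 d0 d1 d2 d3 d4 m0 m1 m2 m3 m4 hs hor
      obtain ⟨x0, h0⟩ := hmono _ _ m0
      obtain ⟨x1, h1⟩ := hmono _ _ m1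
      obtain ⟨x2, h2⟩ := hmono _ _ m2
      obtain ⟨x3, h3⟩ := hmono _ _ m3
      obtain ⟨x4, h4⟩ := hmono _ _ m4
      have hE := engel hG (x0 := x0) (x := ![x1, x2, x3, x4]) (w0 := d0 + 1)
        (w := ![d1 + 1, d2 + 1, d3 + 1, d4 + 1]) (by omega)
        (by intro i; fin_cases i <;> simp) h0.1
        (by intro i; fin_cases i; exacts [h1.1, h2.1, h3.1, h4.1])
        (by
          intro y
          simp only [Fin.sum_univ_four, Matrix.cons_val_zero, Matrix.cons_val_one,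
            Matrix.cons_val]
          rcases hor with hor | hor
          · have := sub_mem (F_sub_one (p := 5) (Subgroup.mem_top _) (S1 1 (x0 * y) (hG.mem_one _)))
              (F_sub_one (p := 5) (Subgroup.mem_top _) (S1 1 y (hG.mem_one _)))
            rw [sub_sub_sub_cancel_right] at this
            exact F_mono (by omega) this
          · have h5 := S2 y (x0 * y) (by
              have := hG.conj (hG.anti (show 2 ≤ d0 + 1 by omega) h0.1) y⁻¹
              simpa [mul_assoc] using this)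
            have := F_left hG (Subgroup.mem_top (y ^ 5))
              (F_sub_one (p := 5) (Subgroup.mem_top _) h5)
            rw [mul_sub, ← e_mul, mul_inv_cancel_left, mul_one] at this
            exact F_mono (by omega) this)
      simp only [Fin.sum_univ_four, Matrix.cons_val_zero, Matrix.cons_val_one,
        Matrix.cons_val] at hE
      exact (h0.2.E4 h1.2 h2.2 h3.2 h4.2).unique (Hom.zero (F_mono (by omega) hE))
  have hV1 : {Y | ∃ x, Lg 5 hG 1 x Y} ⊆ Sp g [1, 2, 3] := by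
    rintro Y ⟨x, hx⟩
    have hx' : x ∈ Subgroup.closure {t, a, b} := by rw [hgen]; trivial
    induction hx' using Subgroup.closure_induction generalizing Y with
    | mem x hx1 =>
      simp only [Set.mem_insert_iff, Set.mem_singleton_iff] at hx1
      refine Submodule.subset_span ?_
      rcases hx1 with rfl | rfl | rfl
      · exact ⟨1, by simp, by rw [c_lt (by omega)]; exact hYt.2.unique hx.2⟩
      · exact ⟨2, by simp, by rw [c_lt (by omega)]; exact hYa.2.unique hx.2⟩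
      · exact ⟨3, by simp, by rw [c_lt (by omega)]; exact hYb.2.unique hx.2⟩
    | one => rw [hx.2.unique (Lg.one 1).2]; exact zero_mem _
    | mul x y _ _ i1 i2 =>
      obtain ⟨X, hX⟩ := Lg.exists (p := 5) (hG := hG) (hG.mem_one x)
      obtain ⟨Z, hZ⟩ := Lg.exists (p := 5) (hG := hG) (hG.mem_one y)
      rw [hx.2.unique (hX.mul hZ).2]
      exact add_mem (i1 hX) (i2 hZ)
    | inv x _ i1 =>
      obtain ⟨X, hX⟩ := Lg.exists (p := 5) (hG := hG) (hG.mem_one x)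
      rw [hx.2.unique hX.inv.2]
      exact neg_mem (i1 hX)
  have hV := nilpotent H (fun n => {Y | ∃ x, Lg 5 hG n x Y}) hV1 (by
    rintro n M M' hn hM hbr Y ⟨x, hx⟩
    obtain ⟨n, rfl⟩ : ∃ m, n = m + 1 := ⟨n - 1, by omega⟩
    have hx' : x ∈ Subgroup.closure
      {g | ∃ g₁ ∈ G (n + 1), ∃ g₂ ∈ (⊤ : Subgroup P), ⁅g₁, g₂⁆ = g} := hx.1
    have hcl : ∀ y ∈ Subgroup.closure
      {g | ∃ g₁ ∈ G (n + 1), ∃ g₂ ∈ (⊤ : Subgroup P), ⁅g₁, g₂⁆ = g}, y ∈ G (n + 1 + 1) :=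
      fun y hy => hy
    induction hx' using Subgroup.closure_induction generalizing Y with
    | mem x hx1 =>
      obtain ⟨x1, h1, x2, _, rfl⟩ := hx1
      obtain ⟨X, hX⟩ := Lg.exists (p := 5) (hG := hG) h1
      obtain ⟨Z, hZ⟩ := Lg.exists (p := 5) (hG := hG) (hG.mem_one x2)
      rw [hx.2.unique (hX.comm hZ).2]
      exact hbr _ (hM ⟨_, hX⟩) _ (hV1 ⟨_, hZ⟩)
    | one => rw [hx.2.unique (Lg.one _).2]; exact zero_mem _
    | mul x y h1 h2 i1 i2 =>
      obtain ⟨X, hX⟩ := Lg.exists (p := 5) (hG := hG) (hcl x h1)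
      obtain ⟨Z, hZ⟩ := Lg.exists (p := 5) (hG := hG) (hcl y h2)
      rw [hx.2.unique (hX.mul hZ).2]
      exact add_mem (i1 hX) (i2 hZ)
    | inv x h1 i1 =>
      obtain ⟨X, hX⟩ := Lg.exists (p := 5) (hG := hG) (hcl x h1)
      rw [hx.2.unique hX.inv.2]
      exact neg_mem (i1 hX))
  have h13 : G 13 ≤ G 14 := by
    intro x hx
    obtain ⟨Y, hY⟩ := Lg.exists (p := 5) (hG := hG) hx
    have h0 : Y = 0 := hV ⟨x, hY⟩
    rw [h0] at hY
    exact jennings hG hpow hY.2.of_zero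
  have hall : ∀ n, G (12 + 1) ≤ G (12 + n + 1) := by
    intro n
    induction n with
    | zero => exact le_rfl
    | succ n ih =>
      have h3 : (⊤ : Subgroup P).lowerCentralSeries (12 + 1) ≤
          (⊤ : Subgroup P).lowerCentralSeries (12 + n + 1) := by
        rw [Subgroup.lowerCentralSeries_succ, Subgroup.lowerCentralSeries_succ]
        exact Subgroup.commutator_mono ih le_rfl
      exact h13.trans h3
  have := hG.anti (show N + 1 ≤ 12 + N + 1 by omega) (hall N (S1 1 t (hG.mem_one t)))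
  rwa [hN', Subgroup.mem_bot] at this

theorem five {P : Type u} [Group P] [Finite P] (hP : IsPGroup 5 P) (T : Subgroup P)
    {a b : P} (hab : Commute a b) (ha : a ^ 5 = 1)
    (hb : b ^ 5 = 1) (hT0 : ∀ x y : P, x * y * x⁻¹ * y⁻¹ ∈ T) (hT1 : ∀ g, g ∈ T ∨ g ^ 5 = 1)
    (hT2 : ∀ t ∈ T, ∀ i j : ℕ, ¬ (5 ∣ i ∧ 5 ∣ j) → (t * a ^ i * b ^ j) ^ 5 = 1) (t : P) :
    t ^ 5 = 1 := by
  let H : Subgroup P := Subgroup.closure {t, a, b}
  have ht : t ∈ H := Subgroup.subset_closure (by simp)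
  have ha' : a ∈ H := Subgroup.subset_closure (by simp)
  have hb' : b ∈ H := Subgroup.subset_closure (by simp)
  have := five_gen (hP.to_subgroup H) (T.subgroupOf H) (t := ⟨t, ht⟩) (a := ⟨a, ha'⟩)
    (b := ⟨b, hb'⟩) (by
      have h1 := Subgroup.closure_closure_coe_preimage (k := ({t, a, b} : Set P))
      rw [← h1]
      congr 1
      ext x
      simp [Subtype.ext_iff])
    (Subtype.ext hab.eq) (Subtype.ext ha) (Subtype.ext hb) (fun x y => hT0 x y)
    (fun g hg => Subtype.ext ((hT1 g).resolve_left hg))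
    (fun x hx i j hij => Subtype.ext (hT2 x hx i j hij))
  exact congrArg Subtype.val this

end Pool.Agent.Lib.MP_6d9b00_al
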