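import Mathlib

set_option autoImplicit false

namespace Pool.Agent.Lib.MP_6d9b00_al

open Finset

section sums

variable {p : ℕ} [hp : Fact p.Prime]

theorem sum_range_zmod {α : Type*} [AddCommMonoid α] (f : ZMod p → α) :
    ∑ k ∈ range p, f (k : ZMod p) = ∑ x : ZMod p, f x := by
  have : NeZero p := ⟨hp.out.ne_zero⟩
  refine Finset.sum_bij' (fun k _ => (k : ZMod p)) (fun x _ => x.val) ?_ ?_ ?_ ?_ ?_
  · intro a _; exact mem_univ _
  · intro a _; exact mem_range.2 (ZMod.val_lt a)
  · intro a ha; exact ZMod.val_cast_of_lt (mem_range.1 ha)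
  · intro a _; exact ZMod.natCast_zmod_val a
  · intro a _; rfl

theorem sum_pow_zero_alg (R : Type*) [CommRing R] [Algebra (ZMod p) R] (i : ℕ) (hi : i < p - 1) :
    ∑ k ∈ range p, (k : R) ^ i = 0 := by
  have h1 : ∑ k ∈ range p, ((k : ZMod p)) ^ i = 0 := by
    rw [sum_range_zmod (fun x : ZMod p => x ^ i)]
    apply FiniteField.sum_pow_lt_card_sub_one
    rwa [ZMod.card]
  have := congrArg (algebraMap (ZMod p) R) h1
  simpa [map_sum, map_pow, map_natCast] using this

theorem sum_pow_top (R : Type*) [CommRing R] [Algebra (ZMod p) R] :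
    ∑ k ∈ range p, (k : R) ^ (p - 1) = -1 := by
  have h1 : ∑ k ∈ range p, ((k : ZMod p)) ^ (p - 1) = -1 := by
    rw [sum_range_zmod (fun x : ZMod p => x ^ (p - 1))]
    have h2 : ∀ x : ZMod p, x ^ (p - 1) = 1 - if x = 0 then 1 else 0 := by
      intro x
      by_cases hx : x = 0
      · have : p - 1 ≠ 0 := by have := hp.out.two_le; omega
        simp [hx, this]
      · simp [hx, ZMod.pow_card_sub_one_eq_one hx]
    simp [h2, Finset.sum_sub_distrib]
  have := congrArg (algebraMap (ZMod p) R) h1
  simpa [map_sum, map_pow, map_natCast] using this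

theorem sum_mixed (R : Type*) [CommRing R] [Algebra (ZMod p) R] (i : ℕ) (hi : i ≤ p - 1) :
    ∑ k ∈ range p, ((k : R) + 1) ^ i * (k : R) ^ (p - 1 - i) = -1 := by
  have h1 : ∀ k : ℕ, ((k : R) + 1) ^ i * (k : R) ^ (p - 1 - i)
      = ∑ m ∈ range (i + 1), (i.choose m : R) * (k : R) ^ (m + (p - 1 - i)) := by
    intro k
    rw [add_pow, Finset.sum_mul]
    refine Finset.sum_congr rfl fun m _ => ?_
    rw [pow_add]; ring
  simp_rw [h1]
  rw [Finset.sum_comm, Finset.sum_range_succ, Finset.sum_eq_zero, zero_add]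
  · rw [← Finset.mul_sum, show i + (p - 1 - i) = p - 1 by omega, sum_pow_top]; simp
  · intro m hm
    rw [← Finset.mul_sum, sum_pow_zero_alg R _ (by have := mem_range.1 hm; omega), mul_zero]

theorem geom_char {R : Type*} [CommRing R] [Algebra (ZMod p) R] (x : R) :
    ∑ l ∈ range p, x ^ l = (x - 1) ^ (p - 1) := by
  have h1 : ∑ l ∈ range p, (Polynomial.X : Polynomial (ZMod p)) ^ l
      = (Polynomial.X - 1) ^ (p - 1) := by
    have h0 : (Polynomial.X - 1 : Polynomial (ZMod p)) ≠ 0 := by
      simpa using Polynomial.X_sub_C_ne_zero (1 : ZMod p)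
    apply mul_right_cancel₀ h0
    rw [geom_sum_mul, ← pow_succ, Nat.sub_add_cancel hp.out.one_le, sub_pow_char, one_pow]
  have := congrArg (Polynomial.aeval x) h1
  simpa [map_sum] using this

theorem natCast_p (R : Type*) [CommRing R] [Algebra (ZMod p) R] : (p : R) = 0 := by
  have := congrArg (algebraMap (ZMod p) R) (ZMod.natCast_self p)
  rwa [map_natCast, map_zero] at this

theorem sub_one_pow_p {R : Type*} [CommRing R] [Algebra (ZMod p) R] (x : R) :
    (x - 1) ^ p = x ^ p - 1 := by
  rw [← geom_sum_mul, geom_char (p := p), ← pow_succ, Nat.sub_add_cancel hp.out.one_le]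

theorem isUnit_int (R : Type*) [CommRing R] [Algebra (ZMod p) R] (r : ℤ) (hr : ¬ (p : ℤ) ∣ r) :
    IsUnit (r : R) := by
  have h1 : (r : ZMod p) ≠ 0 := by
    rwa [Ne, ZMod.intCast_zmod_eq_zero_iff_dvd]
  have := (IsUnit.mk0 _ h1).map (algebraMap (ZMod p) R)
  simpa using this

/-- the scalar identity behind the weight-one projection -/
theorem scalar_proj (i j : ℕ) (hij : i + j + 2 ≤ p - 1) :
    ∑ n ∈ range p, ((n : ZMod p)) ^ (p - 2) * ((n.choose (i + 1) : ZMod p) *
      (n.choose (j + 1) : ZMod p)) = 0 := by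
  have hp2 := hp.out.two_le
  set Q : Polynomial (ZMod p) :=
    (descPochhammer (ZMod p) i).comp (Polynomial.X - 1) * descPochhammer (ZMod p) (j + 1) with hQ
  have hdeg : Q.natDegree < p - 1 := by
    have h1 : ((descPochhammer (ZMod p) i).comp (Polynomial.X - 1)).natDegree ≤ i := by
      refine Polynomial.natDegree_comp_le.trans ?_
      have : (Polynomial.X - 1 : Polynomial (ZMod p)).natDegree = 1 := by
        simpa using Polynomial.natDegree_X_sub_C (1 : ZMod p)
      rw [this, descPochhammer_natDegree, mul_one]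
    have h2 := Polynomial.natDegree_mul_le
      (p := (descPochhammer (ZMod p) i).comp (Polynomial.X - 1))
      (q := descPochhammer (ZMod p) (j + 1))
    rw [descPochhammer_natDegree, ← hQ] at h2
    omega
  have hsum : ∑ n ∈ range p, Q.eval (n : ZMod p) = 0 := by
    simp_rw [Polynomial.eval_eq_sum_range]
    rw [Finset.sum_comm]
    refine Finset.sum_eq_zero fun m hm => ?_
    rw [← Finset.mul_sum, sum_pow_zero_alg (ZMod p) m (by have := mem_range.1 hm; omega), mul_zero]
  have hfac : ∀ m : ℕ, m < p → ((m.factorial : ℕ) : ZMod p) ≠ 0 := by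
    intro m hm h
    rw [ZMod.natCast_eq_zero_iff] at h
    have := (hp.out.dvd_factorial).1 h
    omega
  have hc : (((i + 1).factorial : ℕ) : ZMod p) * (((j + 1).factorial : ℕ) : ZMod p) ≠ 0 :=
    mul_ne_zero (hfac _ (by omega)) (hfac _ (by omega))
  apply mul_left_cancel₀ hc
  rw [mul_zero, Finset.mul_sum, ← hsum]
  refine Finset.sum_congr rfl fun n hn => ?_
  have e1 : ∀ m : ℕ, ((m.factorial : ℕ) : ZMod p) * (n.choose m : ZMod p)
      = (descPochhammer (ZMod p) m).eval (n : ZMod p) := by
    intro m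
    rw [descPochhammer_eval_eq_descFactorial, Nat.descFactorial_eq_factorial_mul_choose]
    push_cast; ring
  have e2 : (descPochhammer (ZMod p) (i + 1)).eval (n : ZMod p) = (n : ZMod p) *
      ((descPochhammer (ZMod p) i).comp (Polynomial.X - 1)).eval (n : ZMod p) := by
    rw [descPochhammer_succ_left, Polynomial.eval_mul, Polynomial.eval_X]
  calc _ = (n : ZMod p) ^ (p - 2) * ((((i + 1).factorial : ℕ) : ZMod p) *
        (n.choose (i + 1) : ZMod p)) * ((((j + 1).factorial : ℕ) : ZMod p) *
        (n.choose (j + 1) : ZMod p)) := by ring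
    _ = (n : ZMod p) ^ (p - 1) * Q.eval (n : ZMod p) := by
        rw [e1, e1, e2, hQ, Polynomial.eval_mul, show p - 1 = (p - 2) + 1 by omega, pow_succ]
        ring
    _ = Q.eval (n : ZMod p) := by
        by_cases h0 : (n : ZMod p) = 0
        · rw [hQ, h0, Polynomial.eval_mul, descPochhammer_succ_left, Polynomial.eval_mul,
            Polynomial.eval_X]
          simp
        · rw [ZMod.pow_card_sub_one_eq_one h0, one_mul]

end sums

theorem pow_span_le {R ι : Type*} [CommRing R] (f : ι → R) (n : ℕ) :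
    Ideal.span (Set.range f) ^ n ≤
      Ideal.span {x | ∃ g : Fin n → ι, x = ∏ s, f (g s)} := by
  rw [Ideal.span, Submodule.span_pow]
  apply Submodule.span_mono
  intro x hx
  obtain ⟨u, hu, rfl⟩ := Set.mem_pow_iff_prod.1 hx
  choose g hg using hu
  exact ⟨g, by simp [hg]⟩

theorem prod_mem_pow {R ι : Type*} [CommRing R] (I : Ideal R) (S : Finset ι) (f : ι → R)
    (hf : ∀ s ∈ S, f s ∈ I) : ∏ s ∈ S, f s ∈ I ^ S.card := by
  have := Ideal.prod_mem_prod (s := S) (I := fun _ => I) (x := f) hf
  rwa [Finset.prod_const] at this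

theorem unit_sum {C σ : Type*} [Ring C] [DecidableEq σ] (s : σ → C) (hs : ∀ i, s i * s i = 1)
    (hc : ∀ i j, Commute (s i) (s j))
    (S : Finset σ) : ∀ r : ℤ, (∀ t : ℕ, t ≤ S.card → IsUnit ((r + S.card - 2 * t : ℤ) : C)) →
      IsUnit ((r : C) + ∑ i ∈ S, s i) := by
  induction S using Finset.induction_on with
  | empty => intro r h; simpa using h 0 (by simp)
  | insert a S ha ih =>
    intro r h
    rw [Finset.card_insert_of_notMem ha] at h
    have h1 := ih (r + 1) (fun t ht => by
      have := h t (by omega)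
      convert this using 2; push_cast; ring)
    have h2 := ih (r - 1) (fun t ht => by
      have := h (t + 1) (by omega)
      convert this using 2; push_cast; ring)
    have h3 := h1.mul h2
    rw [Finset.sum_insert ha]
    set x : C := (r : C) + ∑ i ∈ S, s i with hx
    have hxs : Commute x (s a) :=
      (Int.cast_commute r _).add_left (Commute.sum_left _ _ _ fun i _ => hc i a)
    have e1 : ((r + 1 : ℤ) : C) + ∑ i ∈ S, s i = x + 1 := by rw [hx]; push_cast; abel
    have e2 : ((r - 1 : ℤ) : C) + ∑ i ∈ S, s i = x - 1 := by rw [hx]; push_cast; abel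
    have e3 : (r : C) + (s a + ∑ i ∈ S, s i) = x + s a := by rw [hx]; abel
    have e : (x + 1) * (x - 1) = (x + s a) * (x - s a) := by
      clear_value x
      rw [add_mul, add_mul, mul_sub, mul_sub, mul_sub, mul_sub, hs a, hxs.eq]; simp
    rw [e1, e2, e] at h3
    rw [e3]
    have hcc : Commute (x + s a) (x - s a) :=
      ((Commute.refl x).sub_right hxs).add_left (hxs.symm.sub_right (Commute.refl _))
    exact (hcc.isUnit_mul_iff.1 h3).1

theorem finsupp_eq_sum {ι : Type*} : ∀ (n : ℕ) (ν : ι →₀ ℕ), ν.degree = n →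
    ∃ g : Fin n → ι, ν = ∑ s, Finsupp.single (g s) 1 := by
  intro n
  induction n with
  | zero =>
    intro ν h
    exact ⟨Fin.elim0, by simpa using (Finsupp.degree_eq_zero_iff ν).1 h⟩
  | succ n ih =>
    intro ν h
    have h0 : ν ≠ 0 := by rintro rfl; simp at h
    obtain ⟨l, hl⟩ := Finsupp.ne_iff.1 h0
    have hle : Finsupp.single l 1 ≤ ν := by
      rw [Finsupp.single_le_iff]; exact Nat.one_le_iff_ne_zero.2 hl
    obtain ⟨ν', rfl⟩ := exists_add_of_le hle
    obtain ⟨g, rfl⟩ := ih ν' (by
      rw [map_add, Finsupp.degree_single] at h; omega)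
    exact ⟨Fin.cons l g, by simp [Fin.sum_univ_succ]⟩

theorem adapted_basis {K V : Type} [Field K] [AddCommGroup V] [Module K V]
    (N : Module.End K V) (n0 : ℕ) (hN : N ^ n0 = 0) :
    ∃ (ι : Type) (w : Module.Basis ι K V) (wt : ι → ℕ),
      (∀ l, w l ∈ LinearMap.range (N ^ wt l)) ∧
      ∀ e v, v ∈ LinearMap.range (N ^ e) → ∀ l, w.repr v l ≠ 0 → e ≤ wt l := by
  classical
  have anti : ∀ e e', e ≤ e' → LinearMap.range (N ^ e') ≤ LinearMap.range (N ^ e) := by
    intro e e' h
    obtain ⟨c, rfl⟩ := Nat.exists_eq_add_of_le h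
    rintro _ ⟨v, rfl⟩
    exact ⟨(N ^ c) v, by rw [pow_add]; rfl⟩
  have hzero : ∀ e, n0 ≤ e → LinearMap.range (N ^ e) = ⊥ := by
    intro e he
    have := anti _ _ he
    rw [hN] at this
    simpa using this
  have key : ∀ i, ∃ B : Set V, LinearIndepOn K id B ∧
      B ⊆ LinearMap.range (N ^ (n0 - i)) ∧ ∀ e, n0 - i ≤ e →
        LinearMap.range (N ^ e) ≤ Submodule.span K (B ∩ LinearMap.range (N ^ e)) := by
    intro i
    induction i with
    | zero =>
      refine ⟨∅, by simp, by simp, fun e he => ?_⟩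
      rw [hzero e (by omega)]; exact bot_le
    | succ i ih =>
      obtain ⟨B, h1, h2, h3⟩ := ih
      have hsub : B ⊆ (LinearMap.range (N ^ (n0 - (i + 1))) : Set V) :=
        fun x hx => anti _ _ (by omega) (h2 hx)
      refine ⟨h1.extend hsub, h1.linearIndepOn_extend hsub, h1.extend_subset hsub, fun e he => ?_⟩
      by_cases hc : n0 - i ≤ e
      · exact (h3 e hc).trans (Submodule.span_mono
          (Set.inter_subset_inter_left _ (h1.subset_extend hsub)))
      · have : e = n0 - (i + 1) := by omega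
        subst this
        rw [Set.inter_eq_left.2 (h1.extend_subset hsub)]
        exact fun x hx => h1.subset_span_extend hsub hx
  obtain ⟨B, h1, -, h3⟩ := key n0
  have hsp : ⊤ ≤ Submodule.span K (Set.range (fun x : B => (x : V))) := by
    have := h3 0 (by omega)
    rw [pow_zero, Module.End.one_eq_id, LinearMap.range_id] at this
    simpa using this
  let w : Module.Basis B K V := Module.Basis.mk h1 hsp
  have hw : ∀ l, w l = (l : V) := fun l => Module.Basis.mk_apply _ _ l
  refine ⟨B, w, fun l => Nat.findGreatest (fun e => (l : V) ∈ LinearMap.range (N ^ e)) n0,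
    fun l => ?_, fun e v hv l hl => ?_⟩
  · rw [hw]
    exact Nat.findGreatest_spec (P := fun e => (l : V) ∈ LinearMap.range (N ^ e)) (m := 0)
      (Nat.zero_le _) (by simp)
  · by_cases he : n0 ≤ e
    · rw [hzero e he] at hv
      simp only [Submodule.mem_bot] at hv
      subst hv; simp at hl
    · have hv' := h3 e (by omega) hv
      have : B ∩ (LinearMap.range (N ^ e) : Set V)
          = w '' {l : B | (l : V) ∈ LinearMap.range (N ^ e)} := by
        ext x
        constructor
        · rintro ⟨hx1, hx2⟩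
          exact ⟨⟨x, hx1⟩, hx2, hw _⟩
        · rintro ⟨l, hl, rfl⟩
          rw [hw]; exact ⟨l.2, hl⟩
      rw [this] at hv'
      have := w.repr_support_subset_of_mem_span _ hv' (Finsupp.mem_support_iff.2 hl)
      exact Nat.le_findGreatest (by omega) this

end Pool.Agent.Lib.MP_6d9b00_al
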