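import Mathlib
import Pool.Agent.Lib.MP_6d9b00_al.MetaAlg

set_option autoImplicit false

namespace Pool.Agent.Lib.MP_6d9b00_al

open Finset

theorem smul_filt {R H : Type*} [CommRing R] [AddCommGroup H] [Module R H] (I : Ideal R)
    (N : Submodule R H) (e d : ℕ) {r : R} {h : H} (hr : r ∈ I ^ e) (hh : h ∈ I ^ d • N) :
    r • h ∈ I ^ (e + d) • N := by
  rw [pow_add, Submodule.mul_smul]
  exact Submodule.smul_mem_smul hr hh

theorem nakayama_nil {R H σ : Type*} [CommRing R] [AddCommGroup H] [Module R H] [Finite σ]
    (δ : σ → R) (hδ : ∀ s, IsNilpotent (δ s)) (N : Submodule R H)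
    (h : N ≤ Ideal.span (Set.range δ) • N) : N = ⊥ := by
  have hfg : (Ideal.span (Set.range δ)).FG := Submodule.fg_span (Set.finite_range δ)
  obtain ⟨n, hn⟩ := hfg.isNilpotent_iff_le_nilradical.2 (by
    rw [Ideal.span_le]; rintro _ ⟨s, rfl⟩; exact hδ s)
  have : ∀ m : ℕ, N ≤ Ideal.span (Set.range δ) ^ m • N := by
    intro m
    induction m with
    | zero => simp
    | succ m ih =>
      rw [pow_succ, Submodule.mul_smul]
      exact ih.trans (Submodule.smul_mono le_rfl h)
  have h2 := this n
  rw [hn] at h2
  simpa using h2

/-- functions on the sign cube killed by the adjacency operator vanish -/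
theorem cube_vanish {p : ℕ} [hp : Fact p.Prime] (hp2 : p ≠ 2) {R Q σ : Type*} [CommRing R]
    [Algebra (ZMod p) R] [AddCommGroup Q] [Module R Q] [DecidableEq σ] (S : Finset σ)
    (hS : S.card = p - 2) (x : (σ → ZMod 2) → Q)
    (hx : ∀ u : σ → ZMod 2, ∑ i ∈ S, x (u + Pi.single i 1) = 0) : x = 0 := by
  have hp3 : 3 ≤ p := by have := hp.out.two_le; omega
  let τ : σ → Module.End R ((σ → ZMod 2) → Q) :=
    fun i => LinearMap.funLeft R Q (fun u => u + Pi.single i 1)
  have hτ : ∀ i y u, τ i y u = y (u + Pi.single i 1) := fun _ _ _ => rfl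
  have hu := unit_sum τ (fun i => by
      ext1 y; funext u
      rw [Module.End.mul_apply, hτ, hτ, add_assoc, ← Pi.single_add]
      have : (1 + 1 : ZMod 2) = 0 := rfl
      simp [this])
    (fun i j => by
      ext1 y; funext u
      rw [Module.End.mul_apply, Module.End.mul_apply, hτ, hτ, hτ, hτ, add_right_comm]) S 0
    (fun t ht => by
      have h1 : ¬ (p : ℤ) ∣ (0 + (S.card : ℤ) - 2 * t) := by
        rintro ⟨c, hc⟩
        have hodd := hp.out.eq_two_or_odd.resolve_left hp2
        have hcard : (S.card : ℤ) = p - 2 := by rw [hS]; omega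
        have ht' : (t : ℤ) ≤ p - 2 := by omega
        have hp' : (3 : ℤ) ≤ p := by omega
        have hc0 : c = 0 := by
          rcases lt_trichotomy c 0 with h | h | h
          · nlinarith
          · exact h
          · nlinarith
        subst hc0
        omega
      have := (isUnit_int (p := p) R _ h1).map (algebraMap R (Module.End R ((σ → ZMod 2) → Q)))
      rwa [map_intCast] at this)
  have hinj := (Module.End.isUnit_iff _).1 hu
  apply hinj.1
  funext u
  simp only [Int.cast_zero, zero_add, map_zero, LinearMap.coe_sum, Finset.sum_apply, hτ]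
  exact hx u

theorem top_layer {p : ℕ} [hp : Fact p.Prime] (hp2 : p ≠ 2) {R H σ : Type*} [CommRing R]
    [Algebra (ZMod p) R] [AddCommGroup H] [Module R H] [Fintype σ] [DecidableEq σ]
    (hcard : Fintype.card σ = p) (δ : σ → R) (hδ : ∀ s, IsNilpotent (δ s)) (o : σ) (G : σ → H)
    (hGo : G o = 0)
    (h1 : ∀ i j, i ≠ j → (∑ s, δ s + δ i + δ j) • (G i - G j) ∈
      Ideal.span (Set.range δ) ^ 2 • Submodule.span R (Set.range G))
    (h2 : ∑ i, G i ∈ Ideal.span (Set.range δ) • Submodule.span R (Set.range G)) :
    ∀ r ∈ Ideal.span (Set.range δ) ^ (p - 1), ∀ i, r • G i = 0 := by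
  have hp3 : 3 ≤ p := by have := hp.out.two_le; omega
  set m := Ideal.span (Set.range δ) with hm
  set N := Submodule.span R (Set.range G) with hN
  have hδm : ∀ s, δ s ∈ m := fun s => Ideal.subset_span ⟨s, rfl⟩
  have hGN : ∀ i, G i ∈ N := fun i => Submodule.subset_span ⟨i, rfl⟩
  set η : σ → R := fun i => 2 * δ i + ∑ s, δ s with hη
  have hηm : ∀ i, η i ∈ m := fun i =>
    m.add_mem (m.mul_mem_left _ (hδm i)) (m.sum_mem fun s _ => hδm s)
  have hηm1 : ∀ i, η i ∈ m ^ 1 := fun i => by simpa using hηm i
  have hpR : (p : R) = 0 := natCast_p R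
  have hsumη : ∑ i, η i = 2 * ∑ s, δ s := by
    simp only [hη, Finset.sum_add_distrib, Finset.sum_const, Finset.card_univ, hcard,
      nsmul_eq_mul, hpR, ← Finset.mul_sum]
    ring
  obtain ⟨half, hhalf⟩ : ∃ half : R, half * 2 = 1 := by
    have := isUnit_int (p := p) R 2 (by
      intro h
      have := Int.le_of_dvd (by norm_num) h
      omega)
    obtain ⟨c, hc⟩ := this.exists_left_inv
    exact ⟨c, by simpa using hc⟩
  have hmη : m ≤ Ideal.span (Set.range η) := by
    rw [hm, Ideal.span_le]
    rintro _ ⟨i, rfl⟩
    have e : δ i = half * η i - half * half * ∑ j, η j := by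
      rw [hsumη]; simp only [hη]
      linear_combination (-δ i + half * ∑ s, δ s) * hhalf
    rw [SetLike.mem_coe, e]
    exact Ideal.sub_mem _ (Ideal.mul_mem_left _ _ (Ideal.subset_span ⟨i, rfl⟩))
      (Ideal.mul_mem_left _ _ (Ideal.sum_mem _ fun j _ => Ideal.subset_span ⟨j, rfl⟩))
  have k1 : ∀ i j, (η i + η j) • (G i - G j) ∈ m ^ 2 • N := by
    intro i j
    by_cases hij : i = j
    · subst hij; simp
    · have := Submodule.smul_mem _ (2 : R) (h1 i j hij)
      rw [smul_smul] at this
      convert this using 2
      simp only [hη]; ring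
  have k1o : ∀ i, (η i + η o) • G i ∈ m ^ 2 • N := fun i => by
    simpa [hGo] using k1 i o
  have k2 : ∀ i j, (η j - η o) • G i - (η i - η o) • G j ∈ m ^ 2 • N := by
    intro i j
    have := Submodule.add_mem _ (Submodule.sub_mem _ (k1 i j) (k1o i)) (k1o j)
    convert this using 1
    module
  have k3 : ∀ i j, (η i ^ 2 - η o ^ 2) • G j ∈ m ^ 3 • N := by
    intro i j
    have a1 := smul_filt m N 1 2 (Submodule.add_mem _ (hηm1 i) (hηm1 o)) (k2 j i)
    have a2 := smul_filt m N 1 2 (Submodule.sub_mem _ (hηm1 j) (hηm1 o)) (k1o i)
    have := Submodule.add_mem _ a1 a2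
    convert this using 1
    module
  have k4 : ∀ j, (∑ i, η i) • G j ∈ m ^ 2 • N := by
    intro j
    have a1 := smul_filt m N 1 1 (Submodule.sub_mem _ (hηm1 j) (hηm1 o)) (by simpa using h2)
    have a2 := Submodule.sum_mem _ (t := univ) (fun i _ => k2 i j)
    have := Submodule.sub_mem _ a1 a2
    convert this using 1
    rw [Finset.sum_sub_distrib, ← Finset.smul_sum, ← Finset.sum_smul, Finset.sum_sub_distrib]
    simp [hcard, hpR]
  -- the main estimate
  have main : ∀ j, ∀ r ∈ m ^ (p - 1), r • G j ∈ m ^ p • N := by
    intro j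
    by_cases hj : j = o
    · intro r _; rw [hj, hGo, smul_zero]; exact Submodule.zero_mem _
    set S : Finset σ := (univ.erase o).erase j with hS
    have hScard : S.card = p - 2 := by
      rw [hS, Finset.card_erase_of_mem (by simp [hj]), Finset.card_erase_of_mem (by simp),
        Finset.card_univ, hcard]; omega
    have k5 : (∑ i ∈ S, η i) • G j ∈ m ^ 2 • N := by
      have e : ∑ i, η i = η o + (η j + ∑ i ∈ S, η i) := by
        rw [hS, Finset.add_sum_erase _ _ (by simp [hj]), Finset.add_sum_erase _ _ (by simp)]
      have := Submodule.sub_mem _ (k4 j) (k1o j)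
      convert this using 1
      rw [e]; module
    set mon : ℕ → Finset σ → R := fun d U => η o ^ (d - U.card) * ∏ i ∈ U, η i with hmon
    have hmonm : ∀ d U, U.card ≤ d → mon d U ∈ m ^ d := by
      intro d U hU
      have := Ideal.mul_mem_mul (Ideal.pow_mem_pow (hηm o) (d - U.card))
        (prod_mem_pow m U η fun s _ => hηm s)
      rwa [← pow_add, Nat.sub_add_cancel hU] at this
    have mon_o : ∀ d U, U.card ≤ d → η o * mon d U = mon (d + 1) U := by
      intro d U hU
      simp only [hmon]
      rw [show d + 1 - U.card = (d - U.card) + 1 by omega, pow_succ]; ring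
    have mon_out : ∀ d U i, i ∉ U → η i * mon d U = mon (d + 1) (insert i U) := by
      intro d U i hi
      simp only [hmon]
      rw [Finset.card_insert_of_notMem hi, Finset.prod_insert hi, Nat.add_sub_add_right]; ring
    have mon_in : ∀ d U i, U.card ≤ d → i ∈ U →
        (η i * mon d U) • G j - mon (d + 1) (U.erase i) • G j ∈ m ^ (d + 2) • N := by
      intro d U i hU hi
      have hc : 1 ≤ U.card := Finset.card_pos.2 ⟨i, hi⟩
      have hce := Finset.card_erase_of_mem hi
      have a1 := smul_filt m N (d - 1) 3 (hmonm (d - 1) (U.erase i) (by omega)) (k3 i j)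
      rw [show d - 1 + 3 = d + 2 by omega] at a1
      convert a1 using 1
      simp only [hmon]
      rw [← Finset.mul_prod_erase U η hi, hce,
        show d + 1 - (U.card - 1) = (d - U.card) + 2 by omega,
        show d - 1 - (U.card - 1) = d - U.card by omega, pow_add]
      module
    set W : ℕ → Submodule R H := fun d =>
      Submodule.span R {h | ∃ U ⊆ S, U.card ≤ d ∧ h = mon d U • G j} ⊔ m ^ (d + 1) • N with hW
    have Wgen : ∀ d U, U ⊆ S → U.card ≤ d → mon d U • G j ∈ W d := fun d U h1 h2 =>
      Submodule.mem_sup_left (Submodule.subset_span ⟨U, h1, h2, rfl⟩)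
    have Wη : ∀ d i, ∀ h ∈ W d, η i • h ∈ W (d + 1) := by
      intro d i
      have : W d ≤ (W (d + 1)).comap (LinearMap.lsmul R H (η i)) := by
        refine sup_le (Submodule.span_le.2 ?_) (fun h hh => ?_)
        · rintro _ ⟨U, hU1, hU2, rfl⟩
          simp only [SetLike.mem_coe, Submodule.mem_comap, LinearMap.lsmul_apply, smul_smul]
          by_cases hio : i = o
          · rw [hio, mon_o d U hU2]; exact Wgen _ _ hU1 (by omega)
          by_cases hij : i = j
          · have a1 := smul_filt m N d 2 (hmonm d U hU2) (k1o j)
            have a2 := Wgen (d + 1) U hU1 (by omega)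
            rw [← mon_o d U hU2] at a2
            have := Submodule.sub_mem _ (Submodule.mem_sup_right a1 : _ ∈ W (d + 1)) a2
            convert this using 1
            rw [hij]; module
          by_cases hiU : i ∈ U
          · have a1 := mon_in d U i hU2 hiU
            have a2 := Wgen (d + 1) (U.erase i) ((Finset.erase_subset _ _).trans hU1)
              (by have := Finset.card_erase_le (s := U) (a := i); omega)
            have := Submodule.add_mem _ (Submodule.mem_sup_right a1 : _ ∈ W (d + 1)) a2
            simpa using this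
          · rw [mon_out d U i hiU]
            refine Wgen _ _ (Finset.insert_subset (by simp [hS, hio, hij]) hU1) ?_
            rw [Finset.card_insert_of_notMem hiU]; omega
        · have := smul_filt m N 1 (d + 1) (hηm1 i) hh
          rw [add_comm 1] at this
          exact Submodule.mem_sup_right this
      exact fun h hh => this hh
    have Wm : ∀ d, ∀ a ∈ m, ∀ h ∈ W d, a • h ∈ W (d + 1) := by
      intro d a ha h hh
      have ha' := hmη ha
      clear ha
      induction ha' using Submodule.span_induction with
      | mem x hx => obtain ⟨i, rfl⟩ := hx; exact Wη d i h hh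
      | zero => simp
      | add x y _ _ hx hy => rw [add_smul]; exact Submodule.add_mem _ hx hy
      | smul c x _ hx => rw [smul_eq_mul, mul_smul]; exact Submodule.smul_mem _ _ hx
    have Wall : ∀ d, ∀ r ∈ m ^ d, r • G j ∈ W d := by
      intro d
      induction d with
      | zero =>
        intro r _
        have := Wgen 0 ∅ (by simp) (by simp)
        simp only [hmon, Finset.card_empty, Nat.sub_self, pow_zero, Finset.prod_empty, mul_one,
          one_smul] at this
        exact Submodule.smul_mem _ _ this
      | succ d ih =>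
        intro r hr
        rw [pow_succ'] at hr
        refine Submodule.mul_induction_on hr (fun a ha b hb => ?_) (fun x y hx hy => ?_)
        · rw [mul_smul]; exact Wm d a ha _ (ih b hb)
        · rw [add_smul]; exact Submodule.add_mem _ hx hy
    have hz : ∀ a : ZMod 2, a ≠ 0 → a + 1 = 0 := by decide
    have top : ∀ U ⊆ S, mon (p - 1) U • G j ∈ m ^ p • N := by
      let x : (σ → ZMod 2) → H ⧸ (m ^ p • N) := fun u =>
        Submodule.Quotient.mk (mon (p - 1) (S.filter (fun i => u i ≠ 0)) • G j)
      have hx0 : x = 0 := by
        refine cube_vanish hp2 (R := R) S hScard x fun u => ?_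
        set U := S.filter (fun i => u i ≠ 0) with hU
        have hUc : U.card ≤ p - 2 := hScard ▸ Finset.card_filter_le _ _
        have e1 : ∀ i ∈ S, x (u + Pi.single i 1) =
            Submodule.Quotient.mk ((η i * mon (p - 2) U) • G j) := by
          intro i hi
          by_cases hui : u i = 0
          · have hiU : i ∉ U := by simp [hU, hui]
            have : S.filter (fun l => (u + Pi.single i 1 : σ → ZMod 2) l ≠ 0) = insert i U := by
              ext l
              by_cases hl : l = i
              · subst hl; simp [hi, hui]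
              · simp [hl, hU]
            simp only [x]
            rw [this, mon_out _ _ _ hiU, show p - 2 + 1 = p - 1 by omega]
          · have hiU : i ∈ U := by simp [hU, hui, hi]
            have : S.filter (fun l => (u + Pi.single i 1 : σ → ZMod 2) l ≠ 0) = U.erase i := by
              ext l
              by_cases hl : l = i
              · subst hl; simp [hz _ hui]
              · simp [hl, hU]
            simp only [x]
            have a1 := mon_in (p - 2) U i hUc hiU
            rw [show p - 2 + 1 = p - 1 by omega, show p - 2 + 2 = p by omega] at a1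
            rw [this, eq_comm, Submodule.Quotient.eq]
            exact a1
        rw [Finset.sum_congr rfl e1]
        have a1 := smul_filt m N (p - 2) 2 (hmonm _ U hUc) k5
        rw [show p - 2 + 2 = p by omega] at a1
        have a2 := (Submodule.Quotient.mk_eq_zero _).2 a1
        rw [← a2, smul_smul, Finset.mul_sum, Finset.sum_smul, ← Submodule.mkQ_apply, map_sum]
        refine Finset.sum_congr rfl fun i _ => ?_
        rw [mul_comm]; rfl
      intro U hU
      have := congrFun hx0 (fun i => if i ∈ U then 1 else 0)
      have e : S.filter (fun i => (if i ∈ U then (1 : ZMod 2) else 0) ≠ 0) = U := by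
        ext l
        by_cases hl : l ∈ U
        · simp [hl, hU hl]
        · simp [hl]
      simp only [x] at this
      rw [e] at this
      exact (Submodule.Quotient.mk_eq_zero _).1 this
    intro r hr
    have hle : W (p - 1) ≤ m ^ p • N := by
      refine sup_le (Submodule.span_le.2 ?_) ?_
      · rintro _ ⟨U, hU1, -, rfl⟩; exact top U hU1
      · rw [show p - 1 + 1 = p by omega]
    exact hle (Wall _ r hr)
  have hbot : m ^ (p - 1) • N = ⊥ := by
    apply nakayama_nil δ hδ
    rw [← Submodule.mul_smul, ← pow_succ', show p - 1 + 1 = p by omega]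
    refine Submodule.smul_le.2 fun r hr h hh => ?_
    induction hh using Submodule.span_induction with
    | mem x hx => obtain ⟨i, rfl⟩ := hx; exact main i r hr
    | zero => simp
    | add x y _ _ hx hy => rw [smul_add]; exact Submodule.add_mem _ hx hy
    | smul c x _ hx => rw [smul_comm]; exact Submodule.smul_mem _ _ hx
  intro r hr i
  have := Submodule.smul_mem_smul hr (hGN i)
  rwa [hbot, Submodule.mem_bot] at this

end Pool.Agent.Lib.MP_6d9b00_al
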