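import Mathlib
import Pool.Agent.Lib.MP_6d9b00_al.MetaTop

set_option autoImplicit false

namespace Pool.Agent.Lib.MP_6d9b00_al

open Finset

section congruences

variable {p : ℕ} [hp : Fact p.Prime]

theorem prod_one_add_sq_zero {Q σ : Type*} [CommRing Q] [DecidableEq σ] (ν : σ → Q)
    (h : ∀ s t, ν s * ν t = 0) (S : Finset σ) : ∏ s ∈ S, (1 + ν s) = 1 + ∑ s ∈ S, ν s := by
  induction S using Finset.induction_on with
  | empty => simp
  | insert a S ha ih =>
    rw [Finset.prod_insert ha, Finset.sum_insert ha, ih]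
    have : ν a * ∑ s ∈ S, ν s = 0 := by
      rw [Finset.mul_sum]; exact Finset.sum_eq_zero fun s _ => h a s
    linear_combination this

theorem pow_one_add_sq_zero {Q : Type*} [CommRing Q] (ν : Q) (h : ν * ν = 0) (k : ℕ) :
    (1 + ν) ^ k = 1 + k * ν := by
  induction k with
  | zero => simp
  | succ k ih => rw [pow_succ, ih]; push_cast; linear_combination (k : Q) * h

theorem geom_sq_zero {Q : Type*} [CommRing Q] (ν half : Q) (h : ν * ν = 0) (hh : half * 2 = 1)
    (k : ℕ) : ∑ l ∈ range k, (1 + ν) ^ l = k * (1 + half * (k - 1) * ν) := by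
  induction k with
  | zero => simp
  | succ k ih =>
    rw [Finset.sum_range_succ, ih, pow_one_add_sq_zero ν h]
    push_cast
    linear_combination (-(k : Q) * ν) * hh

theorem exists_half (hp2 : p ≠ 2) (R : Type*) [CommRing R] [Algebra (ZMod p) R] :
    ∃ half : R, half * 2 = 1 := by
  have hp3 : 3 ≤ p := by have := hp.out.two_le; omega
  have := isUnit_int (p := p) R 2 (by
    intro h
    have := Int.le_of_dvd (by norm_num) h
    omega)
  obtain ⟨c, hc⟩ := this.exists_left_inv
  exact ⟨c, by simpa using hc⟩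

theorem congr_one (hp2 : p ≠ 2) {R σ : Type*} [CommRing R] [Algebra (ZMod p) R] [Fintype σ]
    [DecidableEq σ] (hcard : Fintype.card σ = p) (β : σ → R) (i j : σ) (hij : i ≠ j) :
    2 * (∑ k ∈ range p, ∏ s, (if s = i ∨ s = j then β s ^ k else ∑ l ∈ range k, β s ^ l)) +
      (∑ s, (β s - 1) + (β i - 1) + (β j - 1)) ∈
        Ideal.span (Set.range fun s => β s - 1) ^ 2 := by
  have hp3 : 3 ≤ p := by have := hp.out.two_le; omega
  set m := Ideal.span (Set.range fun s => β s - 1) with hm
  rw [← Ideal.Quotient.eq_zero_iff_mem]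
  set π := Ideal.Quotient.mk (m ^ 2) with hπ
  set ν : σ → R ⧸ m ^ 2 := fun s => π (β s - 1) with hν
  have hνν : ∀ s t, ν s * ν t = 0 := by
    intro s t
    simp only [hν]
    rw [← map_mul, hπ, Ideal.Quotient.eq_zero_iff_mem, pow_two]
    exact Ideal.mul_mem_mul (Ideal.subset_span ⟨s, rfl⟩) (Ideal.subset_span ⟨t, rfl⟩)
  have hβ : ∀ s, π (β s) = 1 + ν s := by intro s; simp [hν]
  obtain ⟨half, hhalf⟩ := exists_half hp2 (R ⧸ m ^ 2)
  have e1 : ∀ k : ℕ, π (∏ s, (if s = i ∨ s = j then β s ^ k else ∑ l ∈ range k, β s ^ l)) =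
      (k : R ⧸ m ^ 2) ^ (p - 2) * (1 + half * (((k : R ⧸ m ^ 2) - 1) * ∑ s, ν s +
        ((k : R ⧸ m ^ 2) + 1) * (ν i + ν j))) := by
    intro k
    have f1 : ∀ s, π (if s = i ∨ s = j then β s ^ k else ∑ l ∈ range k, β s ^ l) =
        (if s = i ∨ s = j then 1 else (k : R ⧸ m ^ 2)) *
          (1 + half * (((k : R ⧸ m ^ 2) - 1) * ν s +
            if s = i ∨ s = j then ((k : R ⧸ m ^ 2) + 1) * ν s else 0)) := by
      intro s
      split_ifs with h
      · rw [map_pow, hβ, pow_one_add_sq_zero _ (hνν s s)]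
        linear_combination (-(k : R ⧸ m ^ 2) * ν s) * hhalf
      · simp only [map_sum, map_pow, hβ]
        rw [geom_sq_zero _ half (hνν s s) hhalf]; ring
    rw [map_prod, Finset.prod_congr rfl (fun s _ => f1 s), Finset.prod_mul_distrib,
      prod_one_add_sq_zero]
    · congr 1
      · rw [Finset.prod_ite, Finset.prod_const_one, one_mul, Finset.prod_const]
        congr 1
        have : (univ.filter fun s => ¬ (s = i ∨ s = j)) = (univ.erase i).erase j := by
          ext s; simp [and_comm]
        rw [this, Finset.card_erase_of_mem (by simp [hij.symm]),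
          Finset.card_erase_of_mem (by simp), Finset.card_univ, hcard]
        omega
      · rw [← Finset.mul_sum, Finset.sum_add_distrib, ← Finset.mul_sum, ← Finset.sum_filter]
        have : (univ.filter fun s => (s = i ∨ s = j)) = {i, j} := by
          ext s; simp
        rw [this, Finset.sum_pair hij]; ring
    · intro s t
      have hform : ∀ s, ∃ c : R ⧸ m ^ 2, half * (((k : R ⧸ m ^ 2) - 1) * ν s +
          if s = i ∨ s = j then ((k : R ⧸ m ^ 2) + 1) * ν s else 0) = c * ν s := by
        intro s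
        split_ifs
        · exact ⟨half * (2 * k), by ring⟩
        · exact ⟨half * (k - 1), by ring⟩
      obtain ⟨c, hc⟩ := hform s
      obtain ⟨c', hc'⟩ := hform t
      rw [hc, hc']
      linear_combination (c * c') * hνν s t
  rw [map_add, map_mul, map_sum, Finset.sum_congr rfl (fun k _ => e1 k)]
  have s1 := sum_pow_zero_alg (p := p) (R ⧸ m ^ 2) (p - 2) (by omega)
  have s2 := sum_pow_top (p := p) (R ⧸ m ^ 2)
  have e2 : ∀ k : ℕ, (k : R ⧸ m ^ 2) ^ (p - 2) * (1 + half * (((k : R ⧸ m ^ 2) - 1) * ∑ s, ν s +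
        ((k : R ⧸ m ^ 2) + 1) * (ν i + ν j))) =
      (k : R ⧸ m ^ 2) ^ (p - 2) * (1 + half * (ν i + ν j - ∑ s, ν s)) +
      (k : R ⧸ m ^ 2) ^ (p - 1) * (half * (∑ s, ν s + ν i + ν j)) := by
    intro k
    have : (k : R ⧸ m ^ 2) ^ (p - 1) = (k : R ⧸ m ^ 2) ^ (p - 2) * k := by
      rw [← pow_succ]; congr 1; omega
    rw [this]; ring
  rw [Finset.sum_congr rfl (fun k _ => e2 k), Finset.sum_add_distrib, ← Finset.sum_mul,
    ← Finset.sum_mul, s1, s2]
  simp only [map_add, map_sum, map_ofNat]
  change 2 * _ + (∑ s, ν s + ν i + ν j) = 0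
  linear_combination (-(∑ s, ν s + ν i + ν j)) * hhalf

theorem prod_split {R : Type*} [CommMonoid R] {n : ℕ} (i : Fin n) (A B C : Fin n → R) :
    ∏ s, (if s < i then A s else if s = i then B s else C s) =
      B i * (∏ j ∈ univ with j < i, A j) * ∏ j ∈ univ with i < j, C j := by
  rw [Finset.prod_ite, Finset.prod_ite, Finset.filter_filter, Finset.filter_filter]
  have h1 : (univ.filter fun s => ¬ s < i ∧ s = i) = {i} := by
    ext s; simp only [mem_filter, mem_univ, true_and, mem_singleton]
    constructor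
    · exact fun h => h.2
    · rintro rfl; simp
  have h2 : (univ.filter fun s => ¬ s < i ∧ ¬ s = i) = univ.filter fun j => i < j := by
    ext s; simp only [mem_filter, mem_univ, true_and]
    constructor
    · rintro ⟨h1, h2⟩; exact lt_of_le_of_ne (not_lt.1 h1) (Ne.symm h2)
    · intro h; exact ⟨not_lt.2 h.le, h.ne'⟩
  rw [h1, h2, Finset.prod_singleton, mul_left_comm, mul_assoc]

theorem congr_two {R : Type*} [CommRing R] [Algebra (ZMod p) R] (β : Fin p → R) (i : Fin p) :
    (∑ k ∈ range p, ∏ s, (if s < i then ∑ l ∈ range (k + 1), β s ^ l else if s = i then β s ^ k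
      else ∑ l ∈ range k, β s ^ l)) + 1 ∈ Ideal.span (Set.range fun s => β s - 1) := by
  set m := Ideal.span (Set.range fun s => β s - 1) with hm
  rw [← Ideal.Quotient.eq_zero_iff_mem]
  have hβ : ∀ s, Ideal.Quotient.mk m (β s) = 1 := by
    intro s
    rw [← sub_eq_zero, ← map_one (Ideal.Quotient.mk m), ← map_sub, Ideal.Quotient.eq_zero_iff_mem]
    exact Ideal.subset_span ⟨s, rfl⟩
  simp_rw [prod_split]
  simp only [map_add, map_sum, map_mul, map_prod, map_pow, hβ, one_pow, map_one, Finset.sum_const,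
    Finset.card_range, nsmul_eq_mul, mul_one, one_mul, Finset.prod_const]
  have c1 : (univ.filter fun j => j < i).card = i := by
    have : (univ.filter fun j => j < i) = Finset.Iio i := by ext; simp
    rw [this, Fin.card_Iio]
  have c2 : (univ.filter fun j => i < j).card = p - 1 - i := by
    have : (univ.filter fun j => i < j) = Finset.Ioi i := by ext; simp
    rw [this, Fin.card_Ioi]
  rw [c1, c2]
  have := sum_mixed (p := p) (R ⧸ m) i (by have := i.2; omega)
  push_cast
  rw [this]; ring

theorem telescope_two {R : Type*} [CommRing R] (β : Fin p → R) :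
    ∑ i : Fin p, ∑ k ∈ range p, ∏ s, (if s < i then ∑ l ∈ range (k + 1), β s ^ l
      else if s = i then β s ^ k else ∑ l ∈ range k, β s ^ l) =
      ∏ s, ∑ l ∈ range p, β s ^ l := by
  rw [Finset.sum_comm]
  have : ∀ k, ∑ i : Fin p, ∏ s, (if s < i then ∑ l ∈ range (k + 1), β s ^ l
      else if s = i then β s ^ k else ∑ l ∈ range k, β s ^ l) =
      ∏ s, ∑ l ∈ range (k + 1), β s ^ l - ∏ s, ∑ l ∈ range k, β s ^ l := by
    intro k
    simp_rw [prod_split, Finset.sum_range_succ]
    rw [Finset.prod_add_ordered]; ring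
  rw [Finset.sum_congr rfl (fun k _ => this k),
    Finset.sum_range_sub (fun k => ∏ s, ∑ l ∈ range k, β s ^ l)]
  have : Nonempty (Fin p) := ⟨⟨0, hp.out.pos⟩⟩
  simp [hp.out.ne_zero]

end congruences

section slot

variable {p : ℕ} [hp : Fact p.Prime] {σ : Type*} [Fintype σ] [DecidableEq σ] {V W : Type*}
  [AddCommGroup V] [Module (ZMod p) V] [AddCommGroup W] [Module (ZMod p) W]

/-- multilinear maps in slots indexed by `σ` -/
abbrev ML (p : ℕ) (σ V W : Type*) [AddCommGroup V] [Module (ZMod p) V] [AddCommGroup W]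
    [Module (ZMod p) W] := MultilinearMap (ZMod p) (fun _ : σ => V) W

/-- the commutative ring of slot operators -/
abbrev SR (p : ℕ) (σ : Type*) := AddMonoidAlgebra (ZMod p) (Option σ → ZMod p)

/-- the generators of the ring of slot operators -/
noncomputable def bet (p : ℕ) {σ : Type*} [DecidableEq σ] (s : Option σ) : SR p σ :=
  AddMonoidAlgebra.single (Pi.single s 1) 1

omit [Fintype σ] in
theorem bet_pow (s : Option σ) : bet p s ^ p = 1 := by
  rw [bet, AddMonoidAlgebra.single_pow, one_pow, AddMonoidAlgebra.one_def]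
  congr 1
  ext t
  simp

omit [Fintype σ] in
theorem bet_nil (s : Option σ) : IsNilpotent (bet p s - 1) :=
  ⟨p, by rw [sub_one_pow_p, bet_pow, sub_self]⟩

theorem pow_val_add {M : Type*} [Monoid M] (x : M) (hx : x ^ p = 1) (a c : ZMod p) :
    x ^ (a + c).val = x ^ a.val * x ^ c.val := by
  have : NeZero p := ⟨hp.out.ne_zero⟩
  rw [ZMod.val_add, ← pow_add]
  conv_rhs => rw [← Nat.mod_add_div (a.val + c.val) p, pow_add, pow_mul, hx, one_pow, mul_one]

omit [Fintype σ] [DecidableEq σ] in
theorem exists_slot (b : Module.End (ZMod p) V) (γ : Module.End (ZMod p) W) (hb : b ^ p = 1)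
    (hγ : γ ^ p = 1) :
    ∃ Φ : SR p σ →ₐ[ZMod p] Module.End (ZMod p) (ML p σ V W),
      ∀ g F v, Φ (AddMonoidAlgebra.single g 1) F v =
        (γ ^ (g none).val) (F fun s => (b ^ (g (some s)).val) (v s)) := by
  let act : (Option σ → ZMod p) → Module.End (ZMod p) (ML p σ V W) := fun g =>
    { toFun := fun F => (γ ^ (g none).val).compMultilinearMap
        (F.compLinearMap fun s => b ^ (g (some s)).val)
      map_add' := by intro F G; ext v; simp
      map_smul' := by intro c F; ext v; simp }
  have hact : ∀ g F v, act g F v =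
      (γ ^ (g none).val) (F fun s => (b ^ (g (some s)).val) (v s)) := fun _ _ _ => rfl
  let actHom : Multiplicative (Option σ → ZMod p) →* Module.End (ZMod p) (ML p σ V W) :=
    { toFun := fun g => act g.toAdd
      map_one' := by ext F v; rw [hact]; simp
      map_mul' := by
        intro g g'
        ext F v
        rw [Module.End.mul_apply, hact, hact, hact, toAdd_mul, Pi.add_apply, pow_val_add γ hγ,
          Module.End.mul_apply]
        congr 3
        funext s
        rw [Pi.add_apply, add_comm, pow_val_add b hb, Module.End.mul_apply] }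
  refine ⟨AddMonoidAlgebra.lift (ZMod p) _ _ actHom, fun g F v => ?_⟩
  rw [AddMonoidAlgebra.lift_single, one_smul]
  exact hact g F v

/-- `r` acts as `L` in the slot `s` -/
def Acts (Φ : SR p σ →ₐ[ZMod p] Module.End (ZMod p) (ML p σ V W)) (s : σ) (r : SR p σ)
    (L : Module.End (ZMod p) V) : Prop :=
  ∀ F v, Φ r F v = F (Function.update v s (L (v s)))

section acts

variable {Φ : SR p σ →ₐ[ZMod p] Module.End (ZMod p) (ML p σ V W)} {s : σ}

omit [Fintype σ] in
theorem Acts.one : Acts Φ s 1 1 := by intro F v; simp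

omit [Fintype σ] in
theorem Acts.add {r r' : SR p σ} {L L' : Module.End (ZMod p) V} (h : Acts Φ s r L)
    (h' : Acts Φ s r' L') : Acts Φ s (r + r') (L + L') := by
  intro F v
  rw [map_add, LinearMap.add_apply, _root_.add_apply, h, h', LinearMap.add_apply,
    MultilinearMap.map_update_add]

omit [Fintype σ] in
theorem Acts.sub {r r' : SR p σ} {L L' : Module.End (ZMod p) V} (h : Acts Φ s r L)
    (h' : Acts Φ s r' L') : Acts Φ s (r - r') (L - L') := by
  intro F v
  rw [map_sub, LinearMap.sub_apply, _root_.sub_apply, h, h', LinearMap.sub_apply,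
    MultilinearMap.map_update_sub]

omit [Fintype σ] in
theorem Acts.pow {r : SR p σ} {L : Module.End (ZMod p) V} (h : Acts Φ s r L) (n : ℕ) :
    Acts Φ s (r ^ n) (L ^ n) := by
  induction n with
  | zero => simpa using Acts.one
  | succ n ih =>
    intro F v
    rw [pow_succ', map_mul, Module.End.mul_apply, h, ih, pow_succ, Module.End.mul_apply]
    simp

omit [Fintype σ] in
theorem Acts.geom {r : SR p σ} {L : Module.End (ZMod p) V} (h : Acts Φ s r L) (n : ℕ) :
    Acts Φ s (∑ l ∈ range n, r ^ l) (∑ l ∈ range n, L ^ l) := by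
  induction n with
  | zero => intro F v; simp
  | succ n ih => rw [Finset.sum_range_succ, Finset.sum_range_succ]; exact ih.add (h.pow n)

theorem acts_prod {r : σ → SR p σ} {L : σ → Module.End (ZMod p) V}
    (h : ∀ s, Acts Φ s (r s) (L s)) (F : ML p σ V W) (v : σ → V) :
    Φ (∏ s, r s) F v = F fun s => L s (v s) := by
  have : ∀ (S : Finset σ) (v : σ → V),
      Φ (∏ s ∈ S, r s) F v = F fun s => if s ∈ S then L s (v s) else v s := by
    intro S
    induction S using Finset.induction_on with
    | empty => intro v; simp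
    | insert a S ha ih =>
      intro v
      rw [Finset.prod_insert ha, map_mul, Module.End.mul_apply, h, ih]
      congr 1
      funext s
      by_cases hs : s = a
      · subst hs; simp [ha]
      · simp [hs]
  simpa using this univ v

omit [Fintype σ] in
theorem acts_bet {b : Module.End (ZMod p) V} {γ : Module.End (ZMod p) W}
    (hΦ : ∀ g F v, Φ (AddMonoidAlgebra.single g 1) F v =
        (γ ^ (g none).val) (F fun s => (b ^ (g (some s)).val) (v s))) (s : σ) :
    Acts Φ s (bet p (some s)) b := by
  intro F v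
  have : Fact (1 < p) := ⟨hp.out.one_lt⟩
  rw [bet, hΦ]
  simp only [ne_eq, reduceCtorEq, not_false_eq_true, Pi.single_eq_of_ne, ZMod.val_zero, pow_zero,
    Module.End.one_apply]
  congr 1
  funext t
  by_cases ht : t = s
  · subst ht; simp [ZMod.val_one]
  · simp [ht]

end acts

theorem slot_unit (hcard : Fintype.card σ = p - 1) (b : Module.End (ZMod p) V)
    (γ : Module.End (ZMod p) W) (hb : b ^ p = 1) (hγ : γ ^ p = 1) (F : ML p σ V W)
    (h : ∀ v : σ → V, ∑ k ∈ range p, (γ ^ k) (F fun s => (∑ l ∈ range k, b ^ l) (v s)) = 0) :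
    F = 0 := by
  obtain ⟨Φ, hΦ⟩ := exists_slot (σ := σ) b γ hb hγ
  have : Fact (1 < p) := ⟨hp.out.one_lt⟩
  have hγ1 : ∀ (k : ℕ) (G : ML p σ V W) (v : σ → V), Φ (bet p none ^ k) G v = (γ ^ k) (G v) := by
    intro k
    induction k with
    | zero => intro G v; simp
    | succ k ih =>
      intro G v
      rw [pow_succ, map_mul, Module.End.mul_apply, ih, bet, hΦ, pow_succ, Module.End.mul_apply]
      simp [ZMod.val_one]
  set u : SR p σ := ∑ k ∈ range p, bet p none ^ k * ∏ s : σ, ∑ l ∈ range k, bet p (some s) ^ l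
    with hu
  have hu0 : Φ u F = 0 := by
    ext v
    rw [hu, map_sum, LinearMap.sum_apply, _root_.sum_apply, _root_.zero_apply,
      ← h v]
    refine Finset.sum_congr rfl fun k _ => ?_
    rw [map_mul, Module.End.mul_apply, hγ1, acts_prod fun s => (acts_bet hΦ s).geom k]
  have hnil : IsNilpotent (u + 1) := by
    set m := Ideal.span (Set.range fun s : Option σ => bet p s - 1) with hm
    have hle : m ≤ nilradical (SR p σ) := by
      rw [hm, Ideal.span_le]; rintro _ ⟨s, rfl⟩; exact bet_nil s
    apply hle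
    rw [← Ideal.Quotient.eq_zero_iff_mem]
    have hβ : ∀ s, Ideal.Quotient.mk m (bet p s) = 1 := by
      intro s
      rw [← sub_eq_zero, ← map_one (Ideal.Quotient.mk m), ← map_sub,
        Ideal.Quotient.eq_zero_iff_mem]
      exact Ideal.subset_span ⟨s, rfl⟩
    simp only [hu, map_add, map_sum, map_mul, map_prod, map_pow, hβ, one_pow, map_one,
      Finset.sum_const, Finset.card_range, nsmul_eq_mul, mul_one, one_mul, Finset.prod_const,
      Finset.card_univ, hcard]
    rw [sum_pow_top]; ring
  have hunit : IsUnit u := by simpa using hnil.isUnit_sub_one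
  have hinj := (Module.End.isUnit_iff _).1 (hunit.map Φ)
  apply hinj.1
  rw [hu0, map_zero]

theorem slot_sum (b : Module.End (ZMod p) V) (hb : b ^ p = 1) (ε : ML p σ V W)
    (G : Submodule (ZMod p) W) (θ : ℕ)
    (h : ∀ (e : σ → ℕ) (y : σ → V), (∀ s, y s ∈ LinearMap.range ((b - 1) ^ e s)) →
      θ ≤ ∑ s, e s → ε y ∈ G)
    (e : σ → ℕ) (y : σ → V) (hy : ∀ s, y s ∈ LinearMap.range ((b - 1) ^ e s))
    (he : θ ≤ ∑ s, e s + (p - 1)) (κ : σ → ℕ) :
    ∑ j ∈ range p, ε (fun s => (b ^ (j * κ s)) (y s)) ∈ G := by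
  obtain ⟨Φ, hΦ⟩ := exists_slot (σ := σ) b (1 : Module.End (ZMod p) W) hb (one_pow _)
  let Wt : ℕ → ML p σ V W → Prop := fun t F => ∀ (e : σ → ℕ) (y : σ → V),
    (∀ s, y s ∈ LinearMap.range ((b - 1) ^ e s)) → θ ≤ ∑ s, e s + t → F y ∈ G
  have hbr : ∀ (n e : ℕ) (v : V), v ∈ LinearMap.range ((b - 1) ^ e) →
      (b ^ n) v ∈ LinearMap.range ((b - 1) ^ e) := by
    rintro n e _ ⟨v, rfl⟩
    refine ⟨(b ^ n) v, ?_⟩
    have hc : Commute ((b - 1) ^ e) (b ^ n) :=
      ((Commute.refl b).sub_left (Commute.one_left b)).pow_pow e n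
    rw [← Module.End.mul_apply, hc.eq, Module.End.mul_apply]
  have hA : ∀ t (r : SR p σ) F, Wt t F → Wt t (Φ r F) := by
    intro t r F hF
    induction r using AddMonoidAlgebra.induction_on with
    | of g =>
      intro e y hy he
      rw [AddMonoidAlgebra.of_apply, toAdd_ofAdd, hΦ, one_pow, Module.End.one_apply]
      exact hF e _ (fun s => hbr _ _ _ (hy s)) he
    | add x y hx hy =>
      intro e v hv he
      rw [map_add, LinearMap.add_apply, _root_.add_apply]
      exact G.add_mem (hx e v hv he) (hy e v hv he)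
    | smul c x hx =>
      intro e v hv he
      rw [map_smul, LinearMap.smul_apply, _root_.smul_apply]
      exact G.smul_mem _ (hx e v hv he)
  set m := Ideal.span (Set.range fun s : σ => bet p (some s) - 1) with hm
  have hB : ∀ t, ∀ r ∈ m, ∀ F, Wt t F → Wt (t + 1) (Φ r F) := by
    intro t r hr
    induction hr using Submodule.span_induction with
    | mem x hx =>
      obtain ⟨s, rfl⟩ := hx
      intro F hF e y hy he
      rw [(acts_bet hΦ s).sub Acts.one]
      refine hF (Function.update e s (e s + 1)) _ (fun t => ?_) ?_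
      · by_cases ht : t = s
        · subst ht
          obtain ⟨v, hv⟩ := hy t
          refine ⟨v, ?_⟩
          rw [Function.update_self, Function.update_self, pow_succ', Module.End.mul_apply, hv]
        · simpa [ht] using hy t
      · rw [Finset.sum_update_of_mem (mem_univ s)]
        rw [← Finset.add_sum_erase _ _ (mem_univ s)] at he
        rw [Finset.sdiff_singleton_eq_erase]
        omega
    | zero => intro F _ e y _ _; simp
    | add x y _ _ hx hy =>
      intro F hF e v hv he
      rw [map_add, LinearMap.add_apply, _root_.add_apply]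
      exact G.add_mem (hx F hF e v hv he) (hy F hF e v hv he)
    | smul c x _ hx =>
      intro F hF
      rw [smul_eq_mul, map_mul, Module.End.mul_apply]
      exact hA _ _ _ (hx F hF)
  have hC : ∀ t, ∀ r ∈ m ^ t, Wt t (Φ r ε) := by
    intro t
    induction t with
    | zero => intro r _; exact hA 0 r ε (fun e y hy he => h e y hy (by simpa using he))
    | succ t ih =>
      intro r hr
      rw [pow_succ'] at hr
      refine Submodule.mul_induction_on hr (fun a ha c hc => ?_) (fun x y hx hy => ?_)
      · rw [map_mul, Module.End.mul_apply]; exact hB t a ha _ (ih c hc)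
      · intro e v hv he
        rw [map_add, LinearMap.add_apply, _root_.add_apply]
        exact G.add_mem (hx e v hv he) (hy e v hv he)
  set Γ : SR p σ := ∏ s, bet p (some s) ^ κ s with hΓ
  have hΓm : Γ - 1 ∈ m := by
    rw [← Ideal.Quotient.eq_zero_iff_mem]
    have hβ : ∀ s, Ideal.Quotient.mk m (bet p (some s)) = 1 := by
      intro s
      rw [← sub_eq_zero, ← map_one (Ideal.Quotient.mk m), ← map_sub,
        Ideal.Quotient.eq_zero_iff_mem]
      exact Ideal.subset_span ⟨s, rfl⟩
    simp [hΓ, map_prod, hβ]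
  have := hC (p - 1) _ (Ideal.pow_mem_pow hΓm (p - 1)) e y hy he
  rw [← geom_char, map_sum, LinearMap.sum_apply, _root_.sum_apply] at this
  convert this using 2 with j _
  rw [hΓ, ← Finset.prod_pow]
  simp_rw [← pow_mul, mul_comm (κ _) j]
  rw [acts_prod fun s => (acts_bet hΦ s).pow _]

end slot

theorem slot_sym {p : ℕ} [hp : Fact p.Prime] (hp2 : p ≠ 2) {V W : Type*}
    [AddCommGroup V] [Module (ZMod p) V] [AddCommGroup W] [Module (ZMod p) W]
    (b : Module.End (ZMod p) V) (hb : b ^ p = 1) (hN : ∑ l ∈ range p, b ^ l = 0)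
    (ε : Fin p → ML p (Fin p) V W)
    (R1 : ∀ i j, i ≠ j → ∀ v : Fin p → V, ∑ k ∈ range p, (ε i - ε j)
      (fun s => (if s = i ∨ s = j then b ^ k else ∑ l ∈ range k, b ^ l) (v s)) = 0)
    (R2 : ∀ v : Fin p → V, ∑ i, ∑ k ∈ range p, ε i (fun s => (if s < i then
      ∑ l ∈ range (k + 1), b ^ l else if s = i then b ^ k else ∑ l ∈ range k, b ^ l) (v s)) = 0)
    (e : Fin p → ℕ) (he : p - 1 ≤ ∑ s, e s) (u : Fin p → V) (i j : Fin p) :
    ε i (fun s => ((b - 1) ^ e s) (u s)) = ε j (fun s => ((b - 1) ^ e s) (u s)) := by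
  obtain ⟨Φ, hΦ⟩ := exists_slot (σ := Fin p) b (1 : Module.End (ZMod p) W) hb (one_pow _)
  let : Module (SR p (Fin p)) (ML p (Fin p) V W) := Module.compHom _ Φ.toRingHom
  have hsm : ∀ (r : SR p (Fin p)) (F : ML p (Fin p) V W), r • F = Φ r F := fun _ _ => rfl
  let o : Fin p := ⟨0, hp.out.pos⟩
  let β : Fin p → SR p (Fin p) := fun s => bet p (some s)
  have hβ : ∀ s, Acts Φ s (β s) b := acts_bet hΦ
  have hGN : ∀ i, ε i - ε o ∈ Submodule.span (SR p (Fin p)) (Set.range fun i => ε i - ε o) :=
    fun i => Submodule.subset_span ⟨i, rfl⟩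
  have key := top_layer hp2 (R := SR p (Fin p)) (Fintype.card_fin p) (fun s => β s - 1)
    (fun s => bet_nil _) o (fun i => ε i - ε o) (sub_self _)
    (fun i j hij => by
      have a1 := Submodule.smul_mem_smul (congr_one hp2 (Fintype.card_fin p) β i j hij)
        (Submodule.sub_mem _ (hGN i) (hGN j))
      have a2 : (∑ k ∈ range p, ∏ s, (if s = i ∨ s = j then β s ^ k
          else ∑ l ∈ range k, β s ^ l)) • (ε i - ε o - (ε j - ε o)) = 0 := by
        ext v
        rw [hsm, map_sum, LinearMap.sum_apply, _root_.sum_apply,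
          _root_.zero_apply, ← R1 i j hij v, sub_sub_sub_cancel_right]
        refine Finset.sum_congr rfl fun k _ => acts_prod (fun s => ?_) _ _
        split_ifs
        · exact (hβ s).pow k
        · exact (hβ s).geom k
      rwa [add_smul, mul_smul, a2, smul_zero, zero_add] at a1)
    (by
      set c : Fin p → SR p (Fin p) := fun i => ∑ k ∈ range p, ∏ s, (if s < i then
        ∑ l ∈ range (k + 1), β s ^ l else if s = i then β s ^ k else ∑ l ∈ range k, β s ^ l)
        with hc
      have a1 : ∑ i, c i • ε i = 0 := by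
        ext v
        rw [_root_.sum_apply, _root_.zero_apply, ← R2 v]
        refine Finset.sum_congr rfl fun i _ => ?_
        rw [hsm, hc, map_sum, LinearMap.sum_apply, _root_.sum_apply]
        refine Finset.sum_congr rfl fun k _ => acts_prod (fun s => ?_) _ _
        split_ifs
        · exact (hβ s).geom _
        · exact (hβ s).pow k
        · exact (hβ s).geom k
      have a2 : (∑ i, c i) • ε o = 0 := by
        ext v
        rw [hc, telescope_two, hsm, acts_prod fun s => (hβ s).geom p, hN]
        exact MultilinearMap.map_coord_zero _ o rfl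
      have a3 : ∑ i, (ε i - ε o) = ∑ i, (c i + 1) • (ε i - ε o) := by
        simp only [add_smul, one_smul, Finset.sum_add_distrib, smul_sub (c _),
          Finset.sum_sub_distrib (fun i => c i • ε i), a1, ← Finset.sum_smul, a2]
        simp
      rw [a3]
      exact Submodule.sum_mem _ fun i _ => Submodule.smul_mem_smul (congr_two β i) (hGN i))
  have hr : ∏ s, (β s - 1) ^ e s ∈ Ideal.span (Set.range fun s => β s - 1) ^ (p - 1) := by
    apply Ideal.pow_le_pow_right he
    rw [← Finset.prod_pow_eq_pow_sum]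
    exact Ideal.prod_mem_prod fun s _ =>
      Ideal.pow_mem_pow (Ideal.subset_span (Set.mem_range_self (f := fun s => β s - 1) s)) _
  have f : ∀ i, ε i (fun s => ((b - 1) ^ e s) (u s)) = ε o (fun s => ((b - 1) ^ e s) (u s)) := by
    intro i
    have := congrArg (fun F : ML p (Fin p) V W => F u) (key _ hr i)
    simp only [hsm] at this
    rw [acts_prod fun s => ((hβ s).sub Acts.one).pow _] at this
    simpa [sub_eq_zero] using this
  rw [f i, f j]

end Pool.Agent.Lib.MP_6d9b00_al
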