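import Mathlib
import Pool.Agent.Lib.MP_6d9b00_al.MetaSlot

set_option autoImplicit false

namespace Pool.Agent.Lib.MP_6d9b00_al

open Finset

section proj

variable {p : ℕ} [hp : Fact p.Prime]

theorem geom_choose {R : Type*} [CommRing R] (y : R) (N : ℕ) : ∀ n, n ≤ N →
    ∑ i ∈ range n, (1 + y) ^ i = ∑ j ∈ range N, (n.choose (j + 1) : R) * y ^ j := by
  intro n
  induction n with
  | zero => intro _; simp
  | succ n ih =>
    intro hn
    rw [Finset.sum_range_succ, ih (by omega)]
    have h1 : (1 + y) ^ n = ∑ j ∈ range N, (n.choose j : R) * y ^ j := by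
      rw [add_comm, add_pow]
      simp only [one_pow, mul_one]
      rw [Finset.sum_subset (Finset.range_subset_range.2 hn)]
      · exact Finset.sum_congr rfl fun j _ => mul_comm _ _
      · intro j _ hj
        rw [Nat.choose_eq_zero_of_lt (by simpa using hj)]; simp
    rw [h1, ← Finset.sum_add_distrib]
    refine Finset.sum_congr rfl fun j _ => ?_
    rw [Nat.choose_succ_succ]; push_cast; ring

theorem proj_mem {R : Type*} [CommRing R] [Algebra (ZMod p) R] (J : Ideal R) (u y : R)
    (hu : u ∈ J) (hy : y ∈ J) :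
    ∑ n ∈ range p, (n : R) ^ (p - 2) * (((1 + u) ^ n - 1) * ∑ i ∈ range n, (1 + y) ^ i) ∈
      J ^ (p - 1) := by
  have e1 : ∀ n ∈ range p, (n : R) ^ (p - 2) * (((1 + u) ^ n - 1) * ∑ i ∈ range n, (1 + y) ^ i) =
      ∑ i ∈ range p, ∑ j ∈ range p, ((n : R) ^ (p - 2) * ((n.choose (i + 1) : R) *
        (n.choose (j + 1) : R))) * (u ^ (i + 1) * y ^ j) := by
    intro n hn
    have hn' := (mem_range.1 hn).le
    rw [← geom_sum_mul, geom_choose u p n hn', geom_choose y p n hn', Finset.sum_mul,
      Finset.sum_mul, Finset.mul_sum]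
    refine Finset.sum_congr rfl fun i _ => ?_
    rw [Finset.mul_sum, Finset.mul_sum]
    refine Finset.sum_congr rfl fun j _ => ?_
    ring
  rw [Finset.sum_congr rfl e1, Finset.sum_comm]
  refine Ideal.sum_mem _ fun i _ => ?_
  rw [Finset.sum_comm]
  refine Ideal.sum_mem _ fun j _ => ?_
  rw [← Finset.sum_mul]
  by_cases hij : i + j + 2 ≤ p - 1
  · have := congrArg (algebraMap (ZMod p) R) (scalar_proj (p := p) i j hij)
    simp only [map_sum, map_mul, map_pow, map_natCast, map_zero] at this
    rw [this, zero_mul]; exact Ideal.zero_mem _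
  · apply Ideal.mul_mem_left
    have := Ideal.mul_mem_mul (Ideal.pow_mem_pow hu (i + 1)) (Ideal.pow_mem_pow hy j)
    rw [← pow_add] at this
    exact Ideal.pow_le_pow_right (by omega) this

end proj

section lemmaG

variable {K ι O E : Type*} [Field K] [CommRing O] [Algebra K O] [AddCommGroup E] [Module O E]
  [Module K E] [IsScalarTower K O E]

/-- the value of a monomial -/
noncomputable def op (K : Type*) {ι O : Type*} [Field K] [CommRing O] [Algebra K O] (Z : ι → O)
    (ν : ι →₀ ℕ) : O := MvPolynomial.aeval Z (MvPolynomial.monomial ν (1 : K))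

theorem op_add (Z : ι → O) (ν ν' : ι →₀ ℕ) : op K Z (ν + ν') = op K Z ν * op K Z ν' := by
  rw [op, op, op, ← map_mul, MvPolynomial.monomial_mul, one_mul]

theorem op_single (Z : ι → O) (l : ι) (n : ℕ) : op K Z (Finsupp.single l n) = Z l ^ n := by
  rw [op, ← MvPolynomial.X_pow_eq_monomial, map_pow, MvPolynomial.aeval_X]

theorem op_sum {σ : Type*} (Z : ι → O) (S : Finset σ) (g : σ → ι) :
    op K Z (∑ s ∈ S, Finsupp.single (g s) 1) = ∏ s ∈ S, Z (g s) := by
  rw [op, MvPolynomial.monomial_sum_one, map_prod]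
  refine Finset.prod_congr rfl fun s _ => ?_
  have := op_single (K := K) Z (g s) 1
  rwa [pow_one] at this

theorem op_mem (Z : ι → O) (I : Ideal O) (hZ : ∀ l, Z l ∈ I) (ν : ι →₀ ℕ) :
    op K Z ν ∈ I ^ ν.degree := by
  obtain ⟨g, hg⟩ := finsupp_eq_sum _ ν rfl
  have := prod_mem_pow I univ (fun s => Z (g s)) fun s _ => hZ _
  rwa [Finset.card_univ, Fintype.card_fin, ← op_sum (K := K), ← hg] at this

/-- the span of the good generators -/
def GS (K : Type*) {ι O E : Type*} [Field K] [CommRing O] [Algebra K O] [AddCommGroup E]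
    [Module O E] [Module K E] (Z : ι → O) (D : ι → E) (good : (ι →₀ ℕ) → Prop) : Submodule K E :=
  Submodule.span K {x | ∃ ν l, good (ν + Finsupp.single l 1) ∧ x = op K Z ν • D l}

theorem GS_smul (Z : ι → O) (D : ι → E) (good : (ι →₀ ℕ) → Prop)
    (hsurj : Function.Surjective (MvPolynomial.aeval (R := K) Z))
    (hup : ∀ μ l, good μ → good (μ + Finsupp.single l 1)) (r : O) :
    ∀ x ∈ GS K Z D good, r • x ∈ GS K Z D good := by
  obtain ⟨P, rfl⟩ := hsurj r
  have hZ : ∀ l, ∀ x ∈ GS K Z D good, Z l • x ∈ GS K Z D good := by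
    intro l x hx
    induction hx using Submodule.span_induction with
    | mem x hx =>
      obtain ⟨ν, l', h1, rfl⟩ := hx
      refine Submodule.subset_span ⟨ν + Finsupp.single l 1, l', ?_, ?_⟩
      · rw [add_right_comm]; exact hup _ _ h1
      · rw [op_add, op_single, pow_one, mul_comm, mul_smul]
    | zero => simp
    | add x y _ _ hx hy => rw [smul_add]; exact Submodule.add_mem _ hx hy
    | smul c x _ hx => rw [smul_comm]; exact Submodule.smul_mem _ _ hx
  induction P using MvPolynomial.induction_on with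
  | C a =>
    intro x hx
    rw [MvPolynomial.aeval_C, algebraMap_smul]
    exact Submodule.smul_mem _ _ hx
  | add P Q hP hQ =>
    intro x hx
    rw [map_add, add_smul]; exact Submodule.add_mem _ (hP x hx) (hQ x hx)
  | mul_X P l hP =>
    intro x hx
    rw [map_mul, MvPolynomial.aeval_X, mul_smul]
    exact hP _ (hZ l x hx)

theorem lemmaG (Z : ι → O) (D : ι → E) (del : E →ₗ[O] O) (hdel : ∀ l, del (D l) = Z l) (p : ℕ)
    (hp : 0 < p)
    (hker : ∀ P : MvPolynomial ι K, MvPolynomial.aeval Z P = 0 → ∀ m ∈ P.support, ∃ l, p ≤ m l)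
    (good : (ι →₀ ℕ) → Prop)
    (ha : ∀ ν ν' l l', ν + Finsupp.single l 1 = ν' + Finsupp.single l' 1 →
      good (ν + Finsupp.single l 1) → op K Z ν • D l = op K Z ν' • D l')
    (hb : ∀ ν l, p ≤ ν l + 1 → good (ν + Finsupp.single l 1) → op K Z ν • D l = 0)
    (x : E) (hx : x ∈ GS K Z D good) (h0 : del x = 0) : x = 0 := by
  classical
  let val : (ι →₀ ℕ) → E := fun m =>
    if h : ∃ νl : (ι →₀ ℕ) × ι, m = νl.1 + Finsupp.single νl.2 1 then
      op K Z h.choose.1 • D h.choose.2 else 0
  have hval : ∀ ν l, good (ν + Finsupp.single l 1) →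
      val (ν + Finsupp.single l 1) = op K Z ν • D l := by
    intro ν l hg
    have h : ∃ νl : (ι →₀ ℕ) × ι, ν + Finsupp.single l 1 = νl.1 + Finsupp.single νl.2 1 :=
      ⟨(ν, l), rfl⟩
    simp only [val]
    rw [dif_pos h]
    exact (ha _ _ _ _ h.choose_spec hg).symm
  let Λ : MvPolynomial ι K →ₗ[K] E := (MvPolynomial.basisMonomials ι K).constr K val
  have hΛ : ∀ m, Λ (MvPolynomial.monomial m 1) = val m := by
    intro m
    have := (MvPolynomial.basisMonomials ι K).constr_basis K val m
    simpa using this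
  have key : ∃ P : MvPolynomial ι K, (∀ m ∈ P.support, good m) ∧ x = Λ P ∧
      del x = MvPolynomial.aeval Z P := by
    clear h0
    induction hx using Submodule.span_induction with
    | mem x hx =>
      obtain ⟨ν, l, h1, rfl⟩ := hx
      refine ⟨MvPolynomial.monomial (ν + Finsupp.single l 1) 1, fun m hm => ?_, ?_, ?_⟩
      · have := MvPolynomial.support_monomial_subset hm
        rw [Finset.mem_singleton] at this
        rwa [this]
      · rw [hΛ, hval _ _ h1]
      · rw [map_smul, hdel, smul_eq_mul]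
        change _ = op K Z _
        rw [op_add, op_single, pow_one]
    | zero => exact ⟨0, by simp, by simp, by simp⟩
    | add x y _ _ hx hy =>
      obtain ⟨P, a1, a2, a3⟩ := hx
      obtain ⟨Q, b1, b2, b3⟩ := hy
      refine ⟨P + Q, fun m hm => ?_, by rw [map_add, ← a2, ← b2], by rw [map_add, map_add, a3, b3]⟩
      rcases Finset.mem_union.1 (MvPolynomial.support_add hm) with h | h
      · exact a1 m h
      · exact b1 m h
    | smul c x _ hx =>
      obtain ⟨P, a1, a2, a3⟩ := hx
      refine ⟨c • P, fun m hm => a1 m (MvPolynomial.support_smul hm), by rw [map_smul, ← a2], ?_⟩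
      rw [← algebraMap_smul O c x, LinearMap.map_smul, algebraMap_smul, a3, map_smul]
  obtain ⟨P, a1, a2, a3⟩ := key
  rw [a2, P.as_sum, map_sum]
  refine Finset.sum_eq_zero fun m hm => ?_
  obtain ⟨l, hl⟩ := hker P (by rw [← a3, h0]) m hm
  have hle : Finsupp.single l 1 ≤ m := by rw [Finsupp.single_le_iff]; omega
  obtain ⟨ν, hν⟩ := exists_add_of_le hle
  rw [add_comm] at hν
  have hg := a1 m hm
  have : MvPolynomial.monomial m (MvPolynomial.coeff m P) =
      MvPolynomial.coeff m P • MvPolynomial.monomial m (1 : K) := by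
    rw [MvPolynomial.smul_monomial, smul_eq_mul, mul_one]
  rw [this, map_smul, hΛ]
  rw [hν] at hg hl ⊢
  rw [hval _ _ hg, hb ν l (by simpa using hl) hg, smul_zero]

end lemmaG

section groupalg

variable {p : ℕ} [hp : Fact p.Prime] {V : Type*} [AddCommGroup V] [Module (ZMod p) V]

/-- the group algebra of `V` -/
abbrev GAadd (p : ℕ) (V : Type*) := AddMonoidAlgebra (ZMod p) V

/-- the group element attached to a vector -/
noncomputable def ch (p : ℕ) {V : Type*} (v : V) : GAadd p V := AddMonoidAlgebra.single v 1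

omit [Module (ZMod p) V] in
theorem ch_add (u v : V) : ch p (u + v) = ch p u * ch p v := by
  rw [ch, ch, ch, AddMonoidAlgebra.single_mul_single, one_mul]

omit hp [Module (ZMod p) V] in
theorem ch_zero : ch p (0 : V) = 1 := rfl

omit [Module (ZMod p) V] in
theorem ch_sum {σ : Type*} (S : Finset σ) (f : σ → V) :
    ch p (∑ s ∈ S, f s) = ∏ s ∈ S, ch p (f s) := by
  classical
  induction S using Finset.induction_on with
  | empty => simp [ch_zero]
  | insert a S ha ih => rw [Finset.sum_insert ha, Finset.prod_insert ha, ch_add, ih]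

omit hp [Module (ZMod p) V] in
theorem ch_nsmul (n : ℕ) (v : V) : ch p (n • v) = ch p v ^ n := by
  rw [ch, ch, AddMonoidAlgebra.single_pow, one_pow]

theorem p_nsmul (v : V) : p • v = 0 := by
  rw [← Nat.cast_smul_eq_nsmul (ZMod p), ZMod.natCast_self, zero_smul]

theorem ch_pow_p (v : V) : ch p v ^ p = 1 := by
  rw [← ch_nsmul, p_nsmul, ch_zero]

theorem ch_sub_pow (v : V) : (ch p v - 1) ^ p = 0 := by
  rw [sub_one_pow_p, ch_pow_p, sub_self]

theorem basis_ind {ι : Type*} (w : Module.Basis ι (ZMod p) V) (Q : V → Prop) (h0 : Q 0)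
    (hadd : ∀ u v, Q u → Q v → Q (u + v)) (hw : ∀ l, Q (w l)) (v : V) : Q v := by
  have : NeZero p := ⟨hp.out.ne_zero⟩
  have hv : v ∈ Submodule.span (ZMod p) (Set.range w) := by rw [w.span_eq]; trivial
  induction hv using Submodule.span_induction with
  | mem x hx => obtain ⟨l, rfl⟩ := hx; exact hw l
  | zero => exact h0
  | add x y _ _ hx hy => exact hadd _ _ hx hy
  | smul c x _ hx =>
    rw [← ZMod.natCast_zmod_val c, Nat.cast_smul_eq_nsmul]
    induction c.val with
    | zero => simpa using h0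
    | succ n ih => rw [succ_nsmul]; exact hadd _ _ ih hx

theorem phi_surj {ι : Type*} (w : Module.Basis ι (ZMod p) V) :
    Function.Surjective (MvPolynomial.aeval (R := ZMod p) fun l => ch p (w l) - 1) := by
  set φ := MvPolynomial.aeval (R := ZMod p) fun l => ch p (w l) - 1 with hφ
  have h1 : ∀ v, ch p v ∈ φ.range := by
    refine basis_ind w _ (by rw [ch_zero]; exact one_mem _) (fun u v hu hv => ?_) fun l => ?_
    · rw [ch_add]; exact mul_mem hu hv
    · exact ⟨MvPolynomial.X l + 1, by simp [hφ]⟩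
  intro r
  change r ∈ φ.range
  induction r using AddMonoidAlgebra.induction_on with
  | of g => exact h1 g
  | add x y hx hy => exact add_mem hx hy
  | smul c x hx => exact Subalgebra.smul_mem _ hx c

theorem phi_ker {ι : Type*} (w : Module.Basis ι (ZMod p) V) (P : MvPolynomial ι (ZMod p))
    (h : MvPolynomial.aeval (fun l => ch p (w l) - 1) P = 0) :
    ∀ m ∈ P.support, ∃ l, p ≤ m l := by
  have : Fact (1 < p) := ⟨hp.out.one_lt⟩
  set I : Ideal (MvPolynomial ι (ZMod p)) := Ideal.span
    ((fun s => MvPolynomial.monomial s (1 : ZMod p)) '' Set.range fun l => Finsupp.single l p)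
    with hI
  let y : ι → MvPolynomial ι (ZMod p) ⧸ I := fun l => Ideal.Quotient.mk I (MvPolynomial.X l) + 1
  have hy : ∀ l, y l ^ p = 1 := by
    intro l
    have h1 := sub_one_pow_p (p := p) (y l)
    have h2 : (y l - 1) ^ p = 0 := by
      simp only [y, add_sub_cancel_right]
      rw [← map_pow, Ideal.Quotient.eq_zero_iff_mem, MvPolynomial.X_pow_eq_monomial]
      exact Ideal.subset_span ⟨_, ⟨l, rfl⟩, rfl⟩
    rw [h2] at h1
    exact (sub_eq_zero.1 h1.symm)
  let χ : Multiplicative V →* MvPolynomial ι (ZMod p) ⧸ I :=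
    { toFun := fun v => (w.repr v.toAdd).prod fun l c => y l ^ c.val
      map_one' := by simp
      map_mul' := by
        intro u v
        rw [toAdd_mul, map_add, Finsupp.prod_add_index']
        · intro l; simp
        · intro l a c; exact pow_val_add _ (hy l) a c }
  let ψ : GAadd p V →ₐ[ZMod p] MvPolynomial ι (ZMod p) ⧸ I := AddMonoidAlgebra.lift (ZMod p) _ _ χ
  have hψ : ∀ l, ψ (ch p (w l)) = y l := by
    intro l
    rw [ch, AddMonoidAlgebra.lift_single, one_smul]
    change (w.repr (w l)).prod (fun l c => y l ^ c.val) = _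
    rw [w.repr_self, Finsupp.prod_single_index (by simp), ZMod.val_one, pow_one]
  have hcomp : ψ.comp (MvPolynomial.aeval fun l => ch p (w l) - 1) = Ideal.Quotient.mkₐ _ I := by
    apply MvPolynomial.algHom_ext
    intro l
    simp [hψ, y]
  have h2 : Ideal.Quotient.mk I P = 0 := by
    have := congrArg (fun f => f P) hcomp
    simp only [AlgHom.comp_apply, h, map_zero] at this
    exact this.symm
  rw [Ideal.Quotient.eq_zero_iff_mem, hI, MvPolynomial.mem_ideal_span_monomial_image] at h2
  intro m hm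
  obtain ⟨_, ⟨l, rfl⟩, hl⟩ := h2 m hm
  exact ⟨l, Finsupp.single_le_iff.1 hl⟩

end groupalg

end Pool.Agent.Lib.MP_6d9b00_al
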