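import Mathlib
import Pool.Agent.Lib.MP_6d9b00_al.MetaPoly

set_option autoImplicit false

namespace Pool.Agent.Lib.MP_6d9b00_al

open Finset

theorem exists_ML {p : ℕ} {σ V W : Type*} [dσ : DecidableEq σ]
    [AddCommGroup V]
    [Module (ZMod p) V] [AddCommGroup W] [Module (ZMod p) W] (F : (σ → V) → W)
    (hadd : ∀ v s x y, F (Function.update v s (x + y)) =
      F (Function.update v s x) + F (Function.update v s y)) :
    ∃ G : ML p σ V W, ∀ v, G v = F v := by
  refine ⟨{ toFun := F, map_update_add' := ?_, map_update_smul' := ?_ }, fun _ => rfl⟩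
  · intro dec v s x y
    obtain rfl : dec = dσ := Subsingleton.elim _ _
    exact hadd v s x y
  · intro dec v s c x
    obtain rfl : dec = dσ := Subsingleton.elim _ _
    have := ZMod.map_smul (AddMonoidHom.mk' (fun x => F (Function.update v s x)) (hadd v s)) c x
    simp only [AddMonoidHom.mk'_apply] at this
    exact this

theorem prod_update_in {σ V R : Type*} [DecidableEq σ] [CommMonoid R] (g : V → R) (S : Finset σ)
    (v : σ → V) (s : σ) (hs : s ∈ S) (x : V) :
    ∏ t ∈ S, g (Function.update v s x t) = g x * ∏ t ∈ S.erase s, g (v t) := by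
  rw [← Finset.mul_prod_erase S _ hs, Function.update_self]
  congr 1
  refine Finset.prod_congr rfl fun t ht => ?_
  rw [Function.update_of_ne (Finset.ne_of_mem_erase ht)]

theorem prod_update_out {σ V R : Type*} [DecidableEq σ] [CommMonoid R] (g : V → R) (S : Finset σ)
    (v : σ → V) (s : σ) (hs : s ∉ S) (x : V) :
    ∏ t ∈ S, g (Function.update v s x t) = ∏ t ∈ S, g (v t) := by
  refine Finset.prod_congr rfl fun t ht => ?_
  rw [Function.update_of_ne (by rintro rfl; exact hs ht)]

/-- a group with an abelianization map and a Magnus-type derivation -/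
structure Setup (p : ℕ) [Fact p.Prime] (T V E : Type*) [Group T] [AddCommGroup V]
    [AddCommGroup E] [Module (GAadd p V) E] where
  q : T → V
  q_mul : ∀ x y, q (x * y) = q x + q y
  q_surj : Function.Surjective q
  d : T → E
  d_mul : ∀ x y, d (x * y) = d x + ch p (q x) • d y
  del : E →ₗ[GAadd p V] GAadd p V
  del_d : ∀ x, del (d x) = ch p (q x) - 1

/-- the augmentation ideal -/
noncomputable def aug (p : ℕ) [Fact p.Prime] (V : Type*) [AddCommGroup V] : Ideal (GAadd p V) :=
  Ideal.span (Set.range fun v : V => ch p v - 1)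

theorem mem_aug {p : ℕ} [Fact p.Prime] {V : Type*} [AddCommGroup V] (v : V) :
    ch p v - 1 ∈ aug p V := Ideal.subset_span ⟨v, rfl⟩

/-- the norm of `x` with respect to the automorphism `β` -/
def nrm {T : Type*} [Group T] (p : ℕ) (β : MulAut T) (x : T) : T :=
  ((List.range p).map fun k => (β ^ k) x).prod

namespace Setup

variable {p : ℕ} [hp : Fact p.Prime] {T V E : Type*} [Group T] [AddCommGroup V]
  [AddCommGroup E] [Module (GAadd p V) E] (S : Setup p T V E)

theorem q_one : S.q 1 = 0 := by
  have := S.q_mul 1 1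
  rw [mul_one] at this
  simpa using this

theorem d_one : S.d 1 = 0 := by
  have := S.d_mul 1 1
  rw [mul_one, S.q_one, ch_zero, one_smul] at this
  simpa using this

theorem q_inv (x : T) : S.q x⁻¹ = - S.q x := by
  have := S.q_mul x x⁻¹
  rw [mul_inv_cancel, S.q_one] at this
  exact (neg_eq_of_add_eq_zero_right this.symm).symm

theorem q_pow (x : T) (n : ℕ) : S.q (x ^ n) = n • S.q x := by
  induction n with
  | zero => simp [S.q_one]
  | succ n ih => rw [pow_succ, S.q_mul, ih, succ_nsmul]

theorem q_comm (x y : T) : S.q (x * y * x⁻¹ * y⁻¹) = 0 := by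
  simp only [S.q_mul, S.q_inv]; abel

theorem d_comm (x y : T) : S.d (x * y * x⁻¹ * y⁻¹) =
    (ch p (S.q x) - 1) • S.d y - (ch p (S.q y) - 1) • S.d x := by
  have h1 := S.d_mul (x * y * x⁻¹ * y⁻¹) (y * x)
  rw [S.q_comm, ch_zero, one_smul, show x * y * x⁻¹ * y⁻¹ * (y * x) = x * y by group,
    S.d_mul x y, S.d_mul y x] at h1
  rw [eq_sub_of_add_eq h1.symm]
  module

theorem d_pow (x : T) (n : ℕ) : S.d (x ^ n) = (∑ i ∈ range n, ch p (S.q x) ^ i) • S.d x := by
  induction n with
  | zero => simp [S.d_one]
  | succ n ih => rw [pow_succ, S.d_mul, ih, S.q_pow, ch_nsmul, Finset.sum_range_succ, add_smul]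

theorem d_lift {x y : T} (h : S.q x = S.q y) : ∃ m, S.q m = 0 ∧ S.d x = S.d m + S.d y := by
  have h0 : S.q (x * y⁻¹) = 0 := by rw [S.q_mul, S.q_inv, h, add_neg_cancel]
  refine ⟨x * y⁻¹, h0, ?_⟩
  have := S.d_mul (x * y⁻¹) y
  rwa [inv_mul_cancel_right, h0, ch_zero, one_smul] at this

theorem q_range_prod (y : ℕ → T) (n : ℕ) :
    S.q ((List.range n).map y).prod = ∑ l ∈ range n, S.q (y l) := by
  induction n with
  | zero => simp [S.q_one]
  | succ n ih => simp [List.range_succ, S.q_mul, ih, Finset.sum_range_succ]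

theorem d_range_prod (y : ℕ → T) (n : ℕ) :
    S.d ((List.range n).map y).prod =
      ∑ k ∈ range n, ch p (∑ l ∈ range k, S.q (y l)) • S.d (y k) := by
  induction n with
  | zero => simp [S.d_one]
  | succ n ih =>
    rw [List.range_succ, List.map_append, List.prod_append, S.d_mul, ih, S.q_range_prod,
      Finset.sum_range_succ]
    simp

theorem q_ofFn_prod : ∀ (n : ℕ) (y : Fin n → T), S.q (List.ofFn y).prod = ∑ l, S.q (y l) := by
  intro n
  induction n with
  | zero => intro y; simp [S.q_one]
  | succ n ih => intro y; rw [List.ofFn_succ, List.prod_cons, S.q_mul, ih, Fin.sum_univ_succ]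

theorem d_ofFn_prod : ∀ (n : ℕ) (y : Fin n → T), S.d (List.ofFn y).prod =
    ∑ i, (∏ j, if j < i then ch p (S.q (y j)) else 1) • S.d (y i) := by
  intro n
  induction n with
  | zero => intro y; simp [S.d_one]
  | succ n ih =>
    intro y
    rw [List.ofFn_succ, List.prod_cons, S.d_mul, ih, Fin.sum_univ_succ, Finset.smul_sum]
    congr 1
    · simp
    · refine Finset.sum_congr rfl fun i _ => ?_
      rw [Fin.prod_univ_succ, smul_smul]
      simp

theorem d_pow_p (x : T) : S.d (x ^ p) = (ch p (S.q x) - 1) ^ (p - 1) • S.d x := by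
  rw [S.d_pow, geom_char]

variable [Module (ZMod p) V]

/-- an automorphism together with the induced linear map -/
def Ind (β : MulAut T) (b : Module.End (ZMod p) V) : Prop := ∀ x, S.q (β x) = b (S.q x)

variable {S}

theorem Ind.pow {β : MulAut T} {b : Module.End (ZMod p) V} (h : S.Ind β b) (n : ℕ) :
    S.Ind (β ^ n) (b ^ n) := by
  induction n with
  | zero => intro x; simp
  | succ n ih =>
    intro x
    rw [pow_succ', MulAut.mul_apply, h, ih, pow_succ', Module.End.mul_apply]

theorem Ind.pow_p {β : MulAut T} {b : Module.End (ZMod p) V} (h : S.Ind β b) (hβ : β ^ p = 1) :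
    b ^ p = 1 := by
  ext v
  obtain ⟨x, rfl⟩ := S.q_surj v
  rw [← h.pow p x, hβ]; rfl

theorem Ind.norm_zero {β : MulAut T} {b : Module.End (ZMod p) V} (h : S.Ind β b)
    (H : ∀ x, nrm p β x = 1) : ∑ l ∈ range p, b ^ l = 0 := by
  ext v
  obtain ⟨x, rfl⟩ := S.q_surj v
  have := S.q_range_prod (fun k => (β ^ k) x) p
  rw [← nrm, H, S.q_one] at this
  rw [LinearMap.sum_apply, LinearMap.zero_apply, this]
  exact Finset.sum_congr rfl fun l _ => (h.pow l x).symm

theorem Ind.d_nrm {β : MulAut T} {b : Module.End (ZMod p) V} (h : S.Ind β b) (x : T) :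
    S.d (nrm p β x) =
      ∑ k ∈ range p, ch p ((∑ l ∈ range k, b ^ l) (S.q x)) • S.d ((β ^ k) x) := by
  rw [nrm, S.d_range_prod]
  refine Finset.sum_congr rfl fun k _ => ?_
  rw [LinearMap.sum_apply]
  congr 2
  exact Finset.sum_congr rfl fun l _ => h.pow l x

theorem Ind.typeI {β : MulAut T} {b : Module.End (ZMod p) V} (h : S.Ind β b)
    (H : ∀ x, nrm p β x = 1) {σ : Type*} (v : σ → V) (m : T) (hm : S.q m = 0) (U : Finset σ) :
    ∀ w : V, ∑ k ∈ range p, (ch p ((∑ l ∈ range k, b ^ l) w) *
      ∏ s ∈ U, (ch p ((∑ l ∈ range k, b ^ l) (v s)) - 1)) • S.d ((β ^ k) m) = 0 := by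
  classical
  induction U using Finset.induction_on with
  | empty =>
    intro w
    obtain ⟨x, rfl⟩ := S.q_surj w
    have h1 := h.d_nrm (m * x)
    have h2 := h.d_nrm x
    rw [H, S.d_one] at h1 h2
    have := congrArg₂ (fun a c => a - c) h1 h2
    simp only [sub_self] at this
    rw [this, ← Finset.sum_sub_distrib]
    refine Finset.sum_congr rfl fun k _ => ?_
    rw [map_mul, S.d_mul, h.pow k m, hm, map_zero, ch_zero, S.q_mul, hm, zero_add]
    simp
  | insert a U ha ih =>
    intro w
    have := congrArg₂ (fun a c => a - c) (ih (w + v a)) (ih w)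
    simp only [sub_self] at this
    rw [← this, ← Finset.sum_sub_distrib]
    refine Finset.sum_congr rfl fun k _ => ?_
    rw [Finset.prod_insert ha, map_add, ch_add]
    module

variable [Module (ZMod p) E]

/-- the augmentation ideal to the power `p - 1` kills the derived subgroup -/
theorem Ind.class_bound [Finite V] {β : MulAut T} {b : Module.End (ZMod p) V} (h : S.Ind β b)
    (hβ : β ^ p = 1) (H : ∀ x, nrm p β x = 1) :
    ∀ r ∈ aug p V ^ (p - 1), ∀ m, S.q m = 0 → r • S.d m = 0 := by
  classical
  have hfg : (aug p V).FG := Submodule.fg_span (Set.finite_range _)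
  obtain ⟨n0, hn0⟩ := hfg.isNilpotent_iff_le_nilradical.2 (by
    rw [aug, Ideal.span_le]; rintro _ ⟨v, rfl⟩; exact ⟨p, ch_sub_pow v⟩)
  have step : ∀ n, (∀ r ∈ aug p V ^ (p - 1 + n + 1), ∀ m, S.q m = 0 → r • S.d m = 0) →
      ∀ r ∈ aug p V ^ (p - 1 + n), ∀ m, S.q m = 0 → r • S.d m = 0 := by
    intro n ih
    have key : ∀ r0 ∈ aug p V ^ n, ∀ (v : Fin (p - 1) → V) (m : T), S.q m = 0 →
        ((∏ s, (ch p (v s) - 1)) * r0) • S.d m = 0 := by
      intro r0 hr0
      obtain ⟨F, hF⟩ := exists_ML (p := p) (σ := Fin (p - 1)) (V := V)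
        (W := {m : T // S.q m = 0} → E)
        (fun v m => ((∏ s, (ch p (v s) - 1)) * r0) • S.d m) (by
          intro v s x y
          funext m
          simp only [Pi.add_apply]
          rw [prod_update_in (fun u => ch p u - 1) _ _ _ (mem_univ s),
            prod_update_in (fun u => ch p u - 1) _ _ _ (mem_univ s),
            prod_update_in (fun u => ch p u - 1) _ _ _ (mem_univ s), ch_add]
          have a1 := prod_mem_pow (aug p V) (univ.erase s) (fun t => ch p (v t) - 1)
            fun t _ => mem_aug _
          rw [Finset.card_erase_of_mem (mem_univ s), Finset.card_univ, Fintype.card_fin] at a1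
          have a2 := Ideal.mul_mem_mul (Ideal.mul_mem_mul (Ideal.mul_mem_mul (mem_aug (p := p) x)
            (mem_aug (p := p) y)) a1) hr0
          have hs := s.pos
          rw [← pow_two, ← pow_add, ← pow_add,
            show 2 + (p - 1 - 1) + n = p - 1 + n + 1 by omega] at a2
          have a3 := ih _ a2 m m.2
          linear_combination (norm := module) a3)
      let f : {m : T // S.q m = 0} → {m : T // S.q m = 0} :=
        fun m => ⟨β m, by rw [h, m.2, map_zero]⟩
      let γ : Module.End (ZMod p) ({m : T // S.q m = 0} → E) := LinearMap.funLeft _ _ f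
      have hγ : ∀ (k : ℕ) (G : {m : T // S.q m = 0} → E) (m : {m : T // S.q m = 0}),
          (γ ^ k) G m = G ⟨(β ^ k) m, by rw [h.pow k, m.2, map_zero]⟩ := by
        intro k
        induction k with
        | zero => intro G m; simp
        | succ k ihk =>
          intro G m
          rw [pow_succ, Module.End.mul_apply, ihk]
          simp only [γ, LinearMap.funLeft_apply, f]
          congr 2
          rw [pow_succ', MulAut.mul_apply]
      have hF0 : F = 0 := by
        refine slot_unit (by simp) b γ (h.pow_p hβ) ?_ F fun v => ?_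
        · refine LinearMap.ext fun G => funext fun m => ?_
          rw [hγ]
          simp [hβ]
        · funext m
          rw [Finset.sum_apply]
          have := congrArg (fun y => r0 • y) (h.typeI H v m m.2 univ 0)
          simp only [smul_zero, Finset.smul_sum] at this
          rw [Pi.zero_apply, ← this]
          refine Finset.sum_congr rfl fun k _ => ?_
          rw [hγ, hF]
          simp only [map_zero, ch_zero, one_mul, smul_smul, mul_comm r0]
      intro v m hm
      have := congrFun (hF v) ⟨m, hm⟩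
      rw [hF0] at this
      exact this.symm
    intro r hr m hm
    rw [pow_add] at hr
    refine Submodule.mul_induction_on hr (fun a ha c hc => ?_) (fun x y hx hy => ?_)
    · have ha' := pow_span_le (fun v : V => ch p v - 1) (p - 1) ha
      clear ha
      induction ha' using Submodule.span_induction with
      | mem x hx => obtain ⟨g, rfl⟩ := hx; exact key c hc g m hm
      | zero => simp
      | add x y _ _ hx hy => rw [add_mul, add_smul, hx, hy, add_zero]
      | smul t x _ hx => rw [smul_eq_mul, mul_assoc, mul_smul, hx, smul_zero]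
    · rw [add_smul, hx, hy, add_zero]
  have down : ∀ n, (∀ r ∈ aug p V ^ (p - 1 + n), ∀ m, S.q m = 0 → r • S.d m = 0) →
      ∀ r ∈ aug p V ^ (p - 1), ∀ m, S.q m = 0 → r • S.d m = 0 := by
    intro n
    induction n with
    | zero => exact fun h => h
    | succ n ih => exact fun h => ih (step n h)
  refine down n0 fun r hr m _ => ?_
  rw [pow_add, hn0] at hr
  simp only [Ideal.zero_eq_bot, Ideal.mul_bot, Ideal.mem_bot] at hr
  rw [hr, zero_smul]

end Setup

end Pool.Agent.Lib.MP_6d9b00_al
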