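import Mathlib
import Pool.Agent.Lib.MP_6d9b00_al.MetaCore1

set_option autoImplicit false

namespace Pool.Agent.Lib.MP_6d9b00_al

open Finset

theorem single_split {ι : Type*} (ν : ι →₀ ℕ) (l : ι) (n : ℕ) (h : n ≤ ν l) :
    ∃ ν', ν = ν' + Finsupp.single l n := by
  obtain ⟨ν', h'⟩ := exists_add_of_le (Finsupp.single_le_iff.2 h)
  exact ⟨ν', by rw [h', add_comm]⟩

theorem exists_index {ι σ : Type*} [Fintype σ] [DecidableEq σ] (g : σ → ι) (ν : ι →₀ ℕ) (l : ι)
    (h : ν + Finsupp.single l 1 = ∑ s, Finsupp.single (g s) 1) :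
    ∃ i, g i = l ∧ ν = ∑ s ∈ univ.erase i, Finsupp.single (g s) 1 := by
  classical
  have h1 : ∃ i, g i = l := by
    by_contra hc
    push Not at hc
    have := congrArg (fun f => f l) h
    simp [Finsupp.finsetSum_apply, hc] at this
  obtain ⟨i, rfl⟩ := h1
  refine ⟨i, rfl, ?_⟩
  rw [← Finset.sum_erase_add _ _ (mem_univ i)] at h
  exact add_right_cancel h

namespace Setup

variable {p : ℕ} [hp : Fact p.Prime] {T V E : Type*} [Group T] [AddCommGroup V]
  [AddCommGroup E] [Module (GAadd p V) E] (S : Setup p T V E)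

/-- the class bound -/
def Cls : Prop := ∀ r ∈ aug p V ^ (p - 1), ∀ m, S.q m = 0 → r • S.d m = 0

/-- the part of filtration degree above `p` -/
noncomputable def NN : Submodule (GAadd p V) E :=
  aug p V ^ p • Submodule.span (GAadd p V) (Set.range S.d)

/-- a section of the abelianization map -/
noncomputable def sec (v : V) : T := Function.surjInv S.q_surj v

theorem q_sec (v : V) : S.q (S.sec v) = v := Function.surjInv_eq _ v

theorem mem_NN {r : GAadd p V} (hr : r ∈ aug p V ^ p) (x : T) : r • S.d x ∈ S.NN :=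
  Submodule.smul_mem_smul hr (Submodule.subset_span ⟨x, rfl⟩)

variable {S}

theorem Cls.lift (hP : S.Cls) {r : GAadd p V} (hr : r ∈ aug p V ^ (p - 1)) {x y : T}
    (h : S.q x = S.q y) : r • S.d x = r • S.d y := by
  obtain ⟨m, hm, e⟩ := S.d_lift h
  rw [e, smul_add, hP r hr m hm, zero_add]

theorem prod_erase_mem {σ : Type*} [Fintype σ] [DecidableEq σ] (hcard : Fintype.card σ = p)
    (i : σ) (v : σ → V) : ∏ s ∈ univ.erase i, (ch p (v s) - 1) ∈ aug p V ^ (p - 1) := by
  have := prod_mem_pow (aug p V) (univ.erase i) (fun t => ch p (v t) - 1) fun t _ => mem_aug _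
  rwa [Finset.card_erase_of_mem (mem_univ i), Finset.card_univ, hcard] at this

theorem mul_mem_top {a r : GAadd p V} (ha : a ∈ aug p V) (hr : r ∈ aug p V ^ (p - 1)) :
    a * r ∈ aug p V ^ p := by
  have := Ideal.mul_mem_mul ha hr
  rwa [← pow_succ', Nat.sub_add_cancel hp.out.one_le] at this

variable [Module (ZMod p) V]

theorem Cls.central (hP : S.Cls) (x : T) : ∀ r ∈ aug p V, r • S.d (x ^ p) = 0 := by
  intro r hr
  induction hr using Submodule.span_induction with
  | mem r hr =>
    obtain ⟨v, rfl⟩ := hr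
    obtain ⟨y, rfl⟩ := S.q_surj v
    have h1 := hP _ (Ideal.pow_mem_pow (mem_aug (S.q x)) (p - 1)) _ (S.q_comm x y)
    have h2 : (ch p (S.q x) - 1) ^ (p - 1) * (ch p (S.q x) - 1) = 0 := by
      rw [← pow_succ, Nat.sub_add_cancel hp.out.one_le, ch_sub_pow]
    rw [S.d_comm, smul_sub, smul_smul, h2, zero_smul, zero_sub, neg_eq_zero, smul_comm] at h1
    rw [S.d_pow_p]; exact h1
  | zero => simp
  | add a c _ _ ha hc => rw [add_smul, ha, hc, add_zero]
  | smul c a _ ha => rw [smul_eq_mul, mul_smul, ha, smul_zero]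

theorem aug_le {ι : Type*} (w : Module.Basis ι (ZMod p) V) :
    aug p V ≤ Ideal.span (Set.range fun l => ch p (w l) - 1) := by
  rw [aug, Ideal.span_le]
  rintro _ ⟨v, rfl⟩
  refine basis_ind w (fun v => ch p v - 1 ∈ Ideal.span (Set.range fun l => ch p (w l) - 1))
    (by simp [ch_zero]) (fun u v hu hv => ?_) (fun l => Ideal.subset_span ⟨l, rfl⟩) v
  have : ch p (u + v) - 1 = ch p v * (ch p u - 1) + (ch p v - 1) := by rw [ch_add]; ring
  rw [this]
  exact Ideal.add_mem _ (Ideal.mul_mem_left _ _ hu) hv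

variable [Module (ZMod p) E] [IsScalarTower (ZMod p) (GAadd p V) E]

theorem Cls.NN_le (hP : S.Cls) {ι : Type*} (w : Module.Basis ι (ZMod p) V)
    (good : (ι →₀ ℕ) → Prop) (hup : ∀ μ l, good μ → good (μ + Finsupp.single l 1))
    (hdeg : ∀ μ, p + 1 ≤ μ.degree → good μ) :
    ∀ y ∈ S.NN, y ∈ GS (ZMod p) (fun l => ch p (w l) - 1) (fun l => S.d (S.sec (w l))) good := by
  set G := GS (ZMod p) (fun l => ch p (w l) - 1) (fun l => S.d (S.sec (w l))) good with hG
  have hsm := GS_smul (K := ZMod p) (fun l => ch p (w l) - 1) (fun l => S.d (S.sec (w l))) good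
    (phi_surj w) hup
  have hle : aug p V ^ p ≤ aug p V ^ (p - 1) := Ideal.pow_le_pow_right (Nat.sub_le _ _)
  have h1 : ∀ v, ∀ r ∈ aug p V ^ p, r • S.d (S.sec v) ∈ G := by
    refine basis_ind w _ (fun r hr => ?_) (fun u v hu hv r hr => ?_) (fun l r hr => ?_)
    · rw [hP r (hle hr) _ (S.q_sec 0)]; exact G.zero_mem
    · rw [hP.lift (hle hr) (y := S.sec u * S.sec v) (by rw [S.q_mul, S.q_sec, S.q_sec, S.q_sec]),
        S.d_mul, smul_add, smul_smul]
      exact G.add_mem (hu r hr) (hv _ (Ideal.mul_mem_right _ _ hr))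
    · have hr' := pow_span_le _ p (Ideal.pow_right_mono (aug_le w) p hr)
      clear hr
      induction hr' using Submodule.span_induction with
      | mem x hx =>
        obtain ⟨g, rfl⟩ := hx
        refine Submodule.subset_span ⟨∑ s, Finsupp.single (g s) 1, l, hdeg _ ?_, ?_⟩
        · simp [map_sum]
        · rw [op_sum]
      | zero => simp
      | add a c _ _ ha hc => rw [add_smul]; exact G.add_mem ha hc
      | smul c a _ ha => rw [smul_eq_mul, mul_smul]; exact hsm _ _ ha
  intro y hy
  refine Submodule.smul_induction_on hy (fun r hr x hx => ?_) (fun a c ha hc => G.add_mem ha hc)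
  induction hx using Submodule.span_induction generalizing r with
  | mem x hx =>
    obtain ⟨x, rfl⟩ := hx
    rw [hP.lift (hle hr) (y := S.sec (S.q x)) (by rw [S.q_sec])]
    exact h1 _ r hr
  | zero => simp
  | add a c _ _ ha hc => rw [smul_add]; exact G.add_mem (ha r hr) (hc r hr)
  | smul c a _ ha => rw [smul_smul]; exact ha _ (Ideal.mul_mem_right _ _ hr)

omit [Module (ZMod p) E] [IsScalarTower (ZMod p) (GAadd p V) E] in
theorem Cls.ha_high (hP : S.Cls) {ι : Type*} (w : Module.Basis ι (ZMod p) V) (ν ν' : ι →₀ ℕ)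
    (l l' : ι) (h : ν + Finsupp.single l 1 = ν' + Finsupp.single l' 1)
    (hg : p + 1 ≤ (ν + Finsupp.single l 1).degree) :
    op (ZMod p) (fun l => ch p (w l) - 1) ν • S.d (S.sec (w l)) =
      op (ZMod p) (fun l => ch p (w l) - 1) ν' • S.d (S.sec (w l')) := by
  by_cases hl : l = l'
  · subst hl; rw [add_right_cancel h]
  have h1 : 1 ≤ ν l' := by
    have := congrArg (fun f => f l') h
    simp only [Finsupp.add_apply, Finsupp.single_eq_same, Finsupp.single_eq_of_ne (Ne.symm hl)]
      at this
    omega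
  obtain ⟨μ, rfl⟩ := single_split ν l' 1 h1
  rw [add_right_comm] at h
  obtain rfl := add_right_cancel h
  have h2 := op_mem (K := ZMod p) (fun l => ch p (w l) - 1) (aug p V) (fun l => mem_aug _) μ
  simp only [map_add, Finsupp.degree_single] at hg
  have h3 := hP _ (Ideal.pow_le_pow_right (by omega) h2) _
    (S.q_comm (S.sec (w l')) (S.sec (w l)))
  rw [S.d_comm, S.q_sec, S.q_sec] at h3
  rw [op_add, op_add, op_single, op_single]
  linear_combination (norm := module) h3

omit [Module (ZMod p) E] [IsScalarTower (ZMod p) (GAadd p V) E] in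
theorem op_split {ι : Type*} (w : Module.Basis ι (ZMod p) V) (μ : ι →₀ ℕ) (l : ι) :
    op (ZMod p) (fun l => ch p (w l) - 1) (μ + Finsupp.single l (p - 1)) • S.d (S.sec (w l)) =
      op (ZMod p) (fun l => ch p (w l) - 1) μ • S.d (S.sec (w l) ^ p) := by
  rw [op_add, op_single, mul_smul, S.d_pow_p, S.q_sec]

omit [Module (ZMod p) E] [IsScalarTower (ZMod p) (GAadd p V) E] in
theorem Cls.hb_high (hP : S.Cls) {ι : Type*} (w : Module.Basis ι (ZMod p) V) (ν : ι →₀ ℕ)
    (l : ι) (h : p ≤ ν l + 1) (hg : p + 1 ≤ (ν + Finsupp.single l 1).degree) :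
    op (ZMod p) (fun l => ch p (w l) - 1) ν • S.d (S.sec (w l)) = 0 := by
  obtain ⟨μ, rfl⟩ := single_split ν l (p - 1) (by omega)
  rw [op_split]
  have h2 := op_mem (K := ZMod p) (fun l => ch p (w l) - 1) (aug p V) (fun l => mem_aug _) μ
  simp only [map_add, Finsupp.degree_single] at hg
  have := hp.out.one_le
  exact hP.central _ _ (Ideal.pow_le_self (by omega) h2)

theorem Cls.inj (hP : S.Cls) {ι : Type*} (w : Module.Basis ι (ZMod p) V) (y : E) (hy : y ∈ S.NN)
    (h0 : S.del y = 0) : y = 0 :=
  lemmaG (K := ZMod p) (fun l => ch p (w l) - 1) (fun l => S.d (S.sec (w l))) S.del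
    (fun l => by rw [S.del_d, S.q_sec]) p hp.out.pos (phi_ker w)
    (fun μ => p + 1 ≤ μ.degree) (hP.ha_high w) (hP.hb_high w) y
    (hP.NN_le w _ (fun μ l h => by simp only [map_add]; omega) (fun _ h => h) y hy) h0

theorem Cls.exists_eps (hP : S.Cls) {σ : Type*} [Fintype σ] [DecidableEq σ]
    (hcard : Fintype.card σ = p) (i : σ) :
    ∃ ε : ML p σ V (E ⧸ S.NN), ∀ (v : σ → V) (x : T), S.q x = v i →
      ε v = S.NN.mkQ ((∏ s ∈ univ.erase i, (ch p (v s) - 1)) • S.d x) := by
  obtain ⟨ε, hε⟩ := exists_ML (p := p) (σ := σ) (V := V) (W := E ⧸ S.NN)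
    (fun v => S.NN.mkQ ((∏ s ∈ univ.erase i, (ch p (v s) - 1)) • S.d (S.sec (v i)))) (by
      intro v s x y
      rw [← map_add, Submodule.mkQ_apply, Submodule.mkQ_apply, Submodule.Quotient.eq]
      by_cases hs : s = i
      · subst hs
        simp only [prod_update_out (fun u => ch p u - 1) _ v s (Finset.notMem_erase s univ),
          Function.update_self]
        have a1 := prod_erase_mem hcard s v
        rw [hP.lift a1 (y := S.sec x * S.sec y) (by rw [S.q_mul, S.q_sec, S.q_sec, S.q_sec]),
          S.d_mul, S.q_sec]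
        have := S.mem_NN (mul_mem_top (mem_aug x) a1) (S.sec y)
        convert this using 1
        module
      · have hs' : s ∈ univ.erase i := by simp [hs]
        have a1 := prod_erase_mem hcard i (Function.update v s y)
        simp only [prod_update_in (fun u => ch p u - 1) _ v s hs',
          Function.update_of_ne (Ne.symm hs)] at a1 ⊢
        have := S.mem_NN (mul_mem_top (mem_aug x) a1) (S.sec (v i))
        convert this using 1
        rw [ch_add]
        module)
  refine ⟨ε, fun v x hx => ?_⟩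
  rw [hε, hP.lift (prod_erase_mem hcard i v) (y := x) (by rw [S.q_sec, hx])]

omit [Module (ZMod p) E] [IsScalarTower (ZMod p) (GAadd p V) E] in
theorem Ind.typeII {β : MulAut T} {b : Module.End (ZMod p) V} (h : S.Ind β b)
    (H : ∀ x, nrm p β x = 1) (n : ℕ) (x : Fin n → T) :
    ∑ i : Fin n, ∑ k ∈ range p, (∏ j, (ch p ((if j < i then ∑ l ∈ range (k + 1), b ^ l
      else ∑ l ∈ range k, b ^ l) (S.q (x j))) + if j = i then 0 else -1)) •
        S.d ((β ^ k) (x i)) = 0 := by
  have key : ∀ U : Finset (Fin n), ∑ i : Fin n, ∑ k ∈ range p,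
      ((∏ j ∈ U, ch p ((if j < i then ∑ l ∈ range (k + 1), b ^ l
        else ∑ l ∈ range k, b ^ l) (S.q (x j)))) * ∏ j ∈ univ \ U, if j = i then 0 else -1) •
          S.d ((β ^ k) (x i)) = 0 := by
    intro U
    set y : Fin n → T := fun j => if j ∈ U then x j else 1 with hy
    have h1 := h.d_nrm (List.ofFn y).prod
    rw [H, S.d_one] at h1
    have h2 := congrArg (fun z => (∏ _j ∈ univ \ U, (-1 : GAadd p V)) • z) h1
    simp only [smul_zero] at h2
    rw [Finset.sum_comm, h2, Finset.smul_sum]
    refine Finset.sum_congr rfl fun k _ => ?_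
    rw [map_list_prod, List.map_ofFn, S.d_ofFn_prod, S.q_ofFn_prod, map_sum, ch_sum,
      Finset.smul_sum, Finset.smul_sum]
    refine Finset.sum_congr rfl fun i _ => ?_
    by_cases hi : i ∈ U
    · have e1 : (∏ j ∈ univ \ U, if j = i then (0 : GAadd p V) else -1) = ∏ _j ∈ univ \ U, -1 := by
        refine Finset.prod_congr rfl fun j hj => if_neg ?_
        rintro rfl
        exact (Finset.mem_sdiff.1 hj).2 hi
      rw [e1, smul_smul, smul_smul, mul_comm, mul_assoc, ← Finset.prod_mul_distrib]
      simp only [Function.comp_apply, hy, hi, if_true]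
      congr 2
      rw [← Finset.prod_filter_mul_prod_filter_not univ (fun j => j ∈ U)]
      simp only [Finset.filter_mem_eq_inter, Finset.univ_inter]
      rw [Finset.prod_eq_one (s := univ.filter fun j => j ∉ U), mul_one]
      · refine Finset.prod_congr rfl fun j hj => ?_
        simp only [hj, if_true]
        split_ifs
        · rw [Finset.sum_range_succ, LinearMap.add_apply, ch_add, h.pow k]
        · rw [mul_one]
      · intro j hj
        have hj' : j ∉ U := (Finset.mem_filter.1 hj).2
        simp [hj', S.q_one, ch_zero]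
    · have e1 : (∏ j ∈ univ \ U, if j = i then (0 : GAadd p V) else -1) = 0 :=
        Finset.prod_eq_zero (i := i) (by simp [hi]) (by simp)
      simp [e1, hy, hi, S.d_one]
  simp_rw [Finset.prod_add, Finset.sum_smul]
  simp_rw [Finset.sum_comm (s := range p) (t := univ.powerset)]
  rw [Finset.sum_comm]
  exact Finset.sum_eq_zero fun U _ => key U

theorem Cls.sym (hP : S.Cls) (hp2 : p ≠ 2) {ι : Type*} (w : Module.Basis ι (ZMod p) V)
    {β : MulAut T} {b : Module.End (ZMod p) V} (h : S.Ind β b) (hβ : β ^ p = 1)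
    (H : ∀ x, nrm p β x = 1) (e : Fin p → ℕ) (he : p - 1 ≤ ∑ s, e s) (v : Fin p → V)
    (hv : ∀ s, v s ∈ LinearMap.range ((b - 1) ^ e s)) (i j : Fin p) :
    (∏ s ∈ univ.erase i, (ch p (v s) - 1)) • S.d (S.sec (v i)) =
      (∏ s ∈ univ.erase j, (ch p (v s) - 1)) • S.d (S.sec (v j)) := by
  choose ε hε using fun i => hP.exists_eps (Fintype.card_fin p) i
  choose u hu using hv
  have key := slot_sym hp2 b (h.pow_p hβ) (h.norm_zero H) ε
    (fun i j hij v => by
      have a1 := h.typeI H v _ (S.q_comm (S.sec (v j)) (S.sec (v i))) ((univ.erase i).erase j) 0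
      have a2 := congrArg S.NN.mkQ a1
      rw [map_zero, map_sum] at a2
      rw [← a2]
      refine Finset.sum_congr rfl fun k _ => ?_
      rw [_root_.sub_apply, hε i _ ((β ^ k) (S.sec (v i))) (by simp [h.pow k _, S.q_sec]),
        hε j _ ((β ^ k) (S.sec (v j))) (by simp [h.pow k _, S.q_sec]), ← map_sub]
      congr 1
      rw [map_mul, map_mul, map_mul, map_inv, map_inv, S.d_comm, h.pow k, h.pow k, S.q_sec,
        S.q_sec, ← Finset.mul_prod_erase (univ.erase i) _ (a := j) (by simp [hij.symm]),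
        ← Finset.mul_prod_erase (univ.erase j) _ (a := i) (by simp [hij]),
        Finset.erase_right_comm (a := j) (b := i)]
      have e1 : ∏ s ∈ (univ.erase i).erase j, (ch p ((if s = i ∨ s = j then b ^ k
          else ∑ l ∈ range k, b ^ l) (v s)) - 1) =
          ∏ s ∈ (univ.erase i).erase j, (ch p ((∑ l ∈ range k, b ^ l) (v s)) - 1) := by
        refine Finset.prod_congr rfl fun s hs => ?_
        simp only [mem_erase, mem_univ, and_true] at hs
        rw [if_neg (by tauto)]
      rw [e1]
      simp only [or_true, true_or, if_true, map_zero, ch_zero, one_mul]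
      module)
    (fun v => by
      have a2 := congrArg S.NN.mkQ (h.typeII H p fun s => S.sec (v s))
      rw [map_zero, map_sum] at a2
      rw [← a2]
      refine Finset.sum_congr rfl fun i _ => ?_
      rw [map_sum]
      refine Finset.sum_congr rfl fun k _ => ?_
      rw [hε i _ ((β ^ k) (S.sec (v i))) (by simp [h.pow k _, S.q_sec]),
        ← Finset.mul_prod_erase univ _ (mem_univ i), Submodule.mkQ_apply, Submodule.mkQ_apply,
        eq_comm, Submodule.Quotient.eq]
      simp only [S.q_sec, lt_irrefl, if_false, if_true, add_zero]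
      have e1 : ∏ s ∈ univ.erase i, (ch p ((if s < i then ∑ l ∈ range (k + 1), b ^ l
          else ∑ l ∈ range k, b ^ l) (v s)) + if s = i then 0 else -1) =
          ∏ s ∈ univ.erase i, (ch p ((if s < i then ∑ l ∈ range (k + 1), b ^ l
          else if s = i then b ^ k else ∑ l ∈ range k, b ^ l) (v s)) - 1) := by
        refine Finset.prod_congr rfl fun s hs => ?_
        have hs' := Finset.ne_of_mem_erase hs
        simp only [hs', if_false, sub_eq_add_neg]
      rw [e1]
      have := S.mem_NN (mul_mem_top (mem_aug ((∑ l ∈ range k, b ^ l) (v i)))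
        (prod_erase_mem (Fintype.card_fin p) i fun s => (if s < i then ∑ l ∈ range (k + 1), b ^ l
          else if s = i then b ^ k else ∑ l ∈ range k, b ^ l) (v s))) ((β ^ k) (S.sec (v i)))
      convert this using 1
      module)
    e he u i j
  have hv' : (fun s => ((b - 1) ^ e s) (u s)) = v := funext hu
  rw [hv', hε i v _ (S.q_sec _), hε j v _ (S.q_sec _), Submodule.mkQ_apply, Submodule.mkQ_apply,
    Submodule.Quotient.eq] at key
  rw [← sub_eq_zero]
  refine hP.inj w _ key ?_
  rw [map_sub, map_smul, map_smul, S.del_d, S.del_d, S.q_sec, S.q_sec, smul_eq_mul, smul_eq_mul,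
    Finset.prod_erase_mul univ (fun s => ch p (v s) - 1) (mem_univ i),
    Finset.prod_erase_mul univ (fun s => ch p (v s) - 1) (mem_univ j), sub_self]

end Setup

end Pool.Agent.Lib.MP_6d9b00_al
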