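import Mathlib
import Pool.Agent.Lib.MP_6d9b00_al.MetaCore2

set_option autoImplicit false

namespace Pool.Agent.Lib.MP_6d9b00_al

open Finset

/-- the monomials on which the top layer is symmetric -/
def good2 {ι : Type*} (p : ℕ) (wt : ι → ℕ) (e : ℕ) (μ : ι →₀ ℕ) : Prop :=
  p + 1 ≤ μ.degree ∨ (μ.degree = p ∧ p * e + (p - 1) ≤ Finsupp.weight wt μ)

theorem good2_up {ι : Type*} (p : ℕ) (wt : ι → ℕ) (e : ℕ) (μ : ι →₀ ℕ) (l : ι)
    (h : good2 p wt e μ) : good2 p wt e (μ + Finsupp.single l 1) := by
  left
  rw [map_add, Finsupp.degree_single]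
  rcases h with h | h <;> omega

theorem sub_const_mem {K σ : Type*} [CommRing K] (r : MvPolynomial σ K) :
    r - MvPolynomial.C (MvPolynomial.constantCoeff r) ∈
      Ideal.span (Set.range (MvPolynomial.X : σ → MvPolynomial σ K)) := by
  induction r using MvPolynomial.induction_on with
  | C a => simp
  | add P Q hP hQ =>
    have := Ideal.add_mem _ hP hQ
    convert this using 1
    simp only [map_add]; ring
  | mul_X P l _ =>
    simp only [map_mul, MvPolynomial.constantCoeff_X, map_zero, mul_zero, sub_zero]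
    exact Ideal.mul_mem_left _ _ (Ideal.subset_span ⟨l, rfl⟩)

theorem aeval_mem_pow {K σ O : Type*} [CommRing K] [CommRing O] [Algebra K O] (f : σ → O)
    (I : Ideal O) (hf : ∀ l, f l ∈ I) (n : ℕ) (P : MvPolynomial σ K)
    (hP : P ∈ Ideal.span (Set.range (MvPolynomial.X : σ → MvPolynomial σ K)) ^ n) :
    MvPolynomial.aeval f P ∈ I ^ n := by
  have h1 : Ideal.map (MvPolynomial.aeval (R := K) f)
      (Ideal.span (Set.range (MvPolynomial.X : σ → MvPolynomial σ K))) ≤ I := by
    rw [Ideal.map_le_iff_le_comap, Ideal.span_le]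
    rintro _ ⟨l, rfl⟩
    simpa using hf l
  have h2 := Ideal.mem_map_of_mem (MvPolynomial.aeval (R := K) f) hP
  rw [Ideal.map_pow] at h2
  exact Ideal.pow_right_mono h1 n h2

theorem range_pow_anti {K V : Type*} [Field K] [AddCommGroup V] [Module K V]
    (N : Module.End K V) {e e' : ℕ} (h : e ≤ e') :
    LinearMap.range (N ^ e') ≤ LinearMap.range (N ^ e) := by
  obtain ⟨c, rfl⟩ := Nat.exists_eq_add_of_le h
  rintro _ ⟨v, rfl⟩
  exact ⟨(N ^ c) v, by rw [pow_add]; rfl⟩

namespace Setup

variable {p : ℕ} [hp : Fact p.Prime] {T V E : Type*} [Group T] [AddCommGroup V]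
  [AddCommGroup E] [Module (GAadd p V) E] {S : Setup p T V E} [Module (ZMod p) V]
  [Module (ZMod p) E] [IsScalarTower (ZMod p) (GAadd p V) E]

theorem Cls.sum_mem (hP : S.Cls) {ι : Type*} (w : Module.Basis ι (ZMod p) V) (wt : ι → ℕ)
    {β : MulAut T} {b : Module.End (ZMod p) V} (h : S.Ind β b) (hβ : β ^ p = 1)
    (hw2 : ∀ e v, v ∈ LinearMap.range ((b - 1) ^ e) → ∀ l, w.repr v l ≠ 0 → e ≤ wt l)
    (e : ℕ) (y : ℕ → T) (hy : ∀ l, S.q (y l) ∈ LinearMap.range ((b - 1) ^ e)) (κ : ℕ → ℕ) (k : ℕ)
    (P : MvPolynomial ℕ (ZMod p)) (hPm : P ∈ Ideal.span (Set.range MvPolynomial.X) ^ (p - 1)) :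
    ∑ j ∈ range p, MvPolynomial.aeval (fun l => ch p (S.q ((β ^ (j * κ l)) (y l))) - 1) P •
      S.d ((β ^ (j * κ k)) (y k)) ∈
      GS (ZMod p) (fun l => ch p (w l) - 1) (fun l => S.d (S.sec (w l))) (good2 p wt e) := by
  classical
  set G := GS (ZMod p) (fun l => ch p (w l) - 1) (fun l => S.d (S.sec (w l))) (good2 p wt e)
    with hG
  have hNG : ∀ y ∈ S.NN, y ∈ G := hP.NN_le w _ (good2_up p wt e) fun _ h => Or.inl h
  have hp1 := hp.out.one_le
  have cA : ∀ P : MvPolynomial ℕ (ZMod p), P ∈ Ideal.span (Set.range MvPolynomial.X) ^ p →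
      ∑ j ∈ range p, MvPolynomial.aeval (fun l => ch p (S.q ((β ^ (j * κ l)) (y l))) - 1) P •
        S.d ((β ^ (j * κ k)) (y k)) ∈ G := fun P hP =>
    G.sum_mem fun j _ => hNG _ (S.mem_NN (aeval_mem_pow _ _ (fun l => mem_aug _) p P hP) _)
  have cB : ∀ g : Fin (p - 1) → ℕ,
      ∑ j ∈ range p, MvPolynomial.aeval (fun l => ch p (S.q ((β ^ (j * κ l)) (y l))) - 1)
        (∏ s, (MvPolynomial.X (g s) : MvPolynomial ℕ (ZMod p))) •
          S.d ((β ^ (j * κ k)) (y k)) ∈ G := by
    intro g
    have hcard : Fintype.card (Option (Fin (p - 1))) = p := by simp; omega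
    obtain ⟨ε, hε⟩ := hP.exists_eps hcard none
    let idx : Option (Fin (p - 1)) → ℕ := fun s => s.elim k g
    have a1 := slot_sum b (h.pow_p hβ) ε (G.map (S.NN.mkQ.restrictScalars (ZMod p)))
      (p * e + (p - 1))
      (fun e' v hv he => by
        have e1 : v = fun s => ∑ l ∈ (w.repr (v s)).support, w.repr (v s) l • w l := by
          funext s
          conv_lhs => rw [← w.linearCombination_repr (v s), Finsupp.linearCombination_apply]
          rfl
        rw [e1, ε.map_sum_finset]
        refine Submodule.sum_mem _ fun r hr => ?_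
        rw [ε.map_smul_univ]
        refine Submodule.smul_mem _ _ ?_
        rw [hε _ (S.sec (w (r none))) (S.q_sec _)]
        refine ⟨_, Submodule.subset_span ⟨∑ s ∈ univ.erase none, Finsupp.single (r s) 1, r none,
          ?_, rfl⟩, ?_⟩
        · right
          rw [Finset.sum_erase_add _ _ (mem_univ none)]
          constructor
          · simp only [map_sum, Finsupp.degree_single, Finset.sum_const, Finset.card_univ, hcard,
              smul_eq_mul, mul_one]
          · simp only [map_sum, Finsupp.weight_single, one_smul]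
            refine he.trans (Finset.sum_le_sum fun s _ => hw2 _ _ (hv s) _ ?_)
            exact Finsupp.mem_support_iff.1 (Fintype.mem_piFinset.1 hr s)
        · rw [op_sum]; rfl)
      (fun _ => e) (fun s => S.q (y (idx s))) (fun s => hy _)
      (by simp only [Finset.sum_const, Finset.card_univ, hcard, smul_eq_mul]; exact le_rfl)
      (fun s => κ (idx s))
    obtain ⟨z, hz, hz'⟩ := a1
    have e2 : (univ.erase none : Finset (Option (Fin (p - 1)))) =
        univ.map Function.Embedding.some := by
      ext s; cases s <;> simp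
    have e3 : ∑ j ∈ range p, ε (fun s => (b ^ (j * κ (idx s))) (S.q (y (idx s)))) =
        S.NN.mkQ (∑ j ∈ range p, MvPolynomial.aeval
          (fun l => ch p (S.q ((β ^ (j * κ l)) (y l))) - 1)
          (∏ s, (MvPolynomial.X (g s) : MvPolynomial ℕ (ZMod p))) •
            S.d ((β ^ (j * κ k)) (y k))) := by
      rw [map_sum]
      refine Finset.sum_congr rfl fun j _ => ?_
      rw [hε _ ((β ^ (j * κ k)) (y k)) (h.pow _ _), e2, Finset.prod_map, map_prod]
      simp only [MvPolynomial.aeval_X, h.pow _ _]
      rfl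
    rw [e3, LinearMap.restrictScalars_apply, Submodule.mkQ_apply, Submodule.mkQ_apply,
      Submodule.Quotient.eq] at hz'
    have := G.sub_mem hz (hNG _ hz')
    rwa [sub_sub_cancel] at this
  have hP' := pow_span_le _ (p - 1) hPm
  have main : ∀ r : MvPolynomial ℕ (ZMod p),
      ∑ j ∈ range p, MvPolynomial.aeval (fun l => ch p (S.q ((β ^ (j * κ l)) (y l))) - 1) (r * P) •
        S.d ((β ^ (j * κ k)) (y k)) ∈ G := by
    clear hPm
    induction hP' using Submodule.span_induction with
    | mem x hx =>
      obtain ⟨g, rfl⟩ := hx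
      intro r
      have b1 := prod_mem_pow (Ideal.span (Set.range (MvPolynomial.X : ℕ → MvPolynomial ℕ (ZMod p))))
        univ (fun s => MvPolynomial.X (g s)) fun s _ => Ideal.subset_span ⟨g s, rfl⟩
      rw [Finset.card_univ, Fintype.card_fin] at b1
      have b2 := Ideal.mul_mem_mul (sub_const_mem r) b1
      rw [← pow_succ', Nat.sub_add_cancel hp1] at b2
      have := G.add_mem (cA _ b2) (G.smul_mem (MvPolynomial.constantCoeff r) (cB g))
      convert this using 1
      rw [Finset.smul_sum, ← Finset.sum_add_distrib]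
      refine Finset.sum_congr rfl fun j _ => ?_
      rw [← algebraMap_smul (GAadd p V) (MvPolynomial.constantCoeff r), smul_smul, ← add_smul]
      congr 1
      simp only [map_mul, map_sub, MvPolynomial.aeval_C]
      ring
    | zero => intro r; simp
    | add a c _ _ ha hc =>
      intro r
      simp only [mul_add, map_add, add_smul, Finset.sum_add_distrib]
      exact G.add_mem (ha r) (hc r)
    | smul c a _ ha =>
      intro r
      rw [smul_eq_mul, ← mul_assoc]; exact ha _
  simpa using main 1

omit [Module (ZMod p) V] [Module (ZMod p) E] [IsScalarTower (ZMod p) (GAadd p V) E] in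
/-- the weight-one projection of the norm relations -/
theorem proj_expand (β : MulAut T) (x : T) :
    ∑ n ∈ range p, ((n : GAadd p V) ^ (p - 2)) • S.d (nrm p β (x ^ n)) =
      ∑ k ∈ range p, (MvPolynomial.aeval (fun l => ch p (S.q ((β ^ l) x)) - 1)
        (∑ n ∈ range p, (n : MvPolynomial ℕ (ZMod p)) ^ (p - 2) *
          (((1 + ((∏ l ∈ range k, (1 + MvPolynomial.X l)) - 1)) ^ n - 1) *
            ∑ i ∈ range n, (1 + MvPolynomial.X k) ^ i)) • S.d ((β ^ k) x) +
        (∑ n ∈ range p, (n : GAadd p V) ^ (p - 2) * ∑ i ∈ range n, ch p (S.q ((β ^ k) x)) ^ i) •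
          S.d ((β ^ k) x)) := by
  simp_rw [nrm, S.d_range_prod, Finset.smul_sum]
  rw [Finset.sum_comm]
  refine Finset.sum_congr rfl fun k _ => ?_
  rw [map_sum, Finset.sum_smul, Finset.sum_smul, ← Finset.sum_add_distrib]
  refine Finset.sum_congr rfl fun n _ => ?_
  simp only [map_pow (β ^ _) x n, S.q_pow, S.d_pow, ch_sum, ch_nsmul, map_mul, map_pow,
    map_natCast, map_sub, map_add, map_one, map_prod, map_sum, MvPolynomial.aeval_X,
    add_sub_cancel, Finset.prod_pow]
  module

end Setup

theorem core {p : ℕ} [hp : Fact p.Prime] (hp2 : p ≠ 2) {T E : Type*} {V : Type} [Group T]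
    [AddCommGroup V] [AddCommGroup E] [Module (GAadd p V) E] (S : Setup p T V E) [Module (ZMod p) V]
    [Module (ZMod p) E] [IsScalarTower (ZMod p) (GAadd p V) E] [Finite V]
    (act : ZMod p × ZMod p → MulAut T) (actV : ZMod p × ZMod p → Module.End (ZMod p) V)
    (hind : ∀ u, S.Ind (act u) (actV u)) (act_add : ∀ u u', act (u + u') = act u * act u')
    (H : ∀ u, u ≠ 0 → ∀ x, nrm p (act u) x = 1) (x : T) : S.d (x ^ p) = 0 := by
  classical
  have hp3 : 3 ≤ p := by have := hp.out.two_le; omega
  have act_zero : act 0 = 1 := by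
    have := act_add 0 0
    rw [add_zero] at this
    exact left_eq_mul.1 this
  have act_pow : ∀ u (n : ℕ), act u ^ n = act (n • u) := by
    intro u n
    induction n with
    | zero => simp [act_zero]
    | succ n ih => rw [pow_succ, ih, succ_nsmul, act_add]
  set β := act (0, 1) with hβdef
  set b := actV (0, 1) with hbdef
  have h : S.Ind β b := hind _
  have hβ : β ^ p = 1 := by rw [hβdef, act_pow, p_nsmul, act_zero]
  have Hβ : ∀ x, nrm p β x = 1 := H _ (by simp)
  have hP : S.Cls := h.class_bound hβ Hβ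
  have hN : (b - 1) ^ p = 0 := by
    have h1 := congrArg (Polynomial.aeval b)
      (sub_one_pow_p (p := p) (Polynomial.X : Polynomial (ZMod p)))
    simp only [map_pow, map_sub, Polynomial.aeval_X, map_one, h.pow_p hβ, sub_self] at h1
    exact h1
  obtain ⟨ι, w, wt, hw1, hw2⟩ := adapted_basis (b - 1) p hN
  have hpres : ∀ u e x, S.q x ∈ LinearMap.range ((b - 1) ^ e) →
      S.q (act u x) ∈ LinearMap.range ((b - 1) ^ e) := by
    intro u e x ⟨v, hv⟩
    have hc : Commute b (actV u) := by
      ext v
      obtain ⟨y, rfl⟩ := S.q_surj v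
      rw [Module.End.mul_apply, Module.End.mul_apply, ← hind u, ← h, ← h, ← hind u,
        ← MulAut.mul_apply, ← MulAut.mul_apply, hβdef, ← act_add, ← act_add, add_comm]
    have hc2 : Commute ((b - 1) ^ e) (actV u) := (hc.sub_left (Commute.one_left _)).pow_left e
    refine ⟨actV u v, ?_⟩
    rw [hind u, ← hv, ← Module.End.mul_apply, hc2.eq, Module.End.mul_apply]
  have hpE : ∀ z : E, p • z = 0 := fun z => p_nsmul z
  have hbpow : ∀ (j : ZMod p) (n : ℕ), β ^ (j.val * n) = act (0, (n : ZMod p) * j) := by
    intro j n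
    have : NeZero p := ⟨hp.out.ne_zero⟩
    rw [hβdef, act_pow]
    congr 1
    ext
    · simp
    · simp [mul_comm]
  have step : ∀ e, (∀ x, S.q x ∈ LinearMap.range ((b - 1) ^ (e + 1)) → S.d (x ^ p) = 0) →
      ∀ x, S.q x ∈ LinearMap.range ((b - 1) ^ e) → S.d (x ^ p) = 0 := by
    intro e ih x hx
    set G := GS (ZMod p) (fun l => ch p (w l) - 1) (fun l => S.d (S.sec (w l))) (good2 p wt e)
      with hG
    have hqp : S.q (x ^ p) = 0 := by rw [S.q_pow, p_nsmul]
    refine lemmaG (K := ZMod p) (fun l => ch p (w l) - 1) (fun l => S.d (S.sec (w l))) S.del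
      (fun l => by rw [S.del_d, S.q_sec]) p hp.out.pos (phi_ker w) (good2 p wt e)
      (fun ν ν' l l' hν hg => ?_) (fun ν l hl hg => ?_) _ ?_
      (by rw [S.del_d, hqp, ch_zero, sub_self])
    · rcases hg with hg | ⟨hg1, hg2⟩
      · exact hP.ha_high w ν ν' l l' hν hg
      · obtain ⟨g, hg⟩ := finsupp_eq_sum p _ hg1
        obtain ⟨i, rfl, e1⟩ := exists_index g ν l hg
        obtain ⟨j, rfl, e2⟩ := exists_index g ν' l' (hν ▸ hg)
        rw [hg] at hg2
        simp only [map_sum, Finsupp.weight_single, one_smul] at hg2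
        rw [e1, e2, op_sum, op_sum]
        exact hP.sym hp2 w h hβ Hβ (fun s => wt (g s)) (by omega) (fun s => w (g s))
          (fun s => hw1 _) i j
    · rcases hg with hg | ⟨hg1, hg2⟩
      · exact hP.hb_high w ν l hl hg
      · obtain ⟨μ, rfl⟩ := single_split ν l (p - 1) (by omega)
        simp only [map_add, Finsupp.degree_single, Finsupp.weight_single, smul_eq_mul] at hg1 hg2
        have hμ : μ = 0 := (Finsupp.degree_eq_zero_iff μ).1 (by omega)
        subst hμ
        rw [Setup.op_split, ih, smul_zero]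
        rw [S.q_sec]
        refine range_pow_anti _ ?_ (hw1 l)
        rw [map_zero] at hg2
        by_contra hc
        have h1 : wt l ≤ e := by omega
        have h2 : (p - 1) * wt l ≤ (p - 1) * e := Nat.mul_le_mul_left _ h1
        have h3 : p * e = (p - 1) * e + e := by
          conv_lhs => rw [show p = (p - 1) + 1 by omega, add_mul, one_mul]
        omega
    · -- the projected relations
      let ρ : MulAut T → T → E := fun γ y =>
        ∑ n ∈ range p, ((n : GAadd p V) ^ (p - 2)) • S.d (nrm p γ (y ^ n))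
      have hρ0 : ∀ u, u ≠ 0 → ∀ y, ρ (act u) y = 0 := by
        intro u hu y
        simp [ρ, H u hu, S.d_one]
      have hρ1 : ρ (act 0) x = - S.d (x ^ p) := by
        have e1 : ∀ n : ℕ, S.d (nrm p (act 0) (x ^ n)) = (n : GAadd p V) • S.d (x ^ p) := by
          intro n
          have : nrm p (act 0) (x ^ n) = (x ^ p) ^ n := by
            simp [nrm, act_zero, ← pow_mul, mul_comm]
          rw [this, S.d_pow, hqp, ch_zero]; simp
        simp only [ρ, e1, smul_smul, ← pow_succ, ← Finset.sum_smul]
        rw [show p - 2 + 1 = p - 1 by omega, sum_pow_top, neg_one_smul]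
      have htot : ∑ u, ρ (act u) x + ∑ j : ZMod p, ρ (act (1, 0)) (act (0, j) x) =
          - S.d (x ^ p) := by
        rw [Finset.sum_eq_single 0 (fun u _ hu => hρ0 u hu x) (by simp), hρ1,
          Finset.sum_eq_zero fun j _ => hρ0 _ (by simp) _, add_zero]
      rw [← neg_mem_iff, ← htot]
      simp only [ρ, Setup.proj_expand, Finset.sum_add_distrib]
      set hh : ℕ → MvPolynomial ℕ (ZMod p) := fun k =>
        ∑ n ∈ range p, (n : MvPolynomial ℕ (ZMod p)) ^ (p - 2) *
          (((1 + ((∏ l ∈ range k, (1 + MvPolynomial.X l)) - 1)) ^ n - 1) *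
            ∑ i ∈ range n, (1 + MvPolynomial.X k) ^ i) with hhh
      have hhm : ∀ k, hh k ∈ Ideal.span (Set.range MvPolynomial.X) ^ (p - 1) := by
        intro k
        refine proj_mem _ _ _ ?_ (Ideal.subset_span ⟨k, rfl⟩)
        have := sub_const_mem (∏ l ∈ range k, (1 + MvPolynomial.X l : MvPolynomial ℕ (ZMod p)))
        simpa [map_prod] using this
      set f : ZMod p × ZMod p → E := fun u =>
        (∑ n ∈ range p, (n : GAadd p V) ^ (p - 2) * ∑ i ∈ range n, ch p (S.q (act u x)) ^ i) •
          S.d (act u x) with hf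
      have c1 : ∑ u : ZMod p × ZMod p, ∑ k ∈ range p,
          (∑ n ∈ range p, (n : GAadd p V) ^ (p - 2) * ∑ i ∈ range n, ch p (S.q ((act u ^ k) x)) ^ i) •
            S.d ((act u ^ k) x) = - ∑ u, f u := by
        simp only [act_pow]
        change ∑ u : ZMod p × ZMod p, ∑ k ∈ range p, f (k • u) = _
        rw [Finset.sum_comm]
        simp only [← Nat.cast_smul_eq_nsmul (ZMod p)]
        rw [sum_range_zmod (fun c : ZMod p => ∑ u : ZMod p × ZMod p, f (c • u)),
          ← Finset.add_sum_erase _ _ (mem_univ 0)]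
        have d1 : ∀ c ∈ (univ : Finset (ZMod p)).erase 0,
            ∑ u : ZMod p × ZMod p, f (c • u) = ∑ u, f u := by
          intro c hc
          exact Equiv.sum_comp (MulAction.toPerm (Units.mk0 c (Finset.ne_of_mem_erase hc))) f
        rw [Finset.sum_congr rfl d1, Finset.sum_const, Finset.card_erase_of_mem (mem_univ _)]
        simp only [zero_smul, Finset.sum_const, Finset.card_univ, Fintype.card_prod, ZMod.card]
        rw [mul_smul, hpE, zero_add, eq_neg_iff_add_eq_zero, ← succ_nsmul,
          Nat.sub_add_cancel hp.out.one_le, hpE]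
      have c2 : ∑ j : ZMod p, ∑ k ∈ range p, (∑ n ∈ range p, (n : GAadd p V) ^ (p - 2) *
          ∑ i ∈ range n, ch p (S.q ((act (1, 0) ^ k) (act (0, j) x))) ^ i) •
            S.d ((act (1, 0) ^ k) (act (0, j) x)) = ∑ u, f u := by
        have d1 : ∀ (k : ℕ) (j : ZMod p), (act (1, 0) ^ k) (act (0, j) x) =
            act ((k : ZMod p), j) x := by
          intro k j
          rw [act_pow, ← MulAut.mul_apply, ← act_add]
          simp
        simp only [d1]
        change ∑ j : ZMod p, ∑ k ∈ range p, f ((k : ZMod p), j) = _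
        rw [Fintype.sum_prod_type_right]
        exact Finset.sum_congr rfl fun j _ => sum_range_zmod fun c => f (c, j)
      rw [c1, c2, add_assoc, add_left_comm (- ∑ u, f u), neg_add_cancel, add_zero]
      have : NeZero p := ⟨hp.out.ne_zero⟩
      refine G.add_mem ?_ ?_
      · rw [Fintype.sum_prod_type]
        refine G.sum_mem fun i _ => ?_
        rw [Finset.sum_comm]
        refine G.sum_mem fun k _ => ?_
        have := hP.sum_mem w wt h hβ hw2 e (fun l => act ((l : ZMod p) * i, 0) x)
          (fun l => hpres _ _ _ hx) id k (hh k) (hhm k)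
        rw [← sum_range_zmod]
        convert this using 2 with j hj
        have d1 : ∀ l : ℕ, (act (i, (j : ZMod p)) ^ l) x =
            (β ^ (j * l)) (act ((l : ZMod p) * i, 0) x) := by
          intro l
          have := hbpow (j : ZMod p) l
          rw [ZMod.val_cast_of_lt (mem_range.1 hj)] at this
          rw [this, act_pow, ← MulAut.mul_apply, ← act_add]
          simp
        simp only [d1, id, hhh]
      · rw [Finset.sum_comm]
        refine G.sum_mem fun k _ => ?_
        have := hP.sum_mem w wt h hβ hw2 e (fun l => act ((l : ZMod p), 0) x)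
          (fun l => hpres _ _ _ hx) (fun _ => 1) k (hh k) (hhm k)
        rw [← sum_range_zmod]
        convert this using 2 with j hj
        have d1 : ∀ l : ℕ, (act (1, 0) ^ l) (act (0, (j : ZMod p)) x) =
            (β ^ (j * 1)) (act ((l : ZMod p), 0) x) := by
          intro l
          have := hbpow (j : ZMod p) 1
          rw [ZMod.val_cast_of_lt (mem_range.1 hj)] at this
          rw [this, act_pow, ← MulAut.mul_apply, ← MulAut.mul_apply, ← act_add, ← act_add]
          simp
        simp only [d1, hhh]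
  have down : ∀ n, (∀ x, S.q x ∈ LinearMap.range ((b - 1) ^ n) → S.d (x ^ p) = 0) →
      ∀ x, S.d (x ^ p) = 0 := by
    intro n
    induction n with
    | zero => exact fun h x => h x (by simp)
    | succ n ih => exact fun h => ih (step n h)
  refine down p (fun x hx => ?_) x
  rw [hN] at hx
  have hx0 : S.q x = 0 := by simpa using hx
  rw [S.d_pow, hx0, ch_zero]
  simp [natCast_p]

end Pool.Agent.Lib.MP_6d9b00_al
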