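import Mathlib
import Pool.Agent.Lib.MP_6d9b00_al.MetaCore3

set_option autoImplicit false

namespace Pool.Agent.Lib.MP_6d9b00_al

open Finset

theorem list_range_prod {G : Type*} [CommMonoid G] (g : ℕ → G) (n : ℕ) :
    ((List.range n).map g).prod = ∏ i ∈ range n, g i := by
  induction n with
  | zero => simp
  | succ n ih => simp [List.range_succ, ih, Finset.prod_range_succ]

section action

variable {p : ℕ} [hp : Fact p.Prime] {T : Type*} [Group T] (act : ZMod p × ZMod p → MulAut T)
  (act_add : ∀ u u', act (u + u') = act u * act u')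

include act_add

theorem act_zero' : act 0 = 1 := by
  have := act_add 0 0
  rw [add_zero] at this
  exact left_eq_mul.1 this

theorem act_pow' (u : ZMod p × ZMod p) (n : ℕ) : act u ^ n = act (n • u) := by
  induction n with
  | zero => simp [act_zero' act act_add]
  | succ n ih => rw [pow_succ, ih, succ_nsmul, act_add]

/-- abelian invariant sections have exponent `p` -/
theorem exp_of_hom (H : ∀ u, u ≠ 0 → ∀ x, nrm p (act u) x = 1) (K : Subgroup T)
    (hK : ∀ u, ∀ x ∈ K, act u x ∈ K) {G : Type*} [CommGroup G] (f : K →* G) (x : K) :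
    f x ^ p = 1 := by
  classical
  let F : ZMod p × ZMod p → Additive G := fun u => Additive.ofMul (f ⟨act u x, hK u x x.2⟩)
  have hF : ∀ u u', u ≠ 0 → ∑ k ∈ range p, F (k • u + u') = 0 := by
    intro u u' hu
    have h1 : ((List.range p).map fun k =>
        (⟨act (k • u + u') x, hK _ x x.2⟩ : K)).prod = 1 := by
      apply Subtype.ext
      rw [SubmonoidClass.coe_list_prod, List.map_map, OneMemClass.coe_one, ← H u hu (act u' x), nrm]
      congr 2
      funext k
      simp only [Function.comp_apply]
      rw [act_add, act_pow' act act_add, MulAut.mul_apply]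
    have h2 := congrArg f h1
    rw [map_list_prod, List.map_map, list_range_prod, map_one] at h2
    have h3 := congrArg Additive.ofMul h2
    rwa [ofMul_prod] at h3
  have h1 : ∑ j : ZMod p, ∑ k ∈ range p, F (k • ((1 : ZMod p), j) + 0) = 0 :=
    Finset.sum_eq_zero fun j _ => hF _ _ (by simp)
  rw [Finset.sum_comm] at h1
  have h2 : ∀ (k : ℕ) (j : ZMod p), k • ((1 : ZMod p), j) + 0 = ((k : ZMod p), (k : ZMod p) * j) := by
    intro k j; simp
  simp only [h2] at h1
  rw [sum_range_zmod (fun c : ZMod p => ∑ j : ZMod p, F (c, c * j)),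
    ← Finset.add_sum_erase _ _ (mem_univ 0), Finset.sum_eq_zero (s := univ.erase 0)] at h1
  · simp only [zero_mul, Finset.sum_const, Finset.card_univ, ZMod.card, add_zero] at h1
    have h4 : F (0, 0) = Additive.ofMul (f x) := by
      simp only [F]
      congr 2
      apply Subtype.ext
      have := act_zero' act act_add
      simp only [Prod.mk_zero_zero, this, MulAut.one_apply]
    rw [h4, ← ofMul_pow] at h1
    exact h1
  · intro c hc
    have h5 := Equiv.sum_comp (MulAction.toPerm (Units.mk0 c (Finset.ne_of_mem_erase hc)))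
      (fun j : ZMod p => F (c, j))
    have h6 := hF (0, 1) (c, 0) (by simp)
    have h7 : ∀ k : ℕ, k • ((0 : ZMod p), (1 : ZMod p)) + (c, 0) = (c, (k : ZMod p)) := by
      intro k; simp
    simp only [h7] at h6
    rw [sum_range_zmod (fun j : ZMod p => F (c, j))] at h6
    rw [← h6, ← h5]
    rfl

end action

theorem meta_fin {p : ℕ} [hp : Fact p.Prime] (hp2 : p ≠ 2) {T : Type} [Group T]
    [Finite (Abelianization T)]
    (hT : ∀ x ∈ commutator T, ∀ y ∈ commutator T, x * y = y * x)
    (act : ZMod p × ZMod p → MulAut T) (act_add : ∀ u u', act (u + u') = act u * act u')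
    (H : ∀ u, u ≠ 0 → ∀ x, nrm p (act u) x = 1) (x : T) : x ^ p = 1 := by
  let V := Additive (Abelianization T)
  have hV : ∀ v : V, p • v = 0 := by
    intro v
    obtain ⟨y, hy⟩ := QuotientGroup.mk_surjective (s := commutator T) v.toMul
    have := exp_of_hom act act_add H ⊤ (fun _ _ _ => trivial)
      (Abelianization.of.comp (Subgroup.subtype ⊤)) ⟨y, trivial⟩
    change v.toMul ^ p = 1
    rw [← hy]; exact this
  let : Module (ZMod p) V := AddCommGroup.zmodModule hV
  have : Finite V := inferInstanceAs (Finite (Abelianization T))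
  let : CommGroup (commutator T) :=
    { (inferInstance : Group (commutator T)) with
      mul_comm := fun a c => Subtype.ext (hT _ a.2 _ c.2) }
  let M := Additive (commutator T)
  have hM : ∀ m : M, p • m = 0 := by
    intro m
    have hK : ∀ u, ∀ x ∈ commutator T, act u x ∈ commutator T := fun u x hx =>
      (Subgroup.characteristic_iff_le_comap.1 inferInstance (act u)) hx
    exact exp_of_hom act act_add H (commutator T) hK (MonoidHom.id _) m.toMul
  let : Module (ZMod p) M := AddCommGroup.zmodModule hM
  let q : T → V := fun y => Additive.ofMul (Abelianization.of y)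
  have q_mul : ∀ x y, q (x * y) = q x + q y := fun x y => by simp only [q, map_mul]; rfl
  have q_surj : Function.Surjective q := fun v =>
    QuotientGroup.mk_surjective (s := commutator T) v.toMul
  have q_ker : ∀ y, q y = 0 → y ∈ commutator T := fun y hy => by
    rw [← Abelianization.ker_of]; exact hy
  have q_inv : ∀ y, q y⁻¹ = - q y := fun y => by simp only [q, map_inv]; rfl
  let s : V → T := Function.surjInv q_surj
  have hs : ∀ v, q (s v) = v := Function.surjInv_eq q_surj
  let rep : Multiplicative V →* Module.End (ZMod p) (V → M) :=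
    { toFun := fun u => LinearMap.funLeft (ZMod p) M fun v => v + u.toAdd
      map_one' := by ext; simp
      map_mul' := by
        intro u u'
        refine LinearMap.ext fun φ => funext fun v => ?_
        simp [add_assoc] }
  let Φ : GAadd p V →ₐ[ZMod p] Module.End (ZMod p) (V → M) := AddMonoidAlgebra.lift (ZMod p) _ _ rep
  let : Module (GAadd p V) (V → M) := Module.compHom _ Φ.toRingHom
  have hsm : ∀ (r : GAadd p V) (φ : V → M), r • φ = Φ r φ := fun _ _ => rfl
  have : IsScalarTower (ZMod p) (GAadd p V) (V → M) :=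
    ⟨fun c r φ => by rw [hsm, hsm, map_smul, LinearMap.smul_apply]⟩
  have hch : ∀ (u : V) (φ : V → M) (v : V), (ch p u • φ) v = φ (v + u) := by
    intro u φ v
    rw [hsm, ch, AddMonoidAlgebra.lift_single, one_smul]
    rfl
  let d1 : T → V → M := fun y v => Additive.ofMul (⟨s v * y * (s (v + q y))⁻¹, q_ker _ (by
    rw [q_mul, q_mul, q_inv, hs, hs, add_neg_cancel])⟩ : commutator T)
  let S : Setup p T V ((V → M) × GAadd p V) :=
    { q := q
      q_mul := q_mul
      q_surj := q_surj
      d := fun y => (d1 y, ch p (q y) - 1)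
      d_mul := by
        intro y z
        refine Prod.ext (funext fun v => ?_) ?_
        · simp only [Prod.fst_add, Prod.smul_fst, Pi.add_apply, hch, d1]
          apply Subtype.ext
          change s v * (y * z) * (s (v + q (y * z)))⁻¹ =
            s v * y * (s (v + q y))⁻¹ * (s (v + q y) * z * (s (v + q y + q z))⁻¹)
          rw [q_mul, add_assoc]
          group
        · simp only [Prod.snd_add, Prod.smul_snd, q_mul, ch_add, smul_eq_mul]
          ring
      del := LinearMap.snd _ _ _
      del_d := fun _ => rfl }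
  let actV : ZMod p × ZMod p → Module.End (ZMod p) V := fun u =>
    AddMonoidHom.toZModLinearMap p (MonoidHom.toAdditive (Abelianization.map (act u).toMonoidHom))
  have h0 := core hp2 S act actV (fun u y => rfl) act_add H x
  have h1 : d1 (x ^ p) 0 = 0 := congrFun (congrArg Prod.fst h0) 0
  have h2 : q (x ^ p) = 0 := by rw [show q (x ^ p) = p • q x from S.q_pow x p, hV]
  have h3 : s 0 * x ^ p * (s (0 + q (x ^ p)))⁻¹ = 1 := congrArg Subtype.val h1
  rw [h2, add_zero] at h3
  exact (conj_eq_one_iff).1 h3

theorem meta_all {p : ℕ} [hp : Fact p.Prime] (hp2 : p ≠ 2) {T : Type} [Group T]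
    (hT : ∀ x ∈ commutator T, ∀ y ∈ commutator T, x * y = y * x)
    (act : ZMod p × ZMod p → MulAut T) (act_add : ∀ u u', act (u + u') = act u * act u')
    (H : ∀ u, u ≠ 0 → ∀ x, nrm p (act u) x = 1) (x : T) : x ^ p = 1 := by
  let K : Subgroup T := Subgroup.closure (Set.range fun u => act u x)
  have hK : ∀ u, ∀ y ∈ K, act u y ∈ K := by
    intro u y hy
    induction hy using Subgroup.closure_induction with
    | mem y hy =>
      obtain ⟨u', rfl⟩ := hy
      exact Subgroup.subset_closure ⟨u + u', by simp [act_add]⟩
    | one => simp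
    | mul a c _ _ ha hc => rw [map_mul]; exact K.mul_mem ha hc
    | inv a _ ha => rw [map_inv]; exact K.inv_mem ha
  have h0 := act_zero' act act_add
  let actK : ZMod p × ZMod p → MulAut K := fun u =>
    { toFun := fun y => ⟨act u y, hK u y y.2⟩
      invFun := fun y => ⟨act (-u) y, hK _ y y.2⟩
      left_inv := fun y => Subtype.ext (by
        simp only; rw [← MulAut.mul_apply, ← act_add, neg_add_cancel, h0]; rfl)
      right_inv := fun y => Subtype.ext (by
        simp only; rw [← MulAut.mul_apply, ← act_add, add_neg_cancel, h0]; rfl)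
      map_mul' := fun y z => Subtype.ext (by simp) }
  have hactK : ∀ u (y : K), (actK u y : T) = act u y := fun _ _ => rfl
  have actK_add : ∀ u u', actK (u + u') = actK u * actK u' := by
    intro u u'
    ext y
    rw [MulAut.mul_apply, hactK, hactK, hactK, act_add, MulAut.mul_apply]
  have HK : ∀ u, u ≠ 0 → ∀ y, nrm p (actK u) y = 1 := by
    intro u hu y
    apply Subtype.ext
    rw [nrm, SubmonoidClass.coe_list_prod, List.map_map, OneMemClass.coe_one, ← H u hu y, nrm]
    congr 2
    funext k
    simp only [Function.comp_apply]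
    rw [act_pow' actK actK_add, act_pow' act act_add, hactK]
  have hTK : ∀ y ∈ commutator K, ∀ z ∈ commutator K, y * z = z * y := by
    have hle : ∀ y ∈ commutator K, (y : T) ∈ commutator T := by
      intro y hy
      rw [← Abelianization.ker_of]
      exact Abelianization.commutator_subset_ker (Abelianization.of.comp K.subtype) hy
    intro y hy z hz
    exact Subtype.ext (hT _ (hle y hy) _ (hle z hz))
  have hfg : Group.FG K := Group.closure_finite_fg _
  have hfg' : Group.FG (Abelianization K) :=
    Group.fg_of_surjective (f := Abelianization.of) (QuotientGroup.mk_surjective)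
  have : Finite (Abelianization K) := by
    apply CommGroup.finite_of_fg_isMulTorsion
    intro v
    obtain ⟨y, hy⟩ := QuotientGroup.mk_surjective (s := commutator K) v
    have := exp_of_hom actK actK_add HK ⊤ (fun _ _ _ => trivial)
      (Abelianization.of.comp (Subgroup.subtype ⊤)) ⟨y, trivial⟩
    exact isOfFinOrder_iff_pow_eq_one.2 ⟨p, hp.out.pos, by rw [← hy]; exact this⟩
  have hx : x ∈ K := Subgroup.subset_closure ⟨0, by simp [h0]⟩
  exact congrArg Subtype.val (meta_fin hp2 hTK actK actK_add HK ⟨x, hx⟩)

theorem meta_two {T : Type} [Group T] (act : ZMod 2 × ZMod 2 → MulAut T)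
    (act_add : ∀ u u', act (u + u') = act u * act u')
    (H : ∀ u, u ≠ 0 → ∀ x, nrm 2 (act u) x = 1) (x : T) : x ^ 2 = 1 := by
  have h : ∀ u, u ≠ 0 → ∀ y, act u y = y⁻¹ := by
    intro u hu y
    have := H u hu y
    simp only [nrm, List.range_succ, List.range_zero, List.nil_append, List.map_cons, List.map_nil,
      List.cons_append, List.prod_cons, List.prod_nil, pow_zero, pow_one, MulAut.one_apply,
      mul_one] at this
    exact eq_inv_of_mul_eq_one_right this
  have h1 := h ((1, 0) + (0, 1)) (by decide) x
  rw [act_add, MulAut.mul_apply, h _ (by decide), h _ (by decide), inv_inv] at h1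
  rw [pow_two]
  exact mul_eq_one_iff_eq_inv.2 h1

theorem exists_equiv {p : ℕ} [hp : Fact p.Prime] {W : Type*} [AddCommGroup W] [Module (ZMod p) W]
    (hW : Nat.card W = p ^ 2) : ∃ e : ZMod p × ZMod p →+ W, Function.Injective e := by
  have : Finite W := Nat.finite_of_card_ne_zero (by rw [hW]; exact pow_ne_zero _ hp.out.ne_zero)
  have h1 : Module.finrank (ZMod p) W = 2 := by
    have := Module.natCard_eq_pow_finrank (K := ZMod p) (V := W)
    rw [Nat.card_zmod, hW] at this
    exact (Nat.pow_right_injective hp.out.two_le this).symm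
  let e : (ZMod p × ZMod p) ≃ₗ[ZMod p] W := LinearEquiv.ofFinrankEq _ _ (by rw [h1]; simp)
  exact ⟨e.toLinearMap.toAddMonoidHom, e.injective⟩

theorem exists_act_comm {p : ℕ} [hp : Fact p.Prime] {A : Type*} [CommGroup A]
    (hA : Nat.card A = p ^ 2) (hexp : ∀ a : A, a ^ p = 1) :
    ∃ f : ZMod p × ZMod p → A, (∀ u u', f (u + u') = f u * f u') ∧ ∀ u, u ≠ 0 → f u ≠ 1 := by
  obtain ⟨e, he⟩ := @exists_equiv p hp (Additive A) _
    (AddCommGroup.zmodModule fun a => hexp a.toMul) hA
  refine ⟨fun u => (e u).toMul, fun u u' => by simp only [map_add, toMul_add], fun u hu h => hu ?_⟩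
  apply he
  rw [map_zero]; exact h

theorem exists_act {p : ℕ} [hp : Fact p.Prime] {A : Type*} [hG : Group A]
    (hA : Nat.card A = p ^ 2) (hexp : ∀ a : A, a ^ p = 1) :
    ∃ f : ZMod p × ZMod p → A, (∀ u u', f (u + u') = f u * f u') ∧ ∀ u, u ≠ 0 → f u ≠ 1 :=
  @exists_act_comm p hp A
    { hG with mul_comm := (IsPGroup.isMulCommutative_of_card_eq_prime_sq hA).is_comm.comm } hA hexp

theorem sdp_pow {T : Type*} [Group T] (A : Subgroup (MulAut T)) (t : T) (a : A) (n : ℕ) :
    ((⟨t, a⟩ : SemidirectProduct T A A.subtype) ^ n).left = nrm n (a : MulAut T) t ∧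
      ((⟨t, a⟩ : SemidirectProduct T A A.subtype) ^ n).right = a ^ n := by
  induction n with
  | zero => simp [nrm]
  | succ n ih =>
    rw [pow_succ, SemidirectProduct.mul_left, SemidirectProduct.mul_right, ih.1, ih.2, pow_succ]
    simp [nrm, List.range_succ]

end Pool.Agent.Lib.MP_6d9b00_al
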