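import Mathlib
import Pool.Agent.Lib.MP_6d9b00_al.Series

/-! Translation of the hypotheses on the semidirect product. -/

namespace Pool.Agent.Lib.MP_6d9b00_al

variable {p : ℕ} [hp : Fact p.Prime]

theorem exists_basis {A : Type*} [Group A] (hA : Nat.card A = p ^ 2) (hAp : ∀ a : A, a ^ p = 1) :
    ∃ a b : A, Commute a b ∧ ∀ i j : ℕ, a ^ i * b ^ j = 1 → p ∣ i ∧ p ∣ j := by
  have hp1 := hp.out.one_lt
  have : Finite A := Nat.finite_of_card_ne_zero (by rw [hA]; positivity)
  have hcomm : ∀ a b : A, a * b = b * a :=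
    (IsPGroup.isMulCommutative_of_card_eq_prime_sq (p := p) hA).is_comm.comm
  have : Nontrivial A := Finite.one_lt_card_iff_nontrivial.1 (by rw [hA]; nlinarith)
  obtain ⟨a, ha⟩ := exists_ne (1 : A)
  have hord : ∀ x : A, x ≠ 1 → orderOf x = p := fun x hx => orderOf_eq_prime (hAp x) hx
  have hne : Subgroup.zpowers a ≠ ⊤ := by
    intro h
    have h1 := Nat.card_zpowers a
    rw [h, Subgroup.card_top, hA, hord a ha] at h1
    nlinarith
  obtain ⟨b, hb⟩ : ∃ b, b ∉ Subgroup.zpowers a := by
    by_contra hc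
    push Not at hc
    exact hne ((Subgroup.eq_top_iff' _).2 hc)
  refine ⟨a, b, hcomm a b, fun i j hij => ?_⟩
  have hj : p ∣ j := by
    by_contra hj
    apply hb
    have h1 : b ^ j ∈ Subgroup.zpowers a := by
      rw [← (inv_eq_of_mul_eq_one_right hij)]
      exact Subgroup.inv_mem _ (Subgroup.pow_mem _ (Subgroup.mem_zpowers a) i)
    have hb1 : b ≠ 1 := fun h => hb (h ▸ Subgroup.one_mem _)
    have hcop : Nat.Coprime j (orderOf b) := by
      rw [hord b hb1]
      exact ((Nat.Prime.coprime_iff_not_dvd hp.out).2 hj).symm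
    obtain ⟨m, hm⟩ := exists_pow_eq_self_of_coprime hcop
    rw [← hm]
    exact Subgroup.pow_mem _ h1 m
  refine ⟨?_, hj⟩
  obtain ⟨k, rfl⟩ := hj
  rw [pow_mul, hAp, one_pow, mul_one] at hij
  rw [← hord a ha]
  exact orderOf_dvd_of_pow_eq_one hij

/-- The hypotheses of the problem in terms of two commuting elements of the semidirect product. -/
theorem setup {T : Type} [Group T] [Finite T] (hT : IsPGroup p T) (A : Subgroup (MulAut T))
    (hA : Nat.card A = p ^ 2) (hAp : ∀ a : A, a ^ p = 1)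
    (h : ∀ (t : T) (a : A), a ≠ 1 → orderOf (⟨t, a⟩ : SemidirectProduct T A A.subtype) = p) :
    Finite (SemidirectProduct T A A.subtype) ∧ IsPGroup p (SemidirectProduct T A A.subtype) ∧
    ∃ a b : A, Commute a b ∧ (∀ i j : ℕ, a ^ i * b ^ j = 1 → p ∣ i ∧ p ∣ j) ∧
      (∀ g : SemidirectProduct T A A.subtype, g ∈ (SemidirectProduct.inl.range) ∨ g ^ p = 1) ∧
      (∀ t ∈ (SemidirectProduct.inl : T →* SemidirectProduct T A A.subtype).range, ∀ i j : ℕ,
        ¬ (p ∣ i ∧ p ∣ j) →
        (t * SemidirectProduct.inr a ^ i * SemidirectProduct.inr b ^ j) ^ p = 1) := by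
  have hfin : Finite A := Nat.finite_of_card_ne_zero (by rw [hA]; exact pow_ne_zero _ hp.out.ne_zero)
  have h1 : ∀ g : SemidirectProduct T A A.subtype, g.right ≠ 1 → g ^ p = 1 := by
    intro g hg
    rw [← h g.left g.right hg]
    exact pow_orderOf_eq_one g
  have h2 : ∀ g : SemidirectProduct T A A.subtype,
      g ∈ (SemidirectProduct.inl.range) ∨ g ^ p = 1 := by
    intro g
    by_cases hg : g.right = 1
    · left
      rw [SemidirectProduct.range_inl_eq_ker_rightHom]
      exact hg
    · exact Or.inr (h1 g hg)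
  refine ⟨Finite.of_equiv _ SemidirectProduct.equivProd.symm, ?_, ?_⟩
  · intro g
    rcases h2 g with ⟨t, rfl⟩ | hg
    · obtain ⟨k, hk⟩ := hT t
      exact ⟨k, by rw [← map_pow, hk, map_one]⟩
    · exact ⟨1, by rwa [pow_one]⟩
  · obtain ⟨a, b, hab, hind⟩ := exists_basis hA hAp
    refine ⟨a, b, hab, hind, h2, ?_⟩
    rintro _ ⟨t, rfl⟩ i j hij
    apply h1
    intro h0
    apply hij
    apply hind
    have : SemidirectProduct.rightHom (SemidirectProduct.inl t * SemidirectProduct.inr a ^ i *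
      SemidirectProduct.inr b ^ j : SemidirectProduct T A A.subtype) = 1 := h0
    rwa [map_mul, map_mul, map_pow, map_pow, SemidirectProduct.rightHom_inl,
      SemidirectProduct.rightHom_inr, SemidirectProduct.rightHom_inr, one_mul] at this

end Pool.Agent.Lib.MP_6d9b00_al
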