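import Mathlib
import Pool.Agent.Lib.MP_6d9b00_al.Setup

namespace Pool.Agent.Lib.MP_6d9b00_al.PowerDepth

open Pool.Agent.Lib.MP_6d9b00_al

/-- Under the hypotheses of the problem every `p`-th power of an element of `T` lies in
`γ_p(T) ∩ γ_{3p-2}(TA)`; the lower central series of Mathlib is indexed from zero. -/
theorem result :
    ∀ (p : ℕ), p.Prime →
    ∀ (T : Type) [Group T] [Finite T], IsPGroup p T →
    ∀ (A : Subgroup (MulAut T)),
      Nat.card A = p ^ 2 →
      (∀ a : A, a ^ p = 1) →
      (∀ (t : T) (a : A), a ≠ 1 →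
        orderOf (⟨t, a⟩ : SemidirectProduct T A A.subtype) = p) →
      ∀ t : T, (SemidirectProduct.inl (t ^ p) : SemidirectProduct T A A.subtype) ∈
        ((⊤ : Subgroup T).lowerCentralSeries (p - 1)).map SemidirectProduct.inl ⊓
          (⊤ : Subgroup (SemidirectProduct T A A.subtype)).lowerCentralSeries (3 * p - 3) := by
  intro p hp T _ _ hT A hA hAp h t
  have : Fact p.Prime := ⟨hp⟩
  obtain ⟨hfin, hP, a, b, hab, -, h1, h2⟩ := setup hT A hA hAp h
  have hN : (SemidirectProduct.inl : T →* SemidirectProduct T A A.subtype).range.Normal := by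
    rw [SemidirectProduct.range_inl_eq_ker_rightHom]; infer_instance
  have := pow_mem_gam hP _ (hab.map SemidirectProduct.inr) (by rw [← map_pow, hAp, map_one])
    (by rw [← map_pow, hAp, map_one]) h1 h2 ⟨t, rfl⟩
  rw [map_pow, Subgroup.map_lowerCentralSeries, ← MonoidHom.range_eq_map]
  exact this

end Pool.Agent.Lib.MP_6d9b00_al.PowerDepth
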